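import Pool.Agent.Lib.MP_0bc52e_nt.LC.StmC

/-! Piece [sail T3zeq]. -/

namespace Pool.Agent.Lib.MP_0bc52e_nt.LC

/-- the linear equivalence between the two coordinate spaces -/
def p_T3zeq_e : (Fin 3 → ℝ) ≃ₗ[ℝ] (ℝ × ℝ × ℝ) where
  toFun x := (x 0, x 1, x 2)
  invFun v := ![v.1, v.2.1, v.2.2]
  map_add' x y := rfl
  map_smul' r x := rfl
  left_inv x := by
    funext i
    fin_cases i <;> rfl
  right_inv v := rfl

theorem p_T3zeq_T3 (P : Set (Fin 3 → ℝ)) : T3 P = p_T3zeq_e '' P := by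
  ext v
  constructor
  · intro hv
    exact ⟨![v.1, v.2.1, v.2.2], hv, rfl⟩
  · rintro ⟨x, hx, rfl⟩
    show ![x 0, x 1, x 2] ∈ P
    have : ![x 0, x 1, x 2] = x := by
      funext i
      fin_cases i <;> rfl
    rw [this]
    exact hx

theorem p_T3zeq_I (x : Fin 3 → ℝ) : IsI (p_T3zeq_e x) ↔ IsIntVec x := by
  constructor
  · rintro ⟨w, hw⟩ i
    have h0 : x 0 = w.1 := congrArg Prod.fst hw
    have h1 : x 1 = w.2.1 := congrArg (fun v => v.2.1) hw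
    have h2 : x 2 = w.2.2 := congrArg (fun v => v.2.2) hw
    fin_cases i
    · exact ⟨_, h0⟩
    · exact ⟨_, h1⟩
    · exact ⟨_, h2⟩
  · intro h
    obtain ⟨a, ha⟩ := h 0
    obtain ⟨b, hb⟩ := h 1
    obtain ⟨c, hc⟩ := h 2
    refine ⟨(a, b, c), ?_⟩
    show (x 0, x 1, x 2) = ((a : ℝ), (b : ℝ), (c : ℝ))
    rw [ha, hb, hc]

theorem p_T3zeq_fam (c s t : ℤ) : p_T3zeq_e.symm '' (fam c s t) = famS c s t := by
  unfold fam famS
  have h := p_T3zeq_e.symm.toLinearMap.image_convexHull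
    ({ip (0, 0, 0), ip (0, 2, c), ip (1, 0, 0), ip (1, 0, 1), ip (1, 1, 0), ip (1, 1, 1),
      ip (0, 1, s), ip (0, 1, t)} : Set (ℝ × ℝ × ℝ))
  have h2 : (p_T3zeq_e.symm.toLinearMap : (ℝ × ℝ × ℝ) → (Fin 3 → ℝ)) = p_T3zeq_e.symm := rfl
  rw [h2] at h
  rw [h]
  have e : ∀ v : ℤ × ℤ × ℤ, p_T3zeq_e.symm (ip v) = ![(v.1 : ℝ), (v.2.1 : ℝ), (v.2.2 : ℝ)] :=
    fun v => rfl
  simp only [Set.image_insert_eq, Set.image_singleton, e]
  norm_num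

theorem p_T3zeq : S_T3zeq := by
  rintro P c s t ⟨g, hI, hg⟩
  refine ⟨(p_T3zeq_e.symm.toLinearMap.toAffineMap.comp g.toAffineMap).comp
    p_T3zeq_e.toLinearMap.toAffineMap, ?_, ?_, ?_⟩
  · intro x y h
    have h1 : p_T3zeq_e.symm (g (p_T3zeq_e x)) = p_T3zeq_e.symm (g (p_T3zeq_e y)) := h
    exact p_T3zeq_e.injective (g.injective (p_T3zeq_e.symm.injective h1))
  · intro x
    show IsIntVec (p_T3zeq_e.symm (g (p_T3zeq_e x))) ↔ IsIntVec x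
    rw [← p_T3zeq_I, ← p_T3zeq_I, LinearEquiv.apply_symm_apply, hI]
  · rw [← p_T3zeq_fam, ← hg, p_T3zeq_T3, Set.image_image, Set.image_image]
    rfl

end Pool.Agent.Lib.MP_0bc52e_nt.LC
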