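import Pool.Agent.Lib.MP_0bc52e_nt.LC.StmA

/-!
# MP_0bc52e_nt, piece D2
-/

namespace Pool.Agent.Lib.MP_0bc52e_nt.LC

private theorem p_D2_comp (h_um : S_um) (Q : Set (ℝ × ℝ)) (T : ℝ × ℝ → ℝ × ℝ) (hT : IsUM T)
    (h : ∃ g : ℝ × ℝ → ℝ × ℝ, IsUM g ∧ W3 (g '' (T '' Q))) :
    ∃ g : ℝ × ℝ → ℝ × ℝ, IsUM g ∧ W3 (g '' Q) := by
  obtain ⟨g, hg, hw⟩ := h
  refine ⟨g ∘ T, h_um.1 T g hT hg, ?_⟩
  rw [Set.image_comp]
  exact hw

private theorem p_D2_mem (Q : Set (ℝ × ℝ)) (T : ℝ × ℝ → ℝ × ℝ) (x y : ℝ × ℝ) (hx : x ∈ Q)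
    (h : T x = y) : y ∈ T '' Q := ⟨x, hx, h⟩

private theorem p_D2_one (h_um : S_um) (h_umconv : S_umconv) (h_row : S_row) (h_row2 : S_row2)
    (h_pairs : S_pairs) (Q : Set (ℝ × ℝ)) (hQ : Convex ℝ Q) (hS : S4 Q) (h2 : ip2 (0, 2) ∈ Q)
    (a b : ℤ) (hab : ip2 (a, b) ∈ Q) (ha : a ≤ -1) :
    ∃ g : ℝ × ℝ → ℝ × ℝ, IsUM g ∧ W3 (g '' Q) := by
  let T : ℝ × ℝ → ℝ × ℝ := fun v => (v.2, 1 - v.1)
  have hT : IsUM T := by
    refine ⟨0, 1, -1, 0, 0, 1, Or.inl (by norm_num), fun v => ?_⟩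
    apply Prod.ext
    · change v.2 = _
      push_cast
      ring
    · change 1 - v.1 = _
      push_cast
      ring
  obtain ⟨s1, s2, s3, s4⟩ := hS
  have hQ' := (h_umconv T hT Q).1 hQ
  have hS' : S4 (T '' Q) := by
    refine ⟨p_D2_mem Q T _ _ s2 ?_, p_D2_mem Q T _ _ s4 ?_, p_D2_mem Q T _ _ s1 ?_,
      p_D2_mem Q T _ _ s3 ?_⟩ <;> simp [T]
  have hab' : ip2 (b, 1 - a) ∈ T '' Q := by
    refine p_D2_mem Q T _ _ hab ?_
    simp [T, ip2]
  obtain ⟨a', ha'⟩ := h_row (T '' Q) hQ' hS' b (1 - a) (by omega) hab'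
  have hm : ip2 (-1, a') ∈ Q := by
    obtain ⟨v, hv, he⟩ := ha'
    have e1 : v.2 = (a' : ℝ) := congrArg Prod.fst he
    have e2 : 1 - v.1 = ((2 : ℤ) : ℝ) := congrArg Prod.snd he
    have : v = ip2 (-1, a') := by
      apply Prod.ext
      · change v.1 = ((-1 : ℤ) : ℝ)
        push_cast at e2 ⊢
        linarith
      · exact e1
    rwa [← this]
  by_cases h0 : a' = 0
  · subst h0
    exact h_pairs Q ⟨s1, s2, s3, s4⟩ h2 (Or.inr (Or.inl hm))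
  · by_cases h1 : a' = 1
    · subst h1
      exact h_pairs Q ⟨s1, s2, s3, s4⟩ h2 (Or.inr (Or.inr hm))
    · exact p_D2_comp h_um Q T hT (h_row2 (T '' Q) hQ' hS' a' ha' h0 h1)

theorem p_D2 (h_um : S_um) (h_umconv : S_umconv) (h_row : S_row) (h_row2 : S_row2)
    (h_pairs : S_pairs) : S_D2 := by
  intro Q hQ hS h02 h20 a b hab hor
  rcases hor with ha | hb | hs
  · exact p_D2_one h_um h_umconv h_row h_row2 h_pairs Q hQ hS h02 a b hab ha
  · let T : ℝ × ℝ → ℝ × ℝ := fun v => (v.2, v.1)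
    have hT : IsUM T := by
      refine ⟨0, 1, 1, 0, 0, 0, Or.inr (by norm_num), fun v => ?_⟩
      apply Prod.ext
      · change v.2 = _
        push_cast
        ring
      · change v.1 = _
        push_cast
        ring
    obtain ⟨s1, s2, s3, s4⟩ := hS
    have hS' : S4 (T '' Q) := by
      refine ⟨p_D2_mem Q T _ _ s1 ?_, p_D2_mem Q T _ _ s3 ?_, p_D2_mem Q T _ _ s2 ?_,
        p_D2_mem Q T _ _ s4 ?_⟩ <;> simp [T]
    exact p_D2_comp h_um Q T hT (p_D2_one h_um h_umconv h_row h_row2 h_pairs (T '' Q)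
      ((h_umconv T hT Q).1 hQ) hS' (p_D2_mem Q T _ _ h20 (by simp [T, ip2])) b a
      (p_D2_mem Q T _ _ hab (by simp [T, ip2])) hb)
  · let T : ℝ × ℝ → ℝ × ℝ := fun v => (2 - v.1 - v.2, v.2)
    have hT : IsUM T := by
      refine ⟨-1, -1, 0, 1, 2, 0, Or.inr (by norm_num), fun v => ?_⟩
      apply Prod.ext
      · change 2 - v.1 - v.2 = _
        push_cast
        ring
      · change v.2 = _
        push_cast
        ring
    obtain ⟨s1, s2, s3, s4⟩ := hS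
    have hS' : S4 (T '' Q) := by
      refine ⟨p_D2_mem Q T _ _ h20 ?_, p_D2_mem Q T _ _ s2 ?_, p_D2_mem Q T _ _ s4 ?_,
        p_D2_mem Q T _ _ s3 ?_⟩
      · simp [T, ip2]
      · apply Prod.ext <;> simp [T]
        norm_num
      · apply Prod.ext <;> simp [T]
        norm_num
      · apply Prod.ext <;> simp [T]
        norm_num
    exact p_D2_comp h_um Q T hT (p_D2_one h_um h_umconv h_row h_row2 h_pairs (T '' Q)
      ((h_umconv T hT Q).1 hQ) hS' (p_D2_mem Q T _ _ h02 (by simp [T, ip2])) (2 - a - b) b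
      (p_D2_mem Q T _ _ hab (by simp [T, ip2])) (by omega))

end Pool.Agent.Lib.MP_0bc52e_nt.LC
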