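import Pool.Agent.Lib.MP_0bc52e_nt.LC.StmA
import Pool.Agent.Lib.MP_0bc52e_nt.LC.StmB

namespace Pool.Agent.Lib.MP_0bc52e_nt.LC

/-- points of the triangle -/
private theorem p_Dlarge_tri (Q : Set (ℝ × ℝ)) (hQ : Convex ℝ Q) (hD : Dl Q) (u v : ℝ)
    (hu : 0 ≤ u) (hv : 0 ≤ v) (huv : u + v ≤ 2) : (u, v) ∈ Q := by
  obtain ⟨h0, h1, h2, _⟩ := hD
  rcases (add_nonneg hu hv).eq_or_lt with h | h
  · have hu0 : u = 0 := by linarith
    have hv0 : v = 0 := by linarith
    rw [hu0, hv0]; exact h0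
  · have h3 : (u / (u + v)) • ((2 : ℝ), (0 : ℝ)) + (v / (u + v)) • ((0 : ℝ), (2 : ℝ)) ∈ Q :=
      hQ h1 h2 (by positivity) (by positivity) (by field_simp)
    have h4 : (1 - (u + v) / 2) • ((0 : ℝ), (0 : ℝ)) + ((u + v) / 2) •
        ((u / (u + v)) • ((2 : ℝ), (0 : ℝ)) + (v / (u + v)) • ((0 : ℝ), (2 : ℝ))) ∈ Q :=
      hQ h0 h3 (by linarith) (by linarith) (by ring)
    have h5 : (1 - (u + v) / 2) • ((0 : ℝ), (0 : ℝ)) + ((u + v) / 2) •
        ((u / (u + v)) • ((2 : ℝ), (0 : ℝ)) + (v / (u + v)) • ((0 : ℝ), (2 : ℝ))) = (u, v) := by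
      ext
      · simp
        field_simp
      · simp
        field_simp
    rw [h5] at h4
    exact h4

/-- the basic exclusion -/
private theorem p_Dlarge_star (Q : Set (ℝ × ℝ)) (p : ℕ) (a b : ℤ) (X Y L : ℝ) (hQ : Convex ℝ Q)
    (hD : Dl Q) (hXY : (X, Y) ∈ Q) (hL : 0 < L) (hdiam : Diam Q p a b X Y L) (hp : 0 < p)
    (h : ℕ) (h0 : 0 < h) (hhp : h < p) (h3 : 3 * ((p : ℝ) / L) ≤ h) (r s : ℤ)
    (hr : (p : ℤ) ∣ r - h * a) (hs : (p : ℤ) ∣ s - h * b)
    (h1 : 2 * ((p : ℝ) / L) ≤ r) (h2 : 2 * ((p : ℝ) / L) ≤ s)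
    (h4 : 2 * ((p : ℝ) / L) ≤ 2 * h - r - s) : False := by
  obtain ⟨hX0, hY0, hXY2⟩ := hD.2.2.2 _ hXY
  change 0 ≤ X at hX0
  change 0 ≤ Y at hY0
  change X + Y ≤ 2 at hXY2
  have hpR : (0 : ℝ) < p := by exact_mod_cast hp
  set t : ℝ := p / L with ht
  have ht0 : 0 < t := by positivity
  have hlam : 0 < (h : ℝ) - t := by linarith
  have hq : (((r : ℝ) - t * X) / (h - t), ((s : ℝ) - t * Y) / (h - t)) ∈ Q := by
    apply p_Dlarge_tri Q hQ hD
    · apply div_nonneg _ hlam.le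
      nlinarith
    · apply div_nonneg _ hlam.le
      nlinarith
    · rw [← add_div, div_le_iff₀ hlam]
      have : 0 ≤ t * (X + Y) := by positivity
      nlinarith
  refine hdiam h h0 hhp (by linarith) _ hq r s ?_ ?_ hr hs
  · change (r : ℝ) = t * X + (h - t) * (((r : ℝ) - t * X) / (h - t))
    field_simp
    ring
  · change (s : ℝ) = t * Y + (h - t) * (((s : ℝ) - t * Y) / (h - t))
    field_simp
    ring

/-- the choice of the multiplier -/
private theorem p_Dlarge_i (η : ℝ) (hη : 1 < η) (u : ℤ) (hu : 1 ≤ u) (huη : (u : ℝ) < η) :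
    ∃ i : ℕ, 1 ≤ i ∧ η ≤ i * u ∧ (i : ℝ) * u < 2 * η ∧ (i : ℝ) < 2 * η := by
  have huR : (1 : ℝ) ≤ u := by exact_mod_cast hu
  have hu0 : (0 : ℝ) < u := by linarith
  refine ⟨⌈η / u⌉₊, ?_, ?_, ?_, ?_⟩
  · exact Nat.ceil_pos.2 (by positivity)
  · have := Nat.le_ceil (η / u)
    rwa [div_le_iff₀ hu0] at this
  · have h1 := Nat.ceil_lt_add_one (a := η / u) (by positivity)
    have h2 : (⌈η / u⌉₊ : ℝ) * u < (η / u + 1) * u := mul_lt_mul_of_pos_right h1 hu0
    have h3 : (η / u + 1) * u = η + u := by field_simp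
    linarith
  · have h1 := Nat.ceil_lt_add_one (a := η / u) (by positivity)
    have h2 : η / u ≤ η := div_le_self (by linarith) huR
    linarith

theorem p_Dlarge (h_res : S_res) : S_Dlarge := by
  intro Q p a b X Y L hQ hD hXY hp hL hpL hdiam
  have hpR : (7 : ℝ) ≤ p := by exact_mod_cast hp
  have hL0 : 0 < L := by linarith
  set t : ℝ := p / L with ht
  have ht0 : 0 < t := by positivity
  have ht1 : 1000 * t ≤ p := by
    rw [ht, mul_div_assoc', div_le_iff₀ hL0]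
    nlinarith
  have ht2 : 1 < 2 * t := by
    rw [ht, mul_div_assoc', lt_div_iff₀ hL0]; linarith
  obtain ⟨A, hA1, hA2, hA3⟩ := h_res p (by omega) (-a) (2 * t)
  obtain ⟨B, hB1, hB2, hB3⟩ := h_res p (by omega) (-b) (2 * t)
  have hstar := p_Dlarge_star Q p a b X Y L hQ hD hXY hL0 hdiam (by omega)
  have hk0 : 2 * ((p : ℝ) - 1) - A - B < 2 * t := by
    by_contra hc
    push Not at hc
    have hh : ((p - 1 : ℕ) : ℝ) = p - 1 := by
      rw [Nat.cast_sub (by omega)]; simp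
    have hhZ : ((p - 1 : ℕ) : ℤ) = p - 1 := by
      rw [Nat.cast_sub (by omega)]; simp
    refine hstar (p - 1) (by omega) (by omega) (by rw [hh]; linarith) A B ?_ ?_ hA2 hB2
      (by rw [hh]; linarith)
    · rw [hhZ]
      obtain ⟨c, hc⟩ := hA1
      exact ⟨c - a, by linear_combination hc⟩
    · rw [hhZ]
      obtain ⟨c, hc⟩ := hB1
      exact ⟨c - b, by linear_combination hc⟩
  obtain ⟨m, hm⟩ : ∃ m : ℤ, m = p - A := ⟨_, rfl⟩
  obtain ⟨n, hn⟩ : ∃ n : ℤ, n = p - B := ⟨_, rfl⟩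
  obtain ⟨k, hk⟩ : ∃ k : ℤ, k = 2 - m - n := ⟨_, rfl⟩
  have hmR : (m : ℝ) = p - A := by rw [hm]; push_cast; ring
  have hnR : (n : ℝ) = p - B := by rw [hn]; push_cast; ring
  have hkR : (k : ℝ) = 2 - m - n := by rw [hk]; push_cast; ring
  have hm1 : -(2 * t) < m := by rw [hmR]; linarith
  have hn1 : -(2 * t) < n := by rw [hnR]; linarith
  have hk1 : -(2 * t) < k := by rw [hkR, hmR, hnR]; linarith
  have hma : (p : ℤ) ∣ a - m := by
    obtain ⟨c, hc⟩ := hA1
    exact ⟨c - 1, by rw [hm]; linear_combination hc⟩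
  have hnb : (p : ℤ) ∣ b - n := by
    obtain ⟨c, hc⟩ := hB1
    exact ⟨c - 1, by rw [hn]; linear_combination hc⟩
  by_cases hall : 0 ≤ m ∧ 0 ≤ n ∧ 0 ≤ k
  · exact ⟨m, n, hall.1, hall.2.1, by omega, hma, hnb⟩
  exfalso
  -- the smallest of the three
  have hmin : ∃ u : ℤ, 1 ≤ u ∧ -u ≤ m ∧ -u ≤ n ∧ -u ≤ k ∧ (m = -u ∨ n = -u ∨ k = -u) := by
    refine ⟨-(min m (min n k)), ?_, ?_, ?_, ?_, ?_⟩ <;> omega
  obtain ⟨u, hu1, hum, hun, huk, hcase⟩ := hmin
  have huR : (u : ℝ) < 2 * t := by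
    rcases hcase with h | h | h
    · rw [h] at hm1; push_cast at hm1; linarith
    · rw [h] at hn1; push_cast at hn1; linarith
    · rw [h] at hk1; push_cast at hk1; linarith
  obtain ⟨i, hi1, hi2, hi3, hi4⟩ := p_Dlarge_i (2 * t) ht2 u hu1 huR
  have hiR : (1 : ℝ) ≤ i := by exact_mod_cast hi1
  have hip : i < p := by
    have : (i : ℝ) < p := by linarith
    exact_mod_cast this
  have hh : ((p - i : ℕ) : ℝ) = p - i := by
    rw [Nat.cast_sub hip.le]
  have hhZ : ((p - i : ℕ) : ℤ) = p - i := by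
    rw [Nat.cast_sub hip.le]
  have hu1R : (1 : ℝ) ≤ u := by exact_mod_cast hu1
  -- bounds for the others
  have hbd : ∀ x : ℤ, x ≤ 2 + 2 * u → (i : ℝ) * x ≤ 16 * t := by
    intro x hx
    have hxR : (x : ℝ) ≤ 4 * u := by
      have : (x : ℝ) ≤ 2 + 2 * u := by exact_mod_cast hx
      linarith
    have : (i : ℝ) * x ≤ i * (4 * u) := mul_le_mul_of_nonneg_left hxR (by linarith)
    nlinarith
  have hst2 := hstar (p - i) (by omega) (by omega) (by rw [hh]; linarith)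
  rw [hh, hhZ] at hst2
  obtain ⟨ca, hca⟩ := hma
  obtain ⟨cb, hcb⟩ := hnb
  have em : (p : ℤ) ∣ (-i * m) - (p - i) * a := ⟨i * ca - a, by linear_combination i * hca⟩
  have em' : (p : ℤ) ∣ (p - i * m) - (p - i) * a := ⟨i * ca - a + 1, by linear_combination i * hca⟩
  have en : (p : ℤ) ∣ (-i * n) - (p - i) * b := ⟨i * cb - b, by linear_combination i * hcb⟩
  have en' : (p : ℤ) ∣ (p - i * n) - (p - i) * b := ⟨i * cb - b + 1, by linear_combination i * hcb⟩
  have hbm := hbd m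
  have hbn := hbd n
  have hbk := hbd k
  rcases hcase with h | h | h
  · have h1 := hbn (by omega)
    have h2 := hbk (by omega)
    have h5 : (m : ℝ) = -u := by rw [h]; push_cast; ring
    rw [hkR] at h2
    refine hst2 (-i * m) (p - i * n) em en' ?_ ?_ ?_
    · push_cast; rw [h5]; linarith
    · push_cast; linarith
    · push_cast
      have h6 : 2 * ((p : ℝ) - i) - -(i : ℝ) * m - (p - i * n) = p - i * (2 - m - n) := by ring
      rw [h6]; linarith
  · have h1 := hbm (by omega)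
    have h2 := hbk (by omega)
    have h5 : (n : ℝ) = -u := by rw [h]; push_cast; ring
    rw [hkR] at h2
    refine hst2 (p - i * m) (-i * n) em' en ?_ ?_ ?_
    · push_cast; linarith
    · push_cast; rw [h5]; linarith
    · push_cast
      have h6 : 2 * ((p : ℝ) - i) - (p - i * m) - -(i : ℝ) * n = p - i * (2 - m - n) := by ring
      rw [h6]; linarith
  · have h1 := hbm (by omega)
    have h2 := hbn (by omega)
    have h5 : (k : ℝ) = -u := by rw [h]; push_cast; ring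
    refine hst2 (p - i * m) (p - i * n) em' en' ?_ ?_ ?_
    · push_cast; linarith
    · push_cast; linarith
    · push_cast
      have h6 : 2 * ((p : ℝ) - i) - (p - i * m) - (p - i * n) = -(i * (2 - m - n)) := by ring
      rw [h6, ← hkR, h5]; linarith

end Pool.Agent.Lib.MP_0bc52e_nt.LC
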