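import Pool.Agent.Lib.MP_0bc52e_nt.LC.StmB

/-! [Dvert] `o` is not below a vertex. -/

namespace Pool.Agent.Lib.MP_0bc52e_nt.LC

private theorem p_Dvert_six {P : Set (ℝ × ℝ × ℝ)} (hD : Dl (proj P)) {x y z : ℤ}
    (h : ip (x, y, z) ∈ P) : 0 ≤ x ∧ 0 ≤ y ∧ x + y ≤ 2 := by
  obtain ⟨h1, h2, h3⟩ := hD.2.2.2 ((x : ℝ), (y : ℝ)) ⟨ip (x, y, z), h, rfl⟩
  simp only at h1 h2 h3
  refine ⟨by exact_mod_cast h1, by exact_mod_cast h2, ?_⟩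
  have h4 : ((x + y : ℤ) : ℝ) ≤ ((2 : ℤ) : ℝ) := by push_cast; exact h3
  exact_mod_cast h4

private theorem p_Dvert_gen (h_pair : S_pair) (h_only : S_only) (h_edge2 : S_edge2)
    {P : Set (ℝ × ℝ × ℝ)} {p : ℕ} {a b c : ℤ} (A₁ A₂ E₁ E₂ G₁ G₂ : ℤ) (hP : Convex ℝ P)
    (hpc : PC3 P) (hp : 7 ≤ p) (hc : Crit3 P p a b c)
    (hA : ∃ z : ℤ, ip (A₁, A₂, z) ∈ P)
    (hB : ∃ z : ℤ, ip (2 * E₁ - A₁, 2 * E₂ - A₂, z) ∈ P)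
    (hC : ∃ z : ℤ, ip (2 * G₁ - A₁, 2 * G₂ - A₂, z) ∈ P)
    (hE : ∀ x y z : ℤ, ip (x, y, z) ∈ P → (2 : ℤ) ∣ x - E₁ → (2 : ℤ) ∣ y - E₂ → x = E₁ ∧ y = E₂)
    (hG : ∀ x y z : ℤ, ip (x, y, z) ∈ P → (2 : ℤ) ∣ x - G₁ → (2 : ℤ) ∣ y - G₂ → x = G₁ ∧ y = G₂)
    (hV : ∀ x y z : ℤ, ip (x, y, z) ∈ P → (2 : ℤ) ∣ x → (2 : ℤ) ∣ y →
      (x = A₁ ∧ y = A₂) ∨ (x = 2 * E₁ - A₁ ∧ y = 2 * E₂ - A₂) ∨
        (x = 2 * G₁ - A₁ ∧ y = 2 * G₂ - A₂))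
    (ha : (p : ℤ) ∣ a - A₁) (hb : (p : ℤ) ∣ b - A₂) : False := by
  obtain ⟨α, hα⟩ := hA
  obtain ⟨β, hβ⟩ := hB
  obtain ⟨γ, hγ⟩ := hC
  have hcol : ∀ E₁ E₂ : ℤ, (∀ x y z : ℤ, ip (x, y, z) ∈ P → (2 : ℤ) ∣ x - E₁ →
      (2 : ℤ) ∣ y - E₂ → x = E₁ ∧ y = E₂) →
      ∃ e : ℤ, ip (E₁, E₂, e) ∈ P ∧ ip (E₁, E₂, e + 1) ∈ P := by
    intro E₁ E₂ hE
    obtain ⟨x, y, z, h1, h2, h3, h4⟩ := hpc E₁ E₂ 0
    obtain ⟨x', y', z', h1', h2', h3', h4'⟩ := hpc E₁ E₂ 1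
    obtain ⟨rfl, rfl⟩ := hE x y z h1 h2 h3
    obtain ⟨rfl, rfl⟩ := hE x' y' z' h1' h2' h3'
    exact h_pair P _ _ z z' hP h1 h1' (by omega)
  obtain ⟨e, he, he1⟩ := hcol E₁ E₂ hE
  obtain ⟨g, hg, hg1⟩ := hcol G₁ G₂ hG
  obtain ⟨oE, oB⟩ := h_only P p a b c A₁ A₂ E₁ E₂ e β hP (by omega) hc ha hb he he1 hβ
  obtain ⟨oG, oC⟩ := h_only P p a b c A₁ A₂ G₁ G₂ g γ hP (by omega) hc ha hb hg hg1 hγ
  have kB : ∀ α : ℤ, ip (A₁, A₂, α) ∈ P → (2 : ℤ) ∣ α - β := fun α h =>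
    h_edge2 P p a b c A₁ A₂ E₁ E₂ e α β hP (by omega) hc ha hb he he1 oE h hβ
  have kC : ∀ α : ℤ, ip (A₁, A₂, α) ∈ P → (2 : ℤ) ∣ α - γ := fun α h =>
    h_edge2 P p a b c A₁ A₂ G₁ G₂ g α γ hP (by omega) hc ha hb hg hg1 oG h hγ
  have k1 := kB α hα
  have k2 := kC α hα
  obtain ⟨x, y, z, h1, h2, h3, h4⟩ := hpc 0 0 (α + 1)
  rw [sub_zero] at h2 h3
  rcases hV x y z h1 h2 h3 with ⟨rfl, rfl⟩ | ⟨rfl, rfl⟩ | ⟨rfl, rfl⟩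
  · have := kB z h1
    omega
  · have := oB z h1
    omega
  · have := oC z h1
    omega

theorem p_Dvert (h_pair : S_pair) (h_only : S_only) (h_edge2 : S_edge2) : S_Dvert := by
  intro P p a b c A₁ A₂ hP hpc hD hp hc h0 h1 h2 hA ha hb
  have six : ∀ x y z : ℤ, ip (x, y, z) ∈ P → 0 ≤ x ∧ 0 ≤ y ∧ x + y ≤ 2 := fun x y z h =>
    p_Dvert_six hD h
  rcases hA with ⟨rfl, rfl⟩ | ⟨rfl, rfl⟩ | ⟨rfl, rfl⟩
  · refine p_Dvert_gen h_pair h_only h_edge2 0 0 1 0 0 1 hP hpc hp hc h0 ?_ ?_ ?_ ?_ ?_ ha hb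
    · simpa using h1
    · simpa using h2
    · intro x y z h e1 e2
      have := six x y z h
      omega
    · intro x y z h e1 e2
      have := six x y z h
      omega
    · intro x y z h e1 e2
      have := six x y z h
      omega
  · refine p_Dvert_gen h_pair h_only h_edge2 2 0 1 0 1 1 hP hpc hp hc h1 ?_ ?_ ?_ ?_ ?_ ha hb
    · simpa using h0
    · simpa using h2
    · intro x y z h e1 e2
      have := six x y z h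
      omega
    · intro x y z h e1 e2
      have := six x y z h
      omega
    · intro x y z h e1 e2
      have := six x y z h
      omega
  · refine p_Dvert_gen h_pair h_only h_edge2 0 2 0 1 1 1 hP hpc hp hc h2 ?_ ?_ ?_ ?_ ?_ ha hb
    · simpa using h0
    · simpa using h1
    · intro x y z h e1 e2
      have := six x y z h
      omega
    · intro x y z h e1 e2
      have := six x y z h
      omega
    · intro x y z h e1 e2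
      have := six x y z h
      omega

end Pool.Agent.Lib.MP_0bc52e_nt.LC
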