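import Pool.Agent.Lib.MP_0bc52e_nt.LC.StmC

/-!
Piece `[F1]`: a maximal simplex in a finite set of integer points that affinely spans the space.
-/

namespace Pool.Agent.Lib.MP_0bc52e_nt.LC

/-- The matrix with columns `v j - v₀`. -/
private def p_F1_mat (v₀ : Fin 3 → ℤ) (v : Fin 3 → Fin 3 → ℤ) : Matrix (Fin 3) (Fin 3) ℤ :=
  Matrix.of fun i j => v j i - v₀ i

private lemma p_F1_exists (V : Finset (Fin 3 → ℤ)) (v₀ : Fin 3 → ℤ) (hv₀ : v₀ ∈ V)
    (hV : affineSpan ℝ ((fun v : Fin 3 → ℤ => (fun i => (v i : ℝ))) '' (V : Set (Fin 3 → ℤ))) = ⊤) :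
    ∃ v : Fin 3 → Fin 3 → ℤ, (∀ j, v j ∈ V) ∧ (p_F1_mat v₀ v).det ≠ 0 := by
  classical
  set c : (Fin 3 → ℤ) → (Fin 3 → ℝ) := fun v i => (v i : ℝ) with hc
  have hmem : c v₀ ∈ c '' (V : Set (Fin 3 → ℤ)) := ⟨v₀, hv₀, rfl⟩
  have h1 : vectorSpan ℝ (c '' (V : Set (Fin 3 → ℤ))) = ⊤ := by
    rw [← direction_affineSpan, hV, AffineSubspace.direction_top]
  rw [vectorSpan_eq_span_vsub_set_right ℝ hmem] at h1
  obtain ⟨b, hbS, hbspan, hbind⟩ := exists_linearIndependent ℝ
    ((fun x => x -ᵥ c v₀) '' (c '' (V : Set (Fin 3 → ℤ))))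
  rw [h1] at hbspan
  let B : Module.Basis b ℝ (Fin 3 → ℝ) := Module.Basis.mk hbind (by
    rw [Subtype.range_coe, hbspan])
  have hfin : Finite b := Module.Finite.finite_basis B
  have : Fintype b := Fintype.ofFinite b
  have hcard : Fintype.card b = 3 := by
    rw [← Module.finrank_eq_card_basis B]; simp
  let e : b ≃ Fin 3 := Fintype.equivFinOfCardEq hcard
  have hch : ∀ j : Fin 3, ∃ w : Fin 3 → ℤ, w ∈ V ∧ ((e.symm j : b) : Fin 3 → ℝ) = c w - c v₀ := by
    intro j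
    obtain ⟨_, ⟨w, hw, rfl⟩, hw2⟩ := hbS (e.symm j).2
    exact ⟨w, hw, hw2.symm⟩
  choose v hvV hv using hch
  refine ⟨v, hvV, ?_⟩
  have hind : LinearIndependent ℝ (fun j : Fin 3 => ((e.symm j : b) : Fin 3 → ℝ)) :=
    hbind.comp e.symm e.symm.injective
  intro hdet
  have hdetR : ((p_F1_mat v₀ v).map (Int.cast : ℤ → ℝ)).det = 0 := by
    have := Int.cast_det (R := ℝ) (p_F1_mat v₀ v)
    rw [hdet, Int.cast_zero] at this
    exact this.symm
  have hcol : LinearIndependent ℝ ((p_F1_mat v₀ v).map (Int.cast : ℤ → ℝ)).col := by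
    have : ((p_F1_mat v₀ v).map (Int.cast : ℤ → ℝ)).col =
        fun j : Fin 3 => ((e.symm j : b) : Fin 3 → ℝ) := by
      funext j i
      rw [hv j]
      simp [p_F1_mat, Matrix.col, hc]
    rw [this]; exact hind
  rw [Matrix.linearIndependent_cols_iff_isUnit, Matrix.isUnit_iff_isUnit_det, hdetR] at hcol
  simp at hcol

theorem p_F1 : S_F1 := by
  intro V hV
  classical
  have hne : ((fun v : Fin 3 → ℤ => (fun i => (v i : ℝ))) '' (V : Set (Fin 3 → ℤ))).Nonempty := by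
    rw [← affineSpan_nonempty ℝ, hV]; exact ⟨0, trivial⟩
  obtain ⟨_, v₀, hv₀, _⟩ := hne
  have hv₀' : v₀ ∈ V := hv₀
  obtain ⟨v1, hv1V, hv1⟩ := p_F1_exists V v₀ hv₀' hV
  have hv1mem : v1 ∈ Fintype.piFinset (fun _ : Fin 3 => V) := by
    rw [Fintype.mem_piFinset]; exact hv1V
  obtain ⟨v, hv, hmax⟩ := Finset.exists_max_image (Fintype.piFinset (fun _ : Fin 3 => V))
    (fun v => |(p_F1_mat v₀ v).det|) ⟨v1, hv1mem⟩
  rw [Fintype.mem_piFinset] at hv
  refine ⟨v₀, hv₀', p_F1_mat v₀ v, ?_, ?_, ?_⟩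
  · intro h0
    have := hmax v1 hv1mem
    simp only [h0, abs_zero, abs_nonpos_iff] at this
    exact hv1 this
  · intro j
    have : (fun i => v₀ i + p_F1_mat v₀ v i j) = v j := by
      funext i; simp [p_F1_mat]
    rw [this]; exact hv j
  · intro x hx
    refine ⟨(p_F1_mat v₀ v).cramer (fun i => x i - v₀ i), ?_, ?_⟩
    · intro i
      rw [Matrix.cramer_apply]
      have hup : (p_F1_mat v₀ v).updateCol i (fun i => x i - v₀ i) =
          p_F1_mat v₀ (Function.update v i x) := by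
        ext a b
        by_cases hb : b = i
        · subst hb; simp [p_F1_mat]
        · simp [p_F1_mat, hb]
      rw [hup]
      apply hmax
      rw [Fintype.mem_piFinset]
      intro j
      by_cases hj : j = i
      · subst hj; simpa using hx
      · simpa [Function.update_of_ne hj] using hv j
    · intro i
      rw [Matrix.mulVec_cramer]
      simp

end Pool.Agent.Lib.MP_0bc52e_nt.LC
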