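import Pool.Agent.Lib.MP_0bc52e_nt.LC.StmC

/-!
`[F2]`: equal data give equivalent polytopes.
-/

open scoped Pointwise
open MeasureTheory

namespace Pool.Agent.Lib.MP_0bc52e_nt.LC

/-- The affine map `x ↦ v' + (1/D) W' adj(W) (x - v)`. -/
private noncomputable def p_F2_g (W W' : Matrix (Fin 3) (Fin 3) ℤ) (v v' : Fin 3 → ℤ) (D : ℤ) :
    (Fin 3 → ℝ) →ᵃ[ℝ] (Fin 3 → ℝ) where
  toFun x := ((D : ℝ)⁻¹ • ((W'.map (Int.cast : ℤ → ℝ)) * (W.map (Int.cast : ℤ → ℝ)).adjugate)).mulVec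
    (x - fun i => (v i : ℝ)) + fun i => (v' i : ℝ)
  linear := Matrix.toLin' ((D : ℝ)⁻¹ • ((W'.map (Int.cast : ℤ → ℝ)) *
    (W.map (Int.cast : ℤ → ℝ)).adjugate))
  map_vadd' := by
    intro p w
    simp only [vadd_eq_add, Matrix.toLin'_apply, add_sub_assoc, Matrix.mulVec_add, add_assoc]

private lemma p_F2_apply (W W' : Matrix (Fin 3) (Fin 3) ℤ) (v v' : Fin 3 → ℤ) (D : ℤ)
    (x : Fin 3 → ℝ) : p_F2_g W W' v v' D x =
      ((D : ℝ)⁻¹ • ((W'.map (Int.cast : ℤ → ℝ)) * (W.map (Int.cast : ℤ → ℝ)).adjugate)).mulVec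
    (x - fun i => (v i : ℝ)) + fun i => (v' i : ℝ) := rfl

private lemma p_F2_det (W : Matrix (Fin 3) (Fin 3) ℤ) :
    (W.map (Int.cast : ℤ → ℝ)).det = ((W.det : ℤ) : ℝ) := by
  have := (Int.castRingHom ℝ).map_det W
  simpa [RingHom.mapMatrix_apply] using this.symm

private lemma p_F2_mulVec (W : Matrix (Fin 3) (Fin 3) ℤ) (n : Fin 3 → ℤ) :
    (W.map (Int.cast : ℤ → ℝ)).mulVec (fun i => (n i : ℝ)) = fun i => ((W.mulVec n i : ℤ) : ℝ) := by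
  funext i
  simp [Matrix.mulVec, dotProduct]

private lemma p_F2_inv (W W' : Matrix (Fin 3) (Fin 3) ℤ) (v v' : Fin 3 → ℤ) (D : ℤ) (hD : D ≠ 0)
    (hW : W.det = D) (hW' : W'.det = D) (x : Fin 3 → ℝ) :
    p_F2_g W' W v' v D (p_F2_g W W' v v' D x) = x := by
  rw [p_F2_apply, p_F2_apply, add_sub_cancel_right, Matrix.mulVec_mulVec]
  have hD' : (D : ℝ) ≠ 0 := by exact_mod_cast hD
  have h1 : ((D : ℝ)⁻¹ • ((W.map (Int.cast : ℤ → ℝ)) * (W'.map (Int.cast : ℤ → ℝ)).adjugate)) *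
      ((D : ℝ)⁻¹ • ((W'.map (Int.cast : ℤ → ℝ)) * (W.map (Int.cast : ℤ → ℝ)).adjugate)) = 1 := by
    rw [Matrix.smul_mul, Matrix.mul_smul, Matrix.mul_assoc, ← Matrix.mul_assoc
      (W'.map (Int.cast : ℤ → ℝ)).adjugate, Matrix.adjugate_mul, p_F2_det, hW', Matrix.smul_mul,
      Matrix.one_mul, Matrix.mul_smul, Matrix.mul_adjugate, p_F2_det, hW]
    simp [smul_smul, hD']
  rw [h1, Matrix.one_mulVec, sub_add_cancel]

private lemma p_F2_map (W W' : Matrix (Fin 3) (Fin 3) ℤ) (v v' : Fin 3 → ℤ) (D : ℤ) (hD : D ≠ 0)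
    (hW : W.det = D) (y z n : Fin 3 → ℤ)
    (h1 : ∀ i, D * (y i - v i) = W.mulVec n i) (h2 : ∀ i, D * (z i - v' i) = W'.mulVec n i) :
    p_F2_g W W' v v' D (fun i => (y i : ℝ)) = fun i => (z i : ℝ) := by
  have hD' : (D : ℝ) ≠ 0 := by exact_mod_cast hD
  have e1 : ((fun i => (y i : ℝ)) - fun i => (v i : ℝ)) =
      (D : ℝ)⁻¹ • (W.map (Int.cast : ℤ → ℝ)).mulVec (fun i => (n i : ℝ)) := by
    rw [p_F2_mulVec]
    funext i
    simp only [Pi.sub_apply, Pi.smul_apply, smul_eq_mul]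
    rw [← h1 i]
    push_cast
    field_simp
  rw [p_F2_apply, e1, Matrix.mulVec_smul, Matrix.mulVec_mulVec, Matrix.smul_mul, Matrix.mul_assoc,
    Matrix.adjugate_mul, p_F2_det, hW, Matrix.mul_smul, Matrix.mul_one, smul_smul,
    inv_mul_cancel₀ hD', one_smul, p_F2_mulVec]
  funext i
  simp only [Pi.add_apply, Pi.smul_apply, smul_eq_mul]
  rw [← h2 i]
  push_cast
  field_simp
  ring

private lemma p_F2_int (W W' : Matrix (Fin 3) (Fin 3) ℤ) (v v' : Fin 3 → ℤ) (D : ℤ) (hD : D ≠ 0)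
    (hW : W.det = D) 
    (hR : ∀ n : Fin 3 → ℤ, (∀ i, D ∣ W.mulVec n i) → (∀ i, D ∣ W'.mulVec n i)) (y : Fin 3 → ℤ) :
    ∃ z : Fin 3 → ℤ, p_F2_g W W' v v' D (fun i => (y i : ℝ)) = fun i => (z i : ℝ) := by
  have h1 : ∀ i, D * (y i - v i) = W.mulVec (W.adjugate.mulVec (y - v)) i := by
    intro i
    rw [Matrix.mulVec_mulVec, Matrix.mul_adjugate, hW, Matrix.smul_mulVec, Matrix.one_mulVec]
    simp
  have h2 := hR _ (fun i => ⟨_, (h1 i).symm⟩)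
  choose q hq using h2
  refine ⟨fun i => v' i + q i, p_F2_map W W' v v' D hD hW y _ _ h1 (fun i => ?_)⟩
  rw [hq i]
  ring

theorem p_F2 : S_F2 := by
  intro V V' v v' W W' hD hdet hR hV hV' hN
  set D := W.det with hDdef
  have hR1 : ∀ n : Fin 3 → ℤ, (∀ i, D ∣ W.mulVec n i) → (∀ i, D ∣ W'.mulVec n i) :=
    fun n => (hR n).1
  have hR2 : ∀ n : Fin 3 → ℤ, (∀ i, D ∣ W'.mulVec n i) → (∀ i, D ∣ W.mulVec n i) :=
    fun n => (hR n).2
  have hinv := p_F2_inv W W' v v' D hD rfl hdet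
  have hinv' := p_F2_inv W' W v' v D hD hdet rfl
  refine ⟨p_F2_g W W' v v' D, fun x y hxy => ?_, fun x => ⟨?_, ?_⟩, ?_⟩
  · rw [← hinv x, hxy, hinv y]
  · intro h
    choose z hz using h
    obtain ⟨y, hy⟩ := p_F2_int W' W v' v D hD hdet hR2 z
    have e : x = fun i => (y i : ℝ) := by
      rw [← hinv x, ← hy]
      congr 1
      funext i
      exact hz i
    exact fun i => ⟨y i, congrFun e i⟩
  · intro h
    choose y hy using h
    obtain ⟨z, hz⟩ := p_F2_int W W' v v' D hD rfl hR1 y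
    have e : x = fun i => (y i : ℝ) := funext hy
    rw [e, hz]
    exact fun i => ⟨z i, rfl⟩
  · rw [AffineMap.image_convexHull]
    congr 1
    ext x
    constructor
    · rintro ⟨_, ⟨y, hy, rfl⟩, rfl⟩
      obtain ⟨n, hn, hn'⟩ := hV y hy
      obtain ⟨z, hz, hz'⟩ := (hN n hn).1 ⟨y, hy, hn'⟩
      refine ⟨z, hz, ?_⟩
      rw [hdet] at hz'
      exact (p_F2_map W W' v v' D hD rfl y z n hn' hz').symm
    · rintro ⟨z, hz, rfl⟩
      obtain ⟨n, hn, hn'⟩ := hV' z hz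
      rw [hdet] at hn
      obtain ⟨y, hy, hy'⟩ := (hN n hn).2 ⟨z, hz, hn'⟩
      rw [hdet] at hn'
      exact ⟨_, ⟨y, hy, rfl⟩, p_F2_map W W' v v' D hD rfl y z n hy' hn'⟩

end Pool.Agent.Lib.MP_0bc52e_nt.LC
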