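import Pool.Agent.Lib.MP_0bc52e_nt.LC.StmB

namespace Pool.Agent.Lib.MP_0bc52e_nt.LC

private theorem p_N0_half (V : Finset (ℤ × ℤ × ℤ)) (P : Set (ℝ × ℝ × ℝ))
    (hP : P = convexHull ℝ (ip '' (V : Set (ℤ × ℤ × ℤ)))) (A B C : ℝ)
    (h : ∀ w ∈ V, 0 ≤ A * w.1 + B * w.2.1 + C) : ∀ v ∈ P, 0 ≤ A * v.1 + B * v.2.1 + C := by
  have hconv : Convex ℝ {v : ℝ × ℝ × ℝ | 0 ≤ A * v.1 + B * v.2.1 + C} := by
    intro x hx y hy a b ha hb hab
    simp only [Set.mem_ofPred_eq] at hx hy ⊢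
    simp only [Prod.fst_add, Prod.snd_add, Prod.smul_fst, Prod.smul_snd, smul_eq_mul]
    have h1 : A * (a * x.1 + b * y.1) + B * (a * x.2.1 + b * y.2.1) + C =
        a * (A * x.1 + B * x.2.1 + C) + b * (A * y.1 + B * y.2.1 + C) := by
      have : C = (a + b) * C := by rw [hab, one_mul]
      linear_combination this
    rw [h1]
    exact add_nonneg (mul_nonneg ha hx) (mul_nonneg hb hy)
  intro v hv
  have hsub : P ⊆ {v : ℝ × ℝ × ℝ | 0 ≤ A * v.1 + B * v.2.1 + C} := by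
    rw [hP]
    refine convexHull_min ?_ hconv
    rintro _ ⟨w, hw, rfl⟩
    simpa [ip] using h w hw
  exact hsub hv

theorem p_N0 : S_N0 := by
  rintro P ⟨V, hP⟩ hPC hx
  have hVP : ∀ w ∈ V, ip w ∈ P := fun w hw => by
    rw [hP]; exact subset_convexHull ℝ _ ⟨w, hw, rfl⟩
  have hV01 : ∀ w ∈ V, w.1 = 0 ∨ w.1 = 1 := by
    intro w hw
    have h := hx _ (hVP w hw)
    simp only [ip] at h
    have h1 : (0 : ℤ) ≤ w.1 := by exact_mod_cast h.1
    have h2 : w.1 ≤ (1 : ℤ) := by exact_mod_cast h.2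
    omega
  have hint : ∀ x y z : ℤ, ip (x, y, z) ∈ P → x = 0 ∨ x = 1 := by
    intro x y z h
    have h := hx _ h
    simp only [ip] at h
    have h1 : (0 : ℤ) ≤ x := by exact_mod_cast h.1
    have h2 : x ≤ (1 : ℤ) := by exact_mod_cast h.2
    omega
  -- nonempty fibres
  have hne0 : (V.filter (fun w => w.1 = 0)).Nonempty := by
    by_contra hcon
    rw [Finset.not_nonempty_iff_eq_empty, Finset.filter_eq_empty_iff] at hcon
    have h1 := p_N0_half V P hP 1 0 (-1) (fun w hw => by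
      have : w.1 = 1 := by rcases hV01 w hw with h | h
                           · exact absurd h (hcon hw)
                           · exact h
      rw [this]; norm_num)
    obtain ⟨x, y, z, hm, h2, -, -⟩ := hPC 0 0 0
    have h3 := h1 _ hm
    simp only [ip] at h3
    have h4 : (1 : ℤ) ≤ x := by
      have : (1 : ℝ) ≤ x := by linarith
      exact_mod_cast this
    rcases hint x y z hm with h | h <;> omega
  have hne1 : (V.filter (fun w => w.1 = 1)).Nonempty := by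
    by_contra hcon
    rw [Finset.not_nonempty_iff_eq_empty, Finset.filter_eq_empty_iff] at hcon
    have h1 := p_N0_half V P hP (-1) 0 0 (fun w hw => by
      have : w.1 = 0 := by rcases hV01 w hw with h | h
                           · exact h
                           · exact absurd h (hcon hw)
      rw [this]; norm_num)
    obtain ⟨x, y, z, hm, h2, -, -⟩ := hPC 1 0 0
    have h3 := h1 _ hm
    simp only [ip] at h3
    have h4 : x ≤ (0 : ℤ) := by
      have : (x : ℝ) ≤ 0 := by linarith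
      exact_mod_cast this
    rcases hint x y z hm with h | h <;> omega
  obtain ⟨wb0, hwb0, hb0⟩ := Finset.exists_min_image _ (fun w : ℤ × ℤ × ℤ => w.2.1) hne0
  obtain ⟨wc0, hwc0, hc0⟩ := Finset.exists_max_image _ (fun w : ℤ × ℤ × ℤ => w.2.1) hne0
  obtain ⟨wb1, hwb1, hb1⟩ := Finset.exists_min_image _ (fun w : ℤ × ℤ × ℤ => w.2.1) hne1
  obtain ⟨wc1, hwc1, hc1⟩ := Finset.exists_max_image _ (fun w : ℤ × ℤ × ℤ => w.2.1) hne1
  simp only [Finset.mem_filter] at hwb0 hwc0 hwb1 hwc1 hb0 hc0 hb1 hc1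
  obtain ⟨b0, hb0e⟩ : ∃ b0, b0 = wb0.2.1 := ⟨_, rfl⟩
  obtain ⟨c0, hc0e⟩ : ∃ c0, c0 = wc0.2.1 := ⟨_, rfl⟩
  obtain ⟨b1, hb1e⟩ : ∃ b1, b1 = wb1.2.1 := ⟨_, rfl⟩
  obtain ⟨c1, hc1e⟩ : ∃ c1, c1 = wc1.2.1 := ⟨_, rfl⟩
  rw [← hb0e] at hb0
  rw [← hc0e] at hc0
  rw [← hb1e] at hb1
  rw [← hc1e] at hc1
  have hlow : ∀ v ∈ P, (b0 : ℝ) + (b1 - b0) * v.1 ≤ v.2.1 := by
    intro v hv
    have := p_N0_half V P hP (-((b1 : ℝ) - b0)) 1 (-b0) (fun w hw => by
      rcases hV01 w hw with h | h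
      · have h1 : b0 ≤ w.2.1 := hb0 w ⟨hw, h⟩
        have h2 : (b0 : ℝ) ≤ w.2.1 := by exact_mod_cast h1
        rw [h]; push_cast; linarith
      · have h1 : b1 ≤ w.2.1 := hb1 w ⟨hw, h⟩
        have h2 : (b1 : ℝ) ≤ w.2.1 := by exact_mod_cast h1
        rw [h]; push_cast; linarith) v hv
    linarith
  have hupp : ∀ v ∈ P, v.2.1 ≤ (c0 : ℝ) + (c1 - c0) * v.1 := by
    intro v hv
    have := p_N0_half V P hP ((c1 : ℝ) - c0) (-1) c0 (fun w hw => by
      rcases hV01 w hw with h | h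
      · have h1 : w.2.1 ≤ c0 := hc0 w ⟨hw, h⟩
        have h2 : (w.2.1 : ℝ) ≤ c0 := by exact_mod_cast h1
        rw [h]; push_cast; linarith
      · have h1 : w.2.1 ≤ c1 := hc1 w ⟨hw, h⟩
        have h2 : (w.2.1 : ℝ) ≤ c1 := by exact_mod_cast h1
        rw [h]; push_cast; linarith) v hv
    linarith
  have hI0 : ∀ y z : ℤ, ip (0, y, z) ∈ P → b0 ≤ y ∧ y ≤ c0 := by
    intro y z h
    have h1 := hlow _ h
    have h2 := hupp _ h
    simp only [ip, Int.cast_zero, mul_zero, add_zero] at h1 h2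
    exact ⟨by exact_mod_cast h1, by exact_mod_cast h2⟩
  have hI1 : ∀ y z : ℤ, ip (1, y, z) ∈ P → b1 ≤ y ∧ y ≤ c1 := by
    intro y z h
    have h1 := hlow _ h
    have h2 := hupp _ h
    simp only [ip, Int.cast_one, mul_one] at h1 h2
    have h3 : (b1 : ℝ) ≤ y := by linarith
    have h4 : (y : ℝ) ≤ c1 := by linarith
    exact ⟨by exact_mod_cast h3, by exact_mod_cast h4⟩
  have hlt0 : b0 < c0 := by
    obtain ⟨x, y, z, hm, h1, h2, -⟩ := hPC 0 0 0
    obtain ⟨x', y', z', hm', h1', h2', -⟩ := hPC 0 1 0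
    have e : x = 0 := by rcases hint x y z hm with h | h <;> omega
    have e' : x' = 0 := by rcases hint x' y' z' hm' with h | h <;> omega
    subst e; subst e'
    have := hI0 _ _ hm
    have := hI0 _ _ hm'
    omega
  have hlt1 : b1 < c1 := by
    obtain ⟨x, y, z, hm, h1, h2, -⟩ := hPC 1 0 0
    obtain ⟨x', y', z', hm', h1', h2', -⟩ := hPC 1 1 0
    have e : x = 1 := by rcases hint x y z hm with h | h <;> omega
    have e' : x' = 1 := by rcases hint x' y' z' hm' with h | h <;> omega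
    subst e; subst e'
    have := hI1 _ _ hm
    have := hI1 _ _ hm'
    omega
  have m0 : ip (0, b0, wb0.2.2) ∈ P := by
    have := hVP wb0 hwb0.1
    rwa [show wb0 = (0, b0, wb0.2.2) from by rw [hb0e, ← hwb0.2]] at this
  have m1 : ip (0, c0, wc0.2.2) ∈ P := by
    have := hVP wc0 hwc0.1
    rwa [show wc0 = (0, c0, wc0.2.2) from by rw [hc0e, ← hwc0.2]] at this
  have m2 : ip (1, b1, wb1.2.2) ∈ P := by
    have := hVP wb1 hwb1.1
    rwa [show wb1 = (1, b1, wb1.2.2) from by rw [hb1e, ← hwb1.2]] at this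
  have m3 : ip (1, c1, wc1.2.2) ∈ P := by
    have := hVP wc1 hwc1.1
    rwa [show wc1 = (1, c1, wc1.2.2) from by rw [hc1e, ← hwc1.2]] at this
  rcases le_or_gt (c1 - b1) (c0 - b0) with hmn | hmn
  · refine ⟨fun v => (v.1, v.2 - b0 - (b1 - b0) * v.1), ⟨1, 0, -(b1 - b0), 1, 0, -b0, Or.inl (by ring), ?_⟩,
      c0 - b0, c1 - b1, by omega, hmn, ?_, ?_, ?_, ?_, ?_⟩
    · intro v; ext <;> push_cast <;> ring
    · rintro _ ⟨u, hu, rfl⟩
      have a1 := hx u hu
      have a2 := hlow u hu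
      have a3 := hupp u hu
      refine ⟨a1.1, a1.2, ?_, ?_⟩
      · simp only [lift]; linarith
      · simp only [lift]; push_cast; linarith
    · exact ⟨wb0.2.2, _, m0, by simp [lift, ip]⟩
    · exact ⟨wc0.2.2, _, m1, by simp [lift, ip]⟩
    · exact ⟨wb1.2.2, _, m2, by simp [lift, ip]⟩
    · exact ⟨wc1.2.2, _, m3, by simp [lift, ip]⟩
  · refine ⟨fun v => (1 - v.1, v.2 - b0 - (b1 - b0) * v.1), ⟨-1, 0, -(b1 - b0), 1, 1, -b0, Or.inr (by ring), ?_⟩,
      c1 - b1, c0 - b0, by omega, hmn.le, ?_, ?_, ?_, ?_, ?_⟩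
    · intro v; ext <;> push_cast <;> ring
    · rintro _ ⟨u, hu, rfl⟩
      have a1 := hx u hu
      have a2 := hlow u hu
      have a3 := hupp u hu
      refine ⟨?_, ?_, ?_, ?_⟩
      · simp only [lift]; linarith
      · simp only [lift]; linarith
      · simp only [lift]; linarith
      · simp only [lift]; push_cast; linarith
    · exact ⟨wb1.2.2, _, m2, by simp [lift, ip]⟩
    · exact ⟨wc1.2.2, _, m3, by simp [lift, ip]⟩
    · exact ⟨wb0.2.2, _, m0, by simp [lift, ip]⟩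
    · exact ⟨wc0.2.2, _, m1, by simp [lift, ip]⟩

end Pool.Agent.Lib.MP_0bc52e_nt.LC
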