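import Pool.Agent.Lib.MP_0bc52e_nt.LC.StmA
import Pool.Agent.Lib.MP_0bc52e_nt.LC.StmB

/-! Piece [N2]: a trapezoid with top side `n ≥ 2`. -/

namespace Pool.Agent.Lib.MP_0bc52e_nt.LC

private theorem p_N2_star (h_Nx : S_Nx) {Q : Set (ℝ × ℝ)} {p : ℕ} {a b : ℤ} {X Y L : ℝ} {m n : ℤ}
    (hn : 2 ≤ n) (hnm : n ≤ m) (hT : TrapQ Q m n) (hD : Diam Q p a b X Y L) (hL : 0 < L) :
    ∀ h : ℤ, 0 < h → h < p → ∀ r : ℤ, (p : ℤ) ∣ r - h * a → (p : ℝ) / L * X ≤ r →
      (r : ℝ) ≤ h - p / L * (1 - X) → (p : ℝ) / 2 + p / L ≤ h → False := by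
  intro h h0 hp r hr h1 h2 h3
  lift h to ℕ using h0.le with h'
  push_cast at h2 h3
  apply h_Nx Q p a b X Y L m n hT hD hL h' (by omega) (by omega) r hr h1 h2
  have hmn : (0:ℝ) ≤ (m:ℝ) - n := by
    have : (n:ℝ) ≤ m := by exact_mod_cast hnm
    linarith
  have hn2 : (2:ℝ) ≤ n := by exact_mod_cast hn
  have e1 : (r:ℝ) - p / L * X ≤ h' - p / L := by linarith
  have e2 := mul_le_mul_of_nonneg_left e1 hmn
  have e3 : 0 ≤ (h':ℝ) - p / L := by
    have : (0:ℝ) ≤ p := Nat.cast_nonneg p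
    linarith
  have e4 := mul_le_mul_of_nonneg_right hn2 e3
  linarith

theorem p_N2 (h_res : S_res) (h_Nx : S_Nx) : S_N2 := by
  intro Q p a b X Y L m n hn hnm hT hD hp hL hX0 hX1
  have hL0 : 0 < L := by linarith
  have star := p_N2_star h_Nx hn hnm hT hD hL0
  have hpR : (7:ℝ) ≤ p := by exact_mod_cast hp
  have hδ0 : 0 < (p:ℝ) / L := by positivity
  have hδ1 : (p:ℝ) / L ≤ p / 1000 := by gcongr
  obtain ⟨t, ht, ht1, ht2⟩ := h_res p (by omega) (-a) ((p:ℝ) / L * X)
  set δ : ℝ := (p:ℝ) / L with hδ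
  obtain ⟨k, hkt⟩ : ∃ k : ℤ, k = (p:ℤ) - t := ⟨_, rfl⟩
  have hkd : (p:ℤ) ∣ a - k := by
    have h1 := dvd_sub ht (dvd_refl (p:ℤ))
    have h2 : t - -a - (p:ℤ) = a - k := by rw [hkt]; ring
    rwa [h2] at h1
  have hkR : (k:ℝ) = p - t := by rw [hkt]; push_cast; ring
  have hδX : δ * X ≤ δ := by nlinarith
  have hδX0 : 0 ≤ δ * X := by positivity
  have hδX' : δ * (1 - X) ≤ δ := by nlinarith
  rcases lt_trichotomy k 0 with hk | hk | hk
  · -- k ≤ -1
    exfalso
    obtain ⟨u, hu⟩ : ∃ u : ℤ, u = -k := ⟨_, rfl⟩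
    have hu1 : 1 ≤ u := by omega
    have hu1R : (1:ℝ) ≤ u := by exact_mod_cast hu1
    have huR : (u:ℝ) = -k := by rw [hu]; push_cast; ring
    have huδ : (u:ℝ) < δ := by linarith
    have h3u : 3 * u ≤ p := by
      have : (3:ℝ) * u ≤ p := by linarith
      exact_mod_cast this
    obtain ⟨i, hi⟩ : ∃ i : ℤ, i = (p:ℤ) / (3 * u) := ⟨_, rfl⟩
    have hi1 : 1 ≤ i := by
      rw [hi]; exact (Int.le_ediv_iff_mul_le (by omega)).2 (by omega)
    have hi2 : i * (3 * u) ≤ p := by rw [hi]; exact Int.ediv_mul_le _ (by omega)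
    have hi3 : (p:ℤ) < (i + 1) * (3 * u) := by
      rw [hi]; exact Int.lt_ediv_add_one_mul_self _ (by omega)
    have hi1R : (1:ℝ) ≤ i := by exact_mod_cast hi1
    have hi2R : (i:ℝ) * (3 * u) ≤ p := by exact_mod_cast hi2
    have hi3R : (p:ℝ) < (i + 1) * (3 * u) := by exact_mod_cast hi3
    have hiu : (i:ℝ) ≤ i * u := by nlinarith
    have hip : i < p := by
      have : (i:ℝ) < p := by linarith
      exact_mod_cast this
    apply star ((p:ℤ) - i) (by omega) (by omega) (i * u)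
    · have h2 : i * u - ((p:ℤ) - i) * a = i * (a - k) - p * a := by rw [hu]; ring
      rw [h2]
      exact dvd_sub (dvd_mul_of_dvd_right hkd i) (dvd_mul_right _ _)
    · push_cast
      linarith
    · push_cast
      linarith
    · push_cast
      linarith
  · left
    rw [hk, sub_zero] at hkd
    exact hkd
  · rcases eq_or_lt_of_le (show (1:ℤ) ≤ k by omega) with hk1 | hk2
    · right
      rw [← hk1] at hkd
      exact hkd
    · -- k ≥ 2
      exfalso
      have hk2' : 2 ≤ k := by omega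
      have hk2R : (2:ℝ) ≤ k := by exact_mod_cast hk2'
      have hkδ : (k:ℝ) < 1 + δ * (1 - X) := by
        by_contra hc
        push Not at hc
        apply star ((p:ℤ) - 1) (by omega) (by omega) t
        · have h2 : t - ((p:ℤ) - 1) * a = (t - -a) - p * a := by ring
          rw [h2]
          exact dvd_sub ht (dvd_mul_right _ _)
        · exact ht1
        · push_cast
          linarith
        · push_cast
          linarith
      have h2k : 2 * k ≤ p := by
        have : (2:ℝ) * k ≤ p := by linarith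
        exact_mod_cast this
      obtain ⟨i, hi⟩ : ∃ i : ℤ, i = (p:ℤ) / (2 * k) := ⟨_, rfl⟩
      have hi1 : 1 ≤ i := by
        rw [hi]; exact (Int.le_ediv_iff_mul_le (by omega)).2 (by omega)
      have hi2 : i * (2 * k) ≤ p := by rw [hi]; exact Int.ediv_mul_le _ (by omega)
      have hi3 : (p:ℤ) < (i + 1) * (2 * k) := by
        rw [hi]; exact Int.lt_ediv_add_one_mul_self _ (by omega)
      have hi1R : (1:ℝ) ≤ i := by exact_mod_cast hi1
      have hi2R : (i:ℝ) * (2 * k) ≤ p := by exact_mod_cast hi2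
      have hi3R : (p:ℝ) < (i + 1) * (2 * k) := by exact_mod_cast hi3
      have hiu : 2 * (i:ℝ) ≤ i * k := by nlinarith
      have hip : i < p := by
        have : (i:ℝ) < p := by linarith
        exact_mod_cast this
      apply star ((p:ℤ) - i) (by omega) (by omega) (p - i * k)
      · have h2 : (p:ℤ) - i * k - ((p:ℤ) - i) * a = i * (a - k) + p * (1 - a) := by ring
        rw [h2]
        exact dvd_add (dvd_mul_of_dvd_right hkd i) (dvd_mul_right _ _)
      · push_cast
        linarith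
      · push_cast
        linarith
      · push_cast
        linarith

end Pool.Agent.Lib.MP_0bc52e_nt.LC
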