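import Pool.Agent.Lib.MP_0bc52e_nt.LC.StmA
import Pool.Agent.Lib.MP_0bc52e_nt.LC.StmB

namespace Pool.Agent.Lib.MP_0bc52e_nt.LC

theorem p_N4_col (h_pair : S_pair) {P : Set (ℝ × ℝ × ℝ)} (hc : Convex ℝ P) (hpc : PC3 P)
    (ht : Trap P 1 1) (i j : ℤ) (hi0 : 0 ≤ i) (hi1 : i ≤ 1) (hj0 : 0 ≤ j) (hj1 : j ≤ 1) :
    ∃ e : ℤ, ip (i, j, e) ∈ P ∧ ip (i, j, e + 1) ∈ P := by
  have key : ∀ k : ℤ, ∃ z : ℤ, ip (i, j, z) ∈ P ∧ (2 : ℤ) ∣ z - k := by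
    intro k
    obtain ⟨x, y, z, hP, hx, hy, hz⟩ := hpc i j k
    obtain ⟨h1, h2, h3, h4⟩ := ht.1 _ hP
    simp only [ip] at h1 h2 h3 h4
    norm_num at h4
    have g1 : 0 ≤ x := by exact_mod_cast h1
    have g2 : x ≤ 1 := by exact_mod_cast h2
    have g3 : 0 ≤ y := by exact_mod_cast h3
    have g4 : y ≤ 1 := by exact_mod_cast h4
    have e1 : x = i := by omega
    have e2 : y = j := by omega
    subst e1; subst e2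
    exact ⟨z, hP, hz⟩
  obtain ⟨k₁, h1, d1⟩ := key 0
  obtain ⟨k₂, h2, d2⟩ := key 1
  exact h_pair P i j k₁ k₂ hc h1 h2 (by omega)

theorem p_N4_seg {P : Set (ℝ × ℝ × ℝ)} (hc : Convex ℝ P) {i j e : ℤ} (h0 : ip (i, j, e) ∈ P)
    (h1 : ip (i, j, e + 1) ∈ P) {θ : ℝ} (ht0 : 0 ≤ θ) (ht1 : θ ≤ 1) :
    ((i : ℝ), (j : ℝ), (e : ℝ) + θ) ∈ P := by
  have h := hc h0 h1 (a := 1 - θ) (b := θ) (by linarith) ht0 (by ring)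
  have e' : (1 - θ) • ip (i, j, e) + θ • ip (i, j, e + 1) = ((i : ℝ), (j : ℝ), (e : ℝ) + θ) := by
    simp only [ip, Prod.smul_mk, Prod.mk_add_mk, smul_eq_mul]
    refine Prod.ext (by ring) (Prod.ext (by ring) ?_)
    push_cast
    ring
  rw [e'] at h
  exact h

theorem p_N4_comb {P : Set (ℝ × ℝ × ℝ)} (hc : Convex ℝ P) {z₀₀ z₁₀ z₀₁ z₁₁ θ : ℝ}
    (h00 : ((0 : ℝ), (0 : ℝ), z₀₀ + θ) ∈ P) (h10 : ((1 : ℝ), (0 : ℝ), z₁₀ + θ) ∈ P)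
    (h01 : ((0 : ℝ), (1 : ℝ), z₀₁ + θ) ∈ P) (h11 : ((1 : ℝ), (1 : ℝ), z₁₁ + θ) ∈ P)
    {a b c d : ℝ} (ha : 0 ≤ a) (hb : 0 ≤ b) (hc' : 0 ≤ c) (hd : 0 ≤ d) (hs : a + b + c + d = 1) :
    (b + d, c + d, a * z₀₀ + b * z₁₀ + c * z₀₁ + d * z₁₁ + θ) ∈ P := by
  have h := hc.sum_mem (t := (Finset.univ : Finset (Fin 4))) (w := ![a, b, c, d])
    (z := ![((0 : ℝ), (0 : ℝ), z₀₀ + θ), ((1 : ℝ), (0 : ℝ), z₁₀ + θ), ((0 : ℝ), (1 : ℝ), z₀₁ + θ),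
      ((1 : ℝ), (1 : ℝ), z₁₁ + θ)]) (by
        intro i _
        fin_cases i <;> simp [ha, hb, hc', hd]) (by
        rw [Fin.sum_univ_four]; simpa using hs) (by
        intro i _
        fin_cases i <;> simp [h00, h10, h01, h11])
  rw [Fin.sum_univ_four] at h
  have e : (![a, b, c, d] 0) • (![((0 : ℝ), (0 : ℝ), z₀₀ + θ), ((1 : ℝ), (0 : ℝ), z₁₀ + θ),
      ((0 : ℝ), (1 : ℝ), z₀₁ + θ), ((1 : ℝ), (1 : ℝ), z₁₁ + θ)] 0) +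
      (![a, b, c, d] 1) • (![((0 : ℝ), (0 : ℝ), z₀₀ + θ), ((1 : ℝ), (0 : ℝ), z₁₀ + θ),
      ((0 : ℝ), (1 : ℝ), z₀₁ + θ), ((1 : ℝ), (1 : ℝ), z₁₁ + θ)] 1) +
      (![a, b, c, d] 2) • (![((0 : ℝ), (0 : ℝ), z₀₀ + θ), ((1 : ℝ), (0 : ℝ), z₁₀ + θ),
      ((0 : ℝ), (1 : ℝ), z₀₁ + θ), ((1 : ℝ), (1 : ℝ), z₁₁ + θ)] 2) +
      (![a, b, c, d] 3) • (![((0 : ℝ), (0 : ℝ), z₀₀ + θ), ((1 : ℝ), (0 : ℝ), z₁₀ + θ),
      ((0 : ℝ), (1 : ℝ), z₀₁ + θ), ((1 : ℝ), (1 : ℝ), z₁₁ + θ)] 3) =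
      (b + d, c + d, a * z₀₀ + b * z₁₀ + c * z₀₁ + d * z₁₁ + θ) := by
    simp only [Matrix.cons_val_zero, Matrix.cons_val_one, Matrix.cons_val, Prod.smul_mk,
      Prod.mk_add_mk, smul_eq_mul]
    refine Prod.ext (by ring) (Prod.ext (by ring) ?_)
    have : θ = (a + b + c + d) * θ := by rw [hs, one_mul]
    calc a * (z₀₀ + θ) + b * (z₁₀ + θ) + c * (z₀₁ + θ) + d * (z₁₁ + θ) =
        a * z₀₀ + b * z₁₀ + c * z₀₁ + d * z₁₁ + (a + b + c + d) * θ := by ring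
      _ = a * z₀₀ + b * z₁₀ + c * z₀₁ + d * z₁₁ + θ := by rw [hs, one_mul]
  rw [e] at h
  exact h

theorem p_N4 (h_res : S_res) (h_pair : S_pair) : S_N4 := by
  intro P p a b c hc hpc ht hp hcrit
  obtain ⟨e₀₀, u1, v1⟩ := p_N4_col h_pair hc hpc ht 0 0 (by norm_num) (by norm_num) (by norm_num)
    (by norm_num)
  obtain ⟨e₁₀, u2, v2⟩ := p_N4_col h_pair hc hpc ht 1 0 (by norm_num) (by norm_num) (by norm_num)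
    (by norm_num)
  obtain ⟨e₀₁, u3, v3⟩ := p_N4_col h_pair hc hpc ht 0 1 (by norm_num) (by norm_num) (by norm_num)
    (by norm_num)
  obtain ⟨e₁₁, u4, v4⟩ := p_N4_col h_pair hc hpc ht 1 1 (by norm_num) (by norm_num) (by norm_num)
    (by norm_num)
  obtain ⟨h, rfl⟩ : ∃ h : ℕ, p = h + 1 := ⟨p - 1, by omega⟩
  have hh : 0 < h := by omega
  have hhR : (0 : ℝ) < h := by exact_mod_cast hh
  have resid : ∀ t : ℤ, ∃ r : ℤ, ((h + 1 : ℕ) : ℤ) ∣ r - t ∧ 0 ≤ r ∧ r ≤ h := by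
    intro t
    obtain ⟨r, h1, h2, h3⟩ := h_res (h + 1) (by omega) t 0
    have h2' : (0 : ℤ) ≤ r := by exact_mod_cast h2
    have h3' : r < ((h + 1 : ℕ) : ℤ) := by
      have : (r : ℝ) < ((h + 1 : ℕ) : ℝ) := by simpa using h3
      exact_mod_cast this
    refine ⟨r, h1, h2', ?_⟩
    push_cast at h3'
    omega
  obtain ⟨r, hr, hr0, hr1⟩ := resid (h * a)
  obtain ⟨s, hs, hs0, hs1⟩ := resid (h * b)
  -- the weights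
  obtain ⟨n₀₀, n₁₀, n₀₁, n₁₁, k00, k10, k01, k11, ksum, kr, ks⟩ :
      ∃ n₀₀ n₁₀ n₀₁ n₁₁ : ℤ, 0 ≤ n₀₀ ∧ 0 ≤ n₁₀ ∧ 0 ≤ n₀₁ ∧ 0 ≤ n₁₁ ∧
        n₀₀ + n₁₀ + n₀₁ + n₁₁ = h ∧ n₁₀ + n₁₁ = r ∧ n₀₁ + n₁₁ = s := by
    rcases le_total r s with h1 | h1
    · exact ⟨h - s, 0, s - r, r, by omega, by omega, by omega, by omega, by omega, by omega,
        by omega⟩
    · exact ⟨h - r, r - s, 0, s, by omega, by omega, by omega, by omega, by omega, by omega,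
        by omega⟩
  obtain ⟨t, htt, ht0, ht1⟩ :=
    resid (h * c - (n₀₀ * e₀₀ + n₁₀ * e₁₀ + n₀₁ * e₀₁ + n₁₁ * e₁₁))
  have ht0R : (0 : ℝ) ≤ t := by exact_mod_cast ht0
  have ht1R : (t : ℝ) ≤ h := by exact_mod_cast ht1
  have hθ0 : 0 ≤ (t : ℝ) / h := by positivity
  have hθ1 : (t : ℝ) / h ≤ 1 := by rw [div_le_one hhR]; exact ht1R
  have q1 := p_N4_seg hc u1 v1 hθ0 hθ1
  have q2 := p_N4_seg hc u2 v2 hθ0 hθ1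
  have q3 := p_N4_seg hc u3 v3 hθ0 hθ1
  have q4 := p_N4_seg hc u4 v4 hθ0 hθ1
  have ksumR : (n₀₀ : ℝ) + n₁₀ + n₀₁ + n₁₁ = h := by exact_mod_cast ksum
  have krR : (n₁₀ : ℝ) + n₁₁ = r := by exact_mod_cast kr
  have ksR : (n₀₁ : ℝ) + n₁₁ = s := by exact_mod_cast ks
  have k00R : (0 : ℝ) ≤ n₀₀ := by exact_mod_cast k00
  have k10R : (0 : ℝ) ≤ n₁₀ := by exact_mod_cast k10
  have k01R : (0 : ℝ) ≤ n₀₁ := by exact_mod_cast k01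
  have k11R : (0 : ℝ) ≤ n₁₁ := by exact_mod_cast k11
  have hmem := p_N4_comb hc (z₀₀ := e₀₀) (z₁₀ := e₁₀) (z₀₁ := e₀₁) (z₁₁ := e₁₁)
    (θ := (t : ℝ) / h) (by simpa using q1) (by simpa using q2) (by simpa using q3)
    (by simpa using q4) (a := (n₀₀ : ℝ) / h) (b := (n₁₀ : ℝ) / h) (c := (n₀₁ : ℝ) / h)
    (d := (n₁₁ : ℝ) / h) (by positivity) (by positivity) (by positivity) (by positivity)
    (by rw [← add_div, ← add_div, ← add_div, ksumR, div_self hhR.ne'])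
  refine hcrit h hh (by omega) r s
    (n₀₀ * e₀₀ + n₁₀ * e₁₀ + n₀₁ * e₀₁ + n₁₁ * e₁₁ + t) _ _ _ hmem ?_ ?_ ?_ hr hs ?_
  · rw [← krR]; field_simp
  · rw [← ksR]; field_simp
  · push_cast; field_simp
  · have e : n₀₀ * e₀₀ + n₁₀ * e₁₀ + n₀₁ * e₀₁ + n₁₁ * e₁₁ + t - h * c =
        t - (h * c - (n₀₀ * e₀₀ + n₁₀ * e₁₀ + n₀₁ * e₀₁ + n₁₁ * e₁₁)) := by ring
    rw [e]; exact htt

end Pool.Agent.Lib.MP_0bc52e_nt.LC
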