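import Pool.Agent.Lib.MP_0bc52e_nt.LC.StmB

namespace Pool.Agent.Lib.MP_0bc52e_nt.LC

/-- The statement (*) of the proof. -/
theorem p_N6_star {Q : Set (ℝ × ℝ)} {p : ℕ} {a b : ℤ} {X Y L : ℝ} (hT : TrapQ Q 2 1)
    (hD : Diam Q p a b X Y L) (hp : 7 ≤ p) (hL : 1000 ≤ L) (hX0 : 0 ≤ X) (hX1 : X ≤ 1)
    (hY0 : 0 ≤ Y) (hY1 : Y ≤ 2 - X) (ha : (p : ℤ) ∣ a - 2) (i : ℕ) (hi0 : 0 < i)
    (hi1 : (p : ℝ) / L ≤ i) (hi2 : 2 * (i : ℝ) ≤ p - p / L) (s : ℤ) (hs : (p : ℤ) ∣ s + i * b)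
    (hs1 : 2 * ((p : ℝ) / L) ≤ s) (hs2 : (s : ℝ) ≤ p - 2 * ((p : ℝ) / L)) : False := by
  have hpR : (7 : ℝ) ≤ (p : ℝ) := by exact_mod_cast hp
  set δ : ℝ := (p : ℝ) / L with hδ
  have hLpos : (0 : ℝ) < L := by linarith
  have hδpos : 0 < δ := by
    rw [hδ]
    exact div_pos (by linarith) hLpos
  have hδp : δ * L = p := by
    rw [hδ]
    exact div_mul_cancel₀ _ hLpos.ne'
  have hδle : δ * 1000 ≤ p := by
    rw [← hδp]
    exact mul_le_mul_of_nonneg_left hL hδpos.le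
  have hip : i < p := by
    have h1 : (i : ℝ) < p := by nlinarith
    exact_mod_cast h1
  have hcast : (((p - i : ℕ)) : ℝ) = (p : ℝ) - i := by
    rw [Nat.cast_sub hip.le]
  have hcastZ : (((p - i : ℕ)) : ℤ) = (p : ℤ) - i := by
    rw [Nat.cast_sub hip.le]
  have hlam : 0 < ((p : ℝ) - i) - δ := by linarith
  have hδX0 : 0 ≤ δ * X := mul_nonneg hδpos.le hX0
  have hδX1 : δ * X ≤ δ := by nlinarith
  have hδY0 : 0 ≤ δ * Y := mul_nonneg hδpos.le hY0
  have hδY1 : δ * Y ≤ 2 * δ - δ * X := by nlinarith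
  have hx0 : 0 ≤ (((p : ℝ) - 2 * i) - δ * X) / (((p : ℝ) - i) - δ) := by
    apply div_nonneg _ hlam.le
    linarith
  have hx1 : (((p : ℝ) - 2 * i) - δ * X) / (((p : ℝ) - i) - δ) ≤ 1 := by
    rw [div_le_one hlam]
    linarith
  have hy0 : 0 ≤ ((s : ℝ) - δ * Y) / (((p : ℝ) - i) - δ) := by
    apply div_nonneg _ hlam.le
    linarith
  have hy1 : ((s : ℝ) - δ * Y) / (((p : ℝ) - i) - δ) ≤
      2 - (((p : ℝ) - 2 * i) - δ * X) / (((p : ℝ) - i) - δ) := by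
    rw [le_sub_iff_add_le, ← add_div, div_le_iff₀ hlam]
    linarith
  have hq := hT _ _ hx0 hx1 hy0 (by push_cast; linarith)
  refine hD (p - i) (by omega) (by omega) ?_ _ hq ((p : ℤ) - 2 * i) s ?_ ?_ ?_ ?_
  · rw [hcast]
    linarith
  · change ((((p : ℤ) - 2 * i : ℤ)) : ℝ) = δ * X + (((p - i : ℕ) : ℝ) - δ) *
      ((((p : ℝ) - 2 * i) - δ * X) / (((p : ℝ) - i) - δ))
    rw [hcast, mul_comm (((p : ℝ) - i) - δ), div_mul_cancel₀ _ hlam.ne']
    push_cast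
    ring
  · change (s : ℝ) = δ * Y + (((p - i : ℕ) : ℝ) - δ) *
      (((s : ℝ) - δ * Y) / (((p : ℝ) - i) - δ))
    rw [hcast, mul_comm (((p : ℝ) - i) - δ), div_mul_cancel₀ _ hlam.ne']
    ring
  · rw [hcastZ]
    obtain ⟨c, hc⟩ := ha
    refine ⟨1 - a + i * c, ?_⟩
    linear_combination (i : ℤ) * hc
  · rw [hcastZ]
    obtain ⟨c, hc⟩ := hs
    refine ⟨c - b, ?_⟩
    linear_combination hc

theorem p_N6 : S_N6 := by
  intro Q p a b X Y L hT hD hp hL hX0 hX1 hY0 hY1 ha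
  have hpR : (7 : ℝ) ≤ (p : ℝ) := by exact_mod_cast hp
  have hpZ : (0 : ℤ) < (p : ℤ) := by omega
  have star := p_N6_star hT hD hp hL hX0 hX1 hY0 hY1 ha
  set δ : ℝ := (p : ℝ) / L with hδ
  have hLpos : (0 : ℝ) < L := by linarith
  have hδpos : 0 < δ := by
    rw [hδ]
    exact div_pos (by linarith) hLpos
  have hδp : δ * L = p := by
    rw [hδ]
    exact div_mul_cancel₀ _ hLpos.ne'
  have hδle : δ * 1000 ≤ p := by
    rw [← hδp]
    exact mul_le_mul_of_nonneg_left hL hδpos.le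
  by_cases hsmall : 2 * δ ≤ 1
  · -- small `p`
    by_contra hb
    have hs0 : 0 ≤ (-b) % (p : ℤ) := Int.emod_nonneg _ hpZ.ne'
    have hs1 : (-b) % (p : ℤ) < p := Int.emod_lt_of_pos _ hpZ
    have hs2 : (-b) % (p : ℤ) ≠ 0 := by
      intro h
      exact hb ((Int.dvd_neg).1 (Int.dvd_of_emod_eq_zero h))
    have hs3 : (1 : ℤ) ≤ (-b) % (p : ℤ) := by omega
    have hs4 : (-b) % (p : ℤ) ≤ (p : ℤ) - 1 := by omega
    have hs3R : (1 : ℝ) ≤ (((-b) % (p : ℤ) : ℤ) : ℝ) := by exact_mod_cast hs3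
    have hs4R : (((-b) % (p : ℤ) : ℤ) : ℝ) ≤ (p : ℝ) - 1 := by exact_mod_cast hs4
    refine star 1 one_pos (by push_cast; linarith) (by push_cast; linarith) ((-b) % (p : ℤ)) ?_
      (by linarith) (by linarith)
    refine ⟨-((-b) / (p : ℤ)), ?_⟩
    have h := Int.mul_ediv_add_emod (-b) (p : ℤ)
    push_cast
    linear_combination h
  · -- large `p`
    push Not at hsmall
    -- the representative `v` of `b`
    obtain ⟨v, hv1, hv2⟩ : ∃ v : ℤ, (p : ℤ) ∣ b - v ∧ 2 * |(v : ℝ)| ≤ p := by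
      have hw0 : 0 ≤ b % (p : ℤ) := Int.emod_nonneg _ hpZ.ne'
      have hw1 : b % (p : ℤ) < p := Int.emod_lt_of_pos _ hpZ
      have hwd : (p : ℤ) ∣ b - b % (p : ℤ) := Int.dvd_self_sub_emod
      rcases le_or_gt (2 * (b % (p : ℤ))) p with h | h
      · refine ⟨b % (p : ℤ), hwd, ?_⟩
        have h1 : (0 : ℝ) ≤ ((b % (p : ℤ) : ℤ) : ℝ) := by exact_mod_cast hw0
        rw [abs_of_nonneg h1]
        exact_mod_cast h
      · refine ⟨b % (p : ℤ) - p, ?_, ?_⟩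
        · have h2 : b - (b % (p : ℤ) - p) = (b - b % (p : ℤ)) + p := by ring
          rw [h2]
          exact dvd_add hwd (dvd_refl _)
        · have h1 : ((b % (p : ℤ) - p : ℤ) : ℝ) ≤ 0 := by
            have : b % (p : ℤ) - p ≤ 0 := by omega
            exact_mod_cast this
          rw [abs_of_nonpos h1]
          have h3 : 2 * (-(b % (p : ℤ) - (p : ℤ))) ≤ (p : ℤ) := by omega
          exact_mod_cast h3
    -- near a multiple of `p`
    have near : ∀ i : ℕ, 0 < i → δ ≤ i → 2 * (i : ℝ) ≤ p - δ →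
        ∃ k : ℤ, |(i : ℝ) * v - k * p| < 2 * δ := by
      intro i hi0 hi1 hi2
      have hs0 : 0 ≤ (-(i * b)) % (p : ℤ) := Int.emod_nonneg _ hpZ.ne'
      have hs1 : (-(i * b)) % (p : ℤ) < p := Int.emod_lt_of_pos _ hpZ
      have hdm := Int.mul_ediv_add_emod (-(i * b)) (p : ℤ)
      set s : ℤ := (-(i * b)) % (p : ℤ) with hs
      have hs0R : (0 : ℝ) ≤ (s : ℝ) := by exact_mod_cast hs0
      have hs1R : (s : ℝ) < (p : ℝ) := by exact_mod_cast hs1
      have hdvd : (p : ℤ) ∣ s + i * b := by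
        refine ⟨-((-(i * b)) / (p : ℤ)), ?_⟩
        linear_combination hdm
      obtain ⟨c, hc⟩ := hdvd
      obtain ⟨d, hd⟩ := hv1
      -- `i v = - s + p (c - i d)`
      have hkey : (i : ℤ) * v = -s + p * (c - i * d) := by
        linear_combination hc - (i : ℤ) * hd
      have hkeyR : (i : ℝ) * v = -s + p * (c - i * d) := by exact_mod_cast hkey
      by_cases h1 : 2 * δ ≤ s
      · by_cases h2 : (s : ℝ) ≤ p - 2 * δ
        · exact (star i hi0 hi1 hi2 s ⟨c, hc⟩ h1 h2).elim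
        · push Not at h2
          refine ⟨c - i * d - 1, ?_⟩
          push_cast
          rw [hkeyR]
          have h3 : -(s : ℝ) + p * (c - i * d) - (c - i * d - 1) * p = p - s := by ring
          rw [h3, abs_of_pos (by linarith)]
          linarith
      · push Not at h1
        refine ⟨c - i * d, ?_⟩
        push_cast
        rw [hkeyR]
        have h3 : -(s : ℝ) + p * (c - i * d) - (c - i * d) * p = -s := by ring
        rw [h3, abs_neg, abs_of_nonneg hs0R]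
        exact h1
    -- no small nonzero combination
    have far : ∀ (x : ℝ) (K : ℤ), |x - K * p| < 4 * δ → 2 * |x| ≤ p → |x| < 4 * δ := by
      intro x K h1 h2
      by_cases hK : K = 0
      · subst hK
        simpa using h1
      · exfalso
        have hK1 : (1 : ℝ) ≤ |(K : ℝ)| := by
          have : (1 : ℤ) ≤ |K| := Int.one_le_abs hK
          exact_mod_cast this
        have h3 : |(K : ℝ) * p| ≤ |x| + |x - K * p| := by
          have h4 : (K : ℝ) * p = x - (x - K * p) := by ring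
          calc |(K : ℝ) * p| = |x - (x - K * p)| := by rw [← h4]
            _ ≤ |x| + |x - K * p| := abs_sub _ _
        rw [abs_mul, abs_of_pos (by linarith : (0 : ℝ) < p)] at h3
        nlinarith
    have hi0pos : 0 < ⌈δ⌉₊ := Nat.ceil_pos.2 hδpos
    have hi0le : δ ≤ (⌈δ⌉₊ : ℝ) := Nat.le_ceil δ
    have hi0lt : (⌈δ⌉₊ : ℝ) < δ + 1 := Nat.ceil_lt_add_one hδpos.le
    obtain ⟨k0, hk0⟩ := near ⌈δ⌉₊ hi0pos hi0le (by linarith)
    have diff : ∀ j : ℕ, 2 * ((⌈δ⌉₊ : ℝ) + j) ≤ p - δ → ∃ K : ℤ, |(j : ℝ) * v - K * p| < 4 * δ := by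
      intro j hj
      have hj0 : (0 : ℝ) ≤ (j : ℝ) := Nat.cast_nonneg j
      obtain ⟨k1, hk1⟩ := near (⌈δ⌉₊ + j) (by omega) (by push_cast; linarith)
        (by push_cast; linarith)
      refine ⟨k1 - k0, ?_⟩
      push_cast at hk1 ⊢
      have h1 : (j : ℝ) * v - ((k1 : ℝ) - k0) * p =
          (((⌈δ⌉₊ : ℝ) + j) * v - k1 * p) - ((⌈δ⌉₊ : ℝ) * v - k0 * p) := by ring
      rw [h1]
      calc |(((⌈δ⌉₊ : ℝ) + j) * v - k1 * p) - ((⌈δ⌉₊ : ℝ) * v - k0 * p)|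
          ≤ |((⌈δ⌉₊ : ℝ) + j) * v - k1 * p| + |(⌈δ⌉₊ : ℝ) * v - k0 * p| := abs_sub _ _
        _ < 4 * δ := by linarith
    have hvsmall : |(v : ℝ)| < 4 * δ := by
      obtain ⟨K, hK⟩ := diff 1 (by push_cast; linarith)
      rw [Nat.cast_one, one_mul] at hK
      exact far _ K hK hv2
    have hv0 : v = 0 := by
      by_contra hv
      have hv1' : (1 : ℝ) ≤ |(v : ℝ)| := by
        have : (1 : ℤ) ≤ |v| := Int.one_le_abs hv
        exact_mod_cast this
      have hvpos : (0 : ℝ) < |(v : ℝ)| := by linarith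
      have hkle : 4 * δ / |(v : ℝ)| ≤ (⌈4 * δ / |(v : ℝ)|⌉₊ : ℝ) := Nat.le_ceil _
      have hklt : (⌈4 * δ / |(v : ℝ)|⌉₊ : ℝ) < 4 * δ / |(v : ℝ)| + 1 :=
        Nat.ceil_lt_add_one (by positivity)
      set k : ℕ := ⌈4 * δ / |(v : ℝ)|⌉₊ with hk
      have h1 : 4 * δ ≤ k * |(v : ℝ)| := (div_le_iff₀ hvpos).1 hkle
      have h2 : k * |(v : ℝ)| < 4 * δ + |(v : ℝ)| := by
        have h3 := mul_lt_mul_of_pos_right hklt hvpos
        rw [add_mul, one_mul, div_mul_cancel₀ _ hvpos.ne'] at h3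
        exact h3
      have h4 : (k : ℝ) < 4 * δ + 1 := by
        have h5 : 4 * δ / |(v : ℝ)| ≤ 4 * δ := div_le_self (by positivity) hv1'
        linarith
      obtain ⟨K, hK⟩ := diff k (by linarith)
      have h6 : |(k : ℝ) * v| = k * |(v : ℝ)| := by
        rw [abs_mul, abs_of_nonneg (Nat.cast_nonneg k)]
      have h7 := far _ K hK (by rw [h6]; linarith)
      rw [h6] at h7
      linarith
    rw [hv0, sub_zero] at hv1
    exact hv1

end Pool.Agent.Lib.MP_0bc52e_nt.LC
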