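import Pool.Agent.Lib.MP_0bc52e_nt.LC.StmB

/-! # Piece N7: the family -/

namespace Pool.Agent.Lib.MP_0bc52e_nt.LC

/-- the shear used for the normal form -/
private noncomputable def p_N7_lin (A B : ℤ) : (ℝ × ℝ × ℝ) ≃ₗ[ℝ] (ℝ × ℝ × ℝ) where
  toFun v := (v.1, v.2.1, v.2.2 - A * v.1 - B * v.2.1)
  invFun v := (v.1, v.2.1, v.2.2 + A * v.1 + B * v.2.1)
  map_add' v w := by
    simp only [Prod.fst_add, Prod.snd_add, Prod.mk_add_mk, Prod.mk.injEq, true_and]
    ring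
  map_smul' r v := by
    simp only [Prod.smul_fst, Prod.smul_snd, smul_eq_mul, Prod.smul_mk, RingHom.id_apply,
      Prod.mk.injEq, true_and]
    ring
  left_inv v := by
    ext
    · rfl
    · rfl
    · change v.2.2 - A * v.1 - B * v.2.1 + A * v.1 + B * v.2.1 = v.2.2
      ring
  right_inv v := by
    ext
    · rfl
    · rfl
    · change v.2.2 + A * v.1 + B * v.2.1 - A * v.1 - B * v.2.1 = v.2.2
      ring

private noncomputable def p_N7_aff (A B D : ℤ) : (ℝ × ℝ × ℝ) ≃ᵃ[ℝ] (ℝ × ℝ × ℝ) :=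
  (p_N7_lin A B).toAffineEquiv.trans (AffineEquiv.constVAdd ℝ (ℝ × ℝ × ℝ) ((0, 0, -(D : ℝ))))

private theorem p_N7_aff_apply (A B D : ℤ) (v : ℝ × ℝ × ℝ) :
    p_N7_aff A B D v = (v.1, v.2.1, v.2.2 - D - A * v.1 - B * v.2.1) := by
  change (0, 0, -(D : ℝ)) + (v.1, v.2.1, v.2.2 - A * v.1 - B * v.2.1) = _
  simp only [Prod.mk_add_mk, Prod.mk.injEq, zero_add, true_and]
  ring

private theorem p_N7_aff_ip (A B D x y z : ℤ) :
    p_N7_aff A B D (ip (x, y, z)) = ip (x, y, z - D - A * x - B * y) := by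
  rw [p_N7_aff_apply]
  simp only [ip, Prod.mk.injEq, true_and]
  push_cast
  ring

private theorem p_N7_aff_int (A B D : ℤ) (v : ℝ × ℝ × ℝ) : IsI (p_N7_aff A B D v) ↔ IsI v := by
  constructor
  · rintro ⟨⟨x, y, z⟩, hw⟩
    rw [p_N7_aff_apply] at hw
    simp only [ip, Prod.mk.injEq] at hw
    obtain ⟨h1, h2, h3⟩ := hw
    refine ⟨(x, y, z + D + A * x + B * y), ?_⟩
    ext
    · exact h1
    · exact h2
    · simp only [ip]
      push_cast
      rw [← h1, ← h2]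
      linarith
  · rintro ⟨⟨x, y, z⟩, rfl⟩
    exact ⟨_, p_N7_aff_ip A B D x y z⟩

private theorem p_N7_bdd (V : Finset (ℤ × ℤ × ℤ)) : ∃ M : ℤ,
    ∀ v ∈ convexHull ℝ (ip '' (V : Set (ℤ × ℤ × ℤ))), -(M : ℝ) ≤ v.2.2 ∧ v.2.2 ≤ M := by
  refine ⟨∑ w ∈ V, |w.2.2|, fun v hv => ?_⟩
  have hc : Convex ℝ {v : ℝ × ℝ × ℝ | -((∑ w ∈ V, |w.2.2| : ℤ) : ℝ) ≤ v.2.2 ∧
      v.2.2 ≤ ((∑ w ∈ V, |w.2.2| : ℤ) : ℝ)} := by
    intro x hx y hy s t hs ht hst
    obtain ⟨x1, x2⟩ := hx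
    obtain ⟨y1, y2⟩ := hy
    have e : (s • x + t • y).2.2 = s * x.2.2 + t * y.2.2 := rfl
    constructor
    · rw [e]
      calc -((∑ w ∈ V, |w.2.2| : ℤ) : ℝ)
          = s * (-((∑ w ∈ V, |w.2.2| : ℤ) : ℝ)) + t * (-((∑ w ∈ V, |w.2.2| : ℤ) : ℝ)) := by
            rw [← add_mul, hst, one_mul]
        _ ≤ s * x.2.2 + t * y.2.2 := add_le_add (mul_le_mul_of_nonneg_left x1 hs)
            (mul_le_mul_of_nonneg_left y1 ht)
    · rw [e]
      calc s * x.2.2 + t * y.2.2 ≤ s * ((∑ w ∈ V, |w.2.2| : ℤ) : ℝ) +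
          t * ((∑ w ∈ V, |w.2.2| : ℤ) : ℝ) := add_le_add (mul_le_mul_of_nonneg_left x2 hs)
            (mul_le_mul_of_nonneg_left y2 ht)
        _ = ((∑ w ∈ V, |w.2.2| : ℤ) : ℝ) := by rw [← add_mul, hst, one_mul]
  refine convexHull_min ?_ hc hv
  rintro _ ⟨w, hw, rfl⟩
  have h1 : |w.2.2| ≤ ∑ w ∈ V, |w.2.2| :=
    Finset.single_le_sum (f := fun w : ℤ × ℤ × ℤ => |w.2.2|) (fun _ _ => abs_nonneg _)
      (Finset.mem_coe.1 hw)
  have h2 := abs_le.1 h1
  have e : (ip w).2.2 = (w.2.2 : ℝ) := rfl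
  constructor
  · rw [e]
    have := h2.1
    exact_mod_cast this
  · rw [e]
    exact_mod_cast h2.2

private theorem p_N7_seg (R : Set (ℝ × ℝ × ℝ)) (hR : Convex ℝ R) (E₁ E₂ s k t : ℤ)
    (hs : ip (E₁, E₂, s) ∈ R) (ht : ip (E₁, E₂, t) ∈ R) (h1 : s ≤ k) (h2 : k ≤ t) :
    ip (E₁, E₂, k) ∈ R := by
  rcases eq_or_lt_of_le (h1.trans h2) with h | h
  · have : k = s := by omega
    rw [this]
    exact hs
  · have hd : (0 : ℝ) < (t : ℝ) - s := by
      have : (s : ℝ) < t := by exact_mod_cast h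
      linarith
    have h1' : (s : ℝ) ≤ k := by exact_mod_cast h1
    have h2' : (k : ℝ) ≤ t := by exact_mod_cast h2
    have := hR hs ht (div_nonneg (sub_nonneg.2 h2') hd.le) (div_nonneg (sub_nonneg.2 h1') hd.le)
      (by rw [← add_div, div_eq_one_iff_eq hd.ne']; ring)
    have e : (((t : ℝ) - k) / (t - s)) • ip (E₁, E₂, s) + (((k : ℝ) - s) / (t - s)) • ip (E₁, E₂, t) =
        ip (E₁, E₂, k) := by
      have hd' := hd.ne'
      simp only [ip, Prod.smul_mk, Prod.mk_add_mk, smul_eq_mul, Prod.mk.injEq]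
      refine ⟨?_, ?_, ?_⟩
      · field_simp
        ring
      · field_simp
        ring
      · field_simp
        ring
    rwa [e] at this

theorem p_N7 (h_pair : S_pair) (h_edge : S_edge) (h_only : S_only) : S_N7 := by
  intro P p a b c hLP hPC hT hp hcrit ha hb
  obtain ⟨V, hV⟩ := hLP
  have hPc : Convex ℝ P := by rw [hV]; exact convex_convexHull ℝ _
  obtain ⟨hin, ⟨β, hβ⟩, ⟨γ, hγ⟩, ⟨z10, hz10⟩, ⟨z11, hz11⟩⟩ := hT
  -- the integer points of `P`
  have hint : ∀ x y z : ℤ, ip (x, y, z) ∈ P →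
      (x = 0 ∧ (y = 0 ∨ y = 1 ∨ y = 2)) ∨ (x = 1 ∧ (y = 0 ∨ y = 1)) := by
    intro x y z h
    obtain ⟨h1, h2, h3, h4⟩ := hin _ h
    simp only [ip] at h1 h2 h3 h4
    have h1' : 0 ≤ x := by exact_mod_cast h1
    have h2' : x ≤ 1 := by exact_mod_cast h2
    have h3' : 0 ≤ y := by exact_mod_cast h3
    have h4' : y ≤ 2 - (2 - 1) * x := by exact_mod_cast h4
    omega
  -- consecutive points over (1,0), (1,1), (0,1)
  have hcolpair : ∀ E₁ E₂ : ℤ, (∀ x y z : ℤ, ip (x, y, z) ∈ P → (2 : ℤ) ∣ x - E₁ → (2 : ℤ) ∣ y - E₂ →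
      x = E₁ ∧ y = E₂) → ∃ e : ℤ, ip (E₁, E₂, e) ∈ P ∧ ip (E₁, E₂, e + 1) ∈ P := by
    intro E₁ E₂ h
    obtain ⟨x, y, z, h1, h2, h3, h4⟩ := hPC E₁ E₂ 0
    obtain ⟨x', y', z', h1', h2', h3', h4'⟩ := hPC E₁ E₂ 1
    obtain ⟨rfl, rfl⟩ := h x y z h1 h2 h3
    obtain ⟨rfl, rfl⟩ := h x' y' z' h1' h2' h3'
    refine h_pair P _ _ z z' hPc h1 h1' ?_
    omega
  obtain ⟨e, he, he1⟩ := hcolpair 1 0 (by
    intro x y z h h1 h2
    have := hint x y z h
    omega)
  obtain ⟨f, hf, hf1⟩ := hcolpair 1 1 (by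
    intro x y z h h1 h2
    have := hint x y z h
    omega)
  obtain ⟨d, hd, -⟩ := hcolpair 0 1 (by
    intro x y z h h1 h2
    have := hint x y z h
    omega)
  -- the columns
  have hβ' : ip (2 * 1 - 2, 2 * 0 - 0, β) ∈ P := hβ
  have hγ' : ip (2 * 1 - 2, 2 * 1 - 0, γ) ∈ P := hγ
  have hb0 : (p : ℤ) ∣ b - 0 := by rw [sub_zero]; exact hb
  obtain ⟨o1, o2⟩ := h_only P p a b c 2 0 1 0 e β hPc (by omega) hcrit ha hb0 he he1 hβ'
  obtain ⟨o3, o4⟩ := h_only P p a b c 2 0 1 1 f γ hPc (by omega) hcrit ha hb0 hf hf1 hγ'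
  have d1 := h_edge P p a b c 2 0 1 0 e β hPc (by omega) hcrit ha hb0 he he1 hβ'
  have d2 := h_edge P p a b c 2 0 1 1 f γ hPc (by omega) hcrit ha hb0 hf hf1 hγ'
  have o2' : ∀ k : ℤ, ip (0, 0, k) ∈ P → k = β := o2
  have o4' : ∀ k : ℤ, ip (0, 2, k) ∈ P → k = γ := o4
  have hdvd : (p : ℤ) ∣ γ - β - 2 * (f - e) := by
    have := dvd_sub d2 d1
    rw [show c + γ - (2 * f + 1) - (c + β - (2 * e + 1)) = γ - β - 2 * (f - e) by ring] at this
    exact this
  -- parity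
  have hodd : Odd (γ - β - 2 * (f - e)) := by
    obtain ⟨x, y, z, h1, h2, h3, h4⟩ := hPC 0 0 0
    obtain ⟨x', y', z', h1', h2', h3', h4'⟩ := hPC 0 0 1
    have hx := hint x y z h1
    have hx' := hint x' y' z' h1'
    have hz : z = β ∨ z = γ := by
      have : (x = 0 ∧ y = 0) ∨ (x = 0 ∧ y = 2) := by omega
      rcases this with ⟨rfl, rfl⟩ | ⟨rfl, rfl⟩
      · exact Or.inl (o2' z h1)
      · exact Or.inr (o4' z h1)
    have hz' : z' = β ∨ z' = γ := by
      have : (x' = 0 ∧ y' = 0) ∨ (x' = 0 ∧ y' = 2) := by omega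
      rcases this with ⟨rfl, rfl⟩ | ⟨rfl, rfl⟩
      · exact Or.inl (o2' z' h1')
      · exact Or.inr (o4' z' h1')
    rw [Int.odd_iff]
    omega
  -- the column over (0,1)
  obtain ⟨M, hM⟩ := p_N7_bdd V
  rw [← hV] at hM
  have hM' : ∀ k : ℤ, ip (0, 1, k) ∈ P → -M ≤ k ∧ k ≤ M := by
    intro k hk
    have := hM _ hk
    simp only [ip] at this
    constructor
    · exact_mod_cast this.1
    · exact_mod_cast this.2
  obtain ⟨s, hs, hs'⟩ := Int.exists_least_of_bdd (P := fun k => ip (0, 1, k) ∈ P)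
    ⟨-M, fun z hz => (hM' z hz).1⟩ ⟨d, hd⟩
  obtain ⟨t, ht, ht'⟩ := Int.exists_greatest_of_bdd (P := fun k => ip (0, 1, k) ∈ P)
    ⟨M, fun z hz => (hM' z hz).2⟩ ⟨d, hd⟩
  -- the eight points
  have hP8 : P = convexHull ℝ {ip (0, 0, β), ip (0, 2, γ), ip (1, 0, e), ip (1, 0, e + 1),
      ip (1, 1, f), ip (1, 1, f + 1), ip (0, 1, s), ip (0, 1, t)} := by
    apply Set.Subset.antisymm
    · have hsub : ip '' (V : Set (ℤ × ℤ × ℤ)) ⊆ convexHull ℝ {ip (0, 0, β), ip (0, 2, γ),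
          ip (1, 0, e), ip (1, 0, e + 1), ip (1, 1, f), ip (1, 1, f + 1), ip (0, 1, s),
          ip (0, 1, t)} := by
        rintro _ ⟨⟨x, y, z⟩, hw, rfl⟩
        have hwP : ip (x, y, z) ∈ P := by
          rw [hV]
          exact subset_convexHull ℝ _ ⟨_, hw, rfl⟩
        rcases hint x y z hwP with ⟨rfl, rfl | rfl | rfl⟩ | ⟨rfl, rfl | rfl⟩
        · rw [o2' z hwP]
          exact subset_convexHull ℝ _ (by simp)
        · exact p_N7_seg _ (convex_convexHull ℝ _) 0 1 s z t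
            (subset_convexHull ℝ _ (by simp)) (subset_convexHull ℝ _ (by simp))
            (hs' z hwP) (ht' z hwP)
        · rw [o4' z hwP]
          exact subset_convexHull ℝ _ (by simp)
        · rcases o1 z hwP with h | h
          · rw [h]
            exact subset_convexHull ℝ _ (by simp)
          · rw [h]
            exact subset_convexHull ℝ _ (by simp)
        · rcases o3 z hwP with h | h
          · rw [h]
            exact subset_convexHull ℝ _ (by simp)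
          · rw [h]
            exact subset_convexHull ℝ _ (by simp)
      conv_lhs => rw [hV]
      exact convexHull_min hsub (convex_convexHull ℝ _)
    · refine convexHull_min ?_ hPc
      intro v hv
      simp only [Set.mem_insert_iff, Set.mem_singleton_iff] at hv
      rcases hv with rfl | rfl | rfl | rfl | rfl | rfl | rfl | rfl
      · exact hβ
      · exact hγ
      · exact he
      · exact he1
      · exact hf
      · exact hf1
      · exact hs
      · exact ht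
  refine ⟨γ - β - 2 * (f - e), s - β - (f - e), t - β - (f - e), hodd, hdvd, ?_, ?_⟩
  · have : s ≤ t := hs' t ht
    omega
  · refine ⟨p_N7_aff (e - β) (f - e) β, p_N7_aff_int _ _ _, ?_⟩
    have himg : (p_N7_aff (e - β) (f - e) β) '' P =
        convexHull ℝ ((p_N7_aff (e - β) (f - e) β) '' {ip (0, 0, β), ip (0, 2, γ), ip (1, 0, e),
          ip (1, 0, e + 1), ip (1, 1, f), ip (1, 1, f + 1), ip (0, 1, s), ip (0, 1, t)}) := by
      conv_lhs => rw [hP8]
      exact AffineMap.image_convexHull (p_N7_aff (e - β) (f - e) β).toAffineMap _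
    rw [himg]
    unfold fam
    simp only [Set.image_insert_eq, Set.image_singleton, p_N7_aff_ip]
    have r1 : β - β - (e - β) * 0 - (f - e) * 0 = 0 := by ring
    have r2 : γ - β - (e - β) * 0 - (f - e) * 2 = γ - β - 2 * (f - e) := by ring
    have r3 : e - β - (e - β) * 1 - (f - e) * 0 = 0 := by ring
    have r4 : e + 1 - β - (e - β) * 1 - (f - e) * 0 = 1 := by ring
    have r5 : f - β - (e - β) * 1 - (f - e) * 1 = 0 := by ring
    have r6 : f + 1 - β - (e - β) * 1 - (f - e) * 1 = 1 := by ring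
    have r7 : s - β - (e - β) * 0 - (f - e) * 1 = s - β - (f - e) := by ring
    have r8 : t - β - (e - β) * 0 - (f - e) * 1 = t - β - (f - e) := by ring
    rw [r1, r2, r3, r4, r5, r6, r7, r8]

end Pool.Agent.Lib.MP_0bc52e_nt.LC
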