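import Pool.Agent.Lib.MP_0bc52e_nt.LC.StmA
import Pool.Agent.Lib.MP_0bc52e_nt.LC.StmB

/-!
# MP_0bc52e_nt, piece Nx
-/

namespace Pool.Agent.Lib.MP_0bc52e_nt.LC

theorem p_Nx (h_res : S_res) : S_Nx := by
  intro Q p a b X Y L m n hT hD hL h h0 hp r hr hr1 hr2 hr3
  have hpos : (0 : ℝ) < p := by
    have : 0 < p := lt_trans h0 hp
    exact_mod_cast this
  obtain ⟨s, hs, hs1, hs2⟩ := h_res p (lt_trans h0 hp) (h * b) (p / L * Y)
  set d : ℝ := p / L with hd
  have hlam0 : 0 ≤ (h : ℝ) - d := by nlinarith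
  have hlam : 0 < (h : ℝ) - d := by
    rcases lt_or_eq_of_le hlam0 with h1 | h1
    · exact h1
    · exfalso
      have e1 : (r : ℝ) - d * X = 0 := by nlinarith
      rw [← h1, e1] at hr3
      simp only [zero_mul, mul_zero, sub_zero] at hr3
      linarith
  have hx0 : 0 ≤ (r - d * X) / (h - d) := div_nonneg (by linarith) hlam0
  have hx1 : (r - d * X) / (h - d) ≤ 1 := by
    rw [div_le_one hlam]
    nlinarith
  have hy0 : 0 ≤ (s - d * Y) / (h - d) := div_nonneg (by linarith) hlam0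
  have hy1 : (s - d * Y) / (h - d) ≤ m - (m - n) * ((r - d * X) / (h - d)) := by
    rw [div_le_iff₀ hlam, sub_mul, mul_assoc, div_mul_cancel₀ _ hlam.ne']
    linarith
  refine hD h h0 hp (by linarith) _ (hT _ _ hx0 hx1 hy0 hy1) r s ?_ ?_ hr hs
  · rw [mul_div_cancel₀ _ hlam.ne']
    ring
  · rw [mul_div_cancel₀ _ hlam.ne']
    ring

end Pool.Agent.Lib.MP_0bc52e_nt.LC
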