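import Pool.Agent.Lib.MP_0bc52e_nt.LC.StmA

namespace Pool.Agent.Lib.MP_0bc52e_nt.LC

theorem p_SW (h_um : S_um) (h_umconv : S_umconv) (h_tri : S_tri) (h_fourth : S_fourth) : S_SW := by
  intro Q hQ hpc
  obtain ⟨a₁, a₂, b₁, b₂, c₁, c₂, hA, hB, hC, hdet⟩ := h_tri Q hQ hpc
  obtain ⟨hcomp, hinv, -⟩ := h_um
  let g₀ : ℝ × ℝ → ℝ × ℝ := fun v =>
    (((b₁ - a₁ : ℤ) : ℝ) * v.1 + ((c₁ - a₁ : ℤ) : ℝ) * v.2 + (a₁ : ℝ),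
     ((b₂ - a₂ : ℤ) : ℝ) * v.1 + ((c₂ - a₂ : ℤ) : ℝ) * v.2 + (a₂ : ℝ))
  have hg₀ : IsUM g₀ := by
    refine ⟨b₁ - a₁, c₁ - a₁, b₂ - a₂, c₂ - a₂, a₁, a₂, Or.inl ?_, fun v => rfl⟩
    linarith [hdet, mul_comm (b₂ - a₂) (c₁ - a₁)]
  obtain ⟨g₁, hg₁, h1, h2⟩ := hinv g₀ hg₀
  obtain ⟨k1, -, k3⟩ := h_umconv g₁ hg₁ Q
  have hQ1 := k1 hQ
  have hP1 := k3 hpc
  have m0 : ip2 (0, 0) ∈ g₁ '' Q := by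
    refine ⟨_, hA, ?_⟩
    have : ip2 (a₁, a₂) = g₀ (ip2 (0, 0)) := by simp [g₀, ip2]
    rw [this, h1]
  have m1 : ip2 (1, 0) ∈ g₁ '' Q := by
    refine ⟨_, hB, ?_⟩
    have : ip2 (b₁, b₂) = g₀ (ip2 (1, 0)) := by simp [g₀, ip2]
    rw [this, h1]
  have m2 : ip2 (0, 1) ∈ g₁ '' Q := by
    refine ⟨_, hC, ?_⟩
    have : ip2 (c₁, c₂) = g₀ (ip2 (0, 1)) := by simp [g₀, ip2]
    rw [this, h1]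
  obtain ⟨x, y, hxy, hx, hy⟩ := hP1 1 1
  have ox : Odd x := by
    obtain ⟨k, hk⟩ := hx
    exact ⟨k, by linarith⟩
  have oy : Odd y := by
    obtain ⟨k, hk⟩ := hy
    exact ⟨k, by linarith⟩
  obtain ⟨g, hg, hgQ⟩ := h_fourth (g₁ '' Q) hQ1 m0 m1 m2 x y ox oy hxy
  refine ⟨g ∘ g₁, hcomp g₁ g hg₁ hg, ?_⟩
  rw [Set.image_comp]
  exact hgQ

end Pool.Agent.Lib.MP_0bc52e_nt.LC
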