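import Pool.Agent.Lib.MP_0bc52e_nt.LC.StmC

/-!
# MP_0bc52e_nt, piece T3crit
-/

set_option autoImplicit false

open scoped Pointwise

namespace Pool.Agent.Lib.MP_0bc52e_nt.LC

theorem p_T3crit : S_T3crit := by
  intro P p hC
  obtain ⟨o, ho⟩ := hC
  refine ⟨o 0, o 1, o 2, ?_⟩
  intro h h0 hp x y z u v w hP hx hy hz ha hb hc
  refine ho h h0 hp ![x, y, z] ⟨![u, v, w], hP, ?_⟩ ?_
  · funext i
    fin_cases i
    · simpa using hx.symm
    · simpa using hy.symm
    · simpa using hz.symm
  · intro i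
    fin_cases i
    · simpa using ha
    · simpa using hb
    · simpa using hc

end Pool.Agent.Lib.MP_0bc52e_nt.LC
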