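import Pool.Agent.Lib.MP_0bc52e_nt.LC.StmC

/-!
The piece `[T3lp]`: the coordinates of an integer polytope.
-/

open scoped Pointwise

namespace Pool.Agent.Lib.MP_0bc52e_nt.LC

/-- The linear map reading off the three coordinates. -/
private def psi : (Fin 3 → ℝ) →ₗ[ℝ] ℝ × ℝ × ℝ where
  toFun x := (x 0, x 1, x 2)
  map_add' _ _ := rfl
  map_smul' _ _ := rfl

private lemma T3_eq (P : Set (Fin 3 → ℝ)) : T3 P = psi '' P := by
  ext v
  obtain ⟨a, b, c⟩ := v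
  constructor
  · intro h
    exact ⟨![a, b, c], h, rfl⟩
  · rintro ⟨x, hx, hxv⟩
    have h0 : x 0 = a := congrArg Prod.fst hxv
    have h1 : x 1 = b := congrArg (fun v => v.2.1) hxv
    have h2 : x 2 = c := congrArg (fun v => v.2.2) hxv
    change ![a, b, c] ∈ P
    have : (![a, b, c] : Fin 3 → ℝ) = x := by
      ext i
      fin_cases i
      · exact h0.symm
      · exact h1.symm
      · exact h2.symm
    rw [this]; exact hx

theorem p_T3lp : S_T3lp := by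
  rintro P ⟨V, hV, hint, rfl⟩
  refine ⟨hV.toFinset.image (fun x => (⌊x 0⌋, ⌊x 1⌋, ⌊x 2⌋)), ?_⟩
  rw [T3_eq]
  rw [LinearMap.image_convexHull]
  congr 1
  ext v
  constructor
  · rintro ⟨x, hx, rfl⟩
    refine ⟨(⌊x 0⌋, ⌊x 1⌋, ⌊x 2⌋), ?_, ?_⟩
    · simp only [Finset.coe_image, Set.Finite.coe_toFinset, Set.mem_image]
      exact ⟨x, hx, rfl⟩
    · obtain ⟨k0, h0⟩ := hint x hx 0
      obtain ⟨k1, h1⟩ := hint x hx 1
      obtain ⟨k2, h2⟩ := hint x hx 2
      simp [ip, psi, h0, h1, h2]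
  · rintro ⟨w, hw, rfl⟩
    simp only [Finset.coe_image, Set.Finite.coe_toFinset, Set.mem_image] at hw
    obtain ⟨x, hx, rfl⟩ := hw
    refine ⟨x, hx, ?_⟩
    obtain ⟨k0, h0⟩ := hint x hx 0
    obtain ⟨k1, h1⟩ := hint x hx 1
    obtain ⟨k2, h2⟩ := hint x hx 2
    simp [ip, psi, h0, h1, h2]

end Pool.Agent.Lib.MP_0bc52e_nt.LC
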