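import Pool.Agent.Lib.MP_0bc52e_nt.LC.StmC

namespace Pool.Agent.Lib.MP_0bc52e_nt.LC

theorem p_T3pc : S_T3pc := by
  intro P hP a b c
  by_contra hcon
  apply hP
  refine ⟨![a, b, c], fun x hx hd => hcon ⟨x 0, x 1, x 2, ?_, ?_, ?_, ?_⟩⟩
  · have h : (fun i => (x i : ℝ)) = ![(x 0 : ℝ), (x 1 : ℝ), (x 2 : ℝ)] := by
      funext i
      fin_cases i <;> rfl
    show ![(x 0 : ℝ), (x 1 : ℝ), (x 2 : ℝ)] ∈ P
    rw [← h]
    exact hx
  · simpa using hd 0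
  · simpa using hd 1
  · simpa using hd 2

end Pool.Agent.Lib.MP_0bc52e_nt.LC
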