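import Pool.Agent.Lib.MP_0bc52e_nt.LC.StmA
import Pool.Agent.Lib.MP_0bc52e_nt.LC.StmB

namespace Pool.Agent.Lib.MP_0bc52e_nt.LC

theorem p_V (h_projlp : S_projlp) (h_class2D : S_class2D) (h_vdmap : S_vdmap) (h_diam : S_diam)
    (h_W : S_W) (h_caseD : S_caseD) (h_caseN : S_caseN) (h_zeq : S_zeq) : S_V := by
  intro P p L hV hp hp7 hL
  obtain ⟨h1, h2, h3, h4⟩ := h_projlp P hV.lp hV.pc
  obtain ⟨g, hg, hcase⟩ := h_class2D (proj P) h1 h2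
  obtain ⟨v1, v2, v3⟩ := h_vdmap P p L g hg hV
  rw [← v3] at hcase
  rcases hcase with hW | hD | hS
  · exfalso
    obtain ⟨k1, k2, k3, k4⟩ := h_projlp _ v1.lp v1.pc
    obtain ⟨a, b, c, hC⟩ := v1.crit
    obtain ⟨X, Y, Z, c1, c2⟩ := v1.chord
    have hd := h_diam _ p a b c X Y Z L k3 hC (by linarith) c1 c2
    exact h_W _ p a b X Y L k4 hW ⟨(X, Y, Z), c1, rfl⟩ hp hp7 hL hd
  · exact (h_caseD _ p L v1 hp7 hL hD).elim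
  · obtain ⟨C, s, t, r1, r2, r3, r4⟩ := h_caseN _ p L v1 hp hp7 hL hS
    exact ⟨C, s, t, r1, r2, r3, h_zeq.2.2 _ _ _ v2 r4⟩

end Pool.Agent.Lib.MP_0bc52e_nt.LC
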