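import Pool.Agent.Lib.MP_0bc52e_nt.LC.StmA

namespace Pool.Agent.Lib.MP_0bc52e_nt.LC

/-- the linear map of an integer matrix -/
private noncomputable def p_W_g (A B C D : ℤ) : ℝ × ℝ → ℝ × ℝ :=
  fun v : ℝ × ℝ => ((A * v.1 + B * v.2 + ((0 : ℤ) : ℝ), C * v.1 + D * v.2 + ((0 : ℤ) : ℝ)) : ℝ × ℝ)

private lemma p_W_conv (A B C D : ℤ) (Q : Set (ℝ × ℝ)) (hQ : Convex ℝ Q) :
    Convex ℝ (p_W_g A B C D '' Q) := by
  apply hQ.is_linear_image
  constructor
  · intro x y
    unfold p_W_g
    ext
    · simp; ring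
    · simp; ring
  · intro c x
    unfold p_W_g
    ext
    · simp; ring
    · simp; ring

private lemma p_W_diam (h : S_diammap) (Q : Set (ℝ × ℝ)) (p : ℕ) (a b : ℤ) (X Y L : ℝ)
    (A B C D : ℤ) (hdet : A * D - B * C = 1 ∨ A * D - B * C = -1) (hD : Diam Q p a b X Y L) :
    Diam (p_W_g A B C D '' Q) p (A * a + B * b) (C * a + D * b) (A * X + B * Y) (C * X + D * Y) L := by
  have := h Q p a b X Y L A B C D 0 0 hdet hD
  simp only [add_zero, Int.cast_zero] at this
  unfold p_W_g
  simpa only [Int.cast_zero, add_zero] using this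

/-- the largest functional is `x + y` -/
private lemma p_W_core (h_diammap : S_diammap) (h_W1 : S_W1) (Q : Set (ℝ × ℝ)) (p : ℕ) (a b : ℤ)
    (X Y L : ℝ) (hQ : Convex ℝ Q) (hW : W3 Q) (hXY : (X, Y) ∈ Q) (hp : 7 ≤ p) (hL : 42 ≤ L)
    (h12 : 12 ≤ X + Y) (h1 : Y - 2 * X ≤ X + Y) (h2 : X - 2 * Y ≤ X + Y)
    (hD : Diam Q p a b X Y L) : False := by
  rcases le_total Y X with h | h
  · exact h_W1 Q p a b X Y L hQ hW hXY hp hL h12 (by linarith) h hD
  · have hD' := p_W_diam h_diammap Q p a b X Y L 0 1 1 0 (Or.inr (by norm_num)) hD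
    obtain ⟨w1, w2, w3⟩ := hW
    refine h_W1 _ p _ _ _ _ L (p_W_conv 0 1 1 0 Q hQ) ⟨?_, ?_, ?_⟩ ?_ hp hL ?_ ?_ ?_ hD'
    · exact ⟨_, w2, by unfold p_W_g; simp⟩
    · exact ⟨_, w1, by unfold p_W_g; simp⟩
    · exact ⟨_, w3, by unfold p_W_g; simp⟩
    · exact ⟨_, hXY, by unfold p_W_g; simp⟩
    · push_cast; linarith
    · push_cast; linarith
    · push_cast; linarith

/-- [W] The triangle case is impossible. -/
theorem p_W (h_diammap : S_diammap) (h_W1 : S_W1) (h_W2 : S_W2) (h_W7 : S_W7) (h_Wr : S_Wr) :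
    S_W := by
  intro Q p a b X Y L hQ hW hXY hpr hp hL hD
  have hL42 : (42 : ℝ) ≤ L := by linarith
  by_cases hnear : X + Y ≤ 12 ∧ Y - 2 * X ≤ 12 ∧ X - 2 * Y ≤ 12
  · obtain ⟨n1, n2, n3⟩ := hnear
    have hL0 : (0 : ℝ) < L := by linarith
    have key := h_W2 Q p a b X Y L hQ hW hL0 (by omega) n1 n2 n3 hD
    have hp7 : (7 : ℝ) ≤ p := by exact_mod_cast hp
    have heps : 25 * (p : ℝ) / L ≤ p / 40 := by
      rw [div_le_div_iff₀ hL0 (by norm_num)]
      nlinarith
    have heps0 : 0 ≤ 25 * (p : ℝ) / L := by positivity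
    by_cases h7 : p = 7
    · subst h7
      obtain ⟨h, hh0, hh7, r, s, hr, hs, e1, e2, e3⟩ := h_W7 a b
      have e1' : (r : ℝ) + s ≤ h - 1 := by exact_mod_cast e1
      have e2' : (s : ℝ) - 2 * r ≤ h - 1 := by exact_mod_cast e2
      have e3' : (r : ℝ) - 2 * s ≤ h - 1 := by exact_mod_cast e3
      have heps1 : 25 * ((7 : ℕ) : ℝ) / L ≤ 1 := by
        refine heps.trans ?_
        push_cast
        norm_num
      exact key h hh0 hh7 r s hr hs (by linarith) (by linarith) (by linarith)
    · have hp11 : 11 ≤ p := by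
        by_contra hlt
        have h8 : 8 ≤ p := by omega
        have h10 : p ≤ 10 := by omega
        interval_cases p <;> revert hpr <;> norm_num
      have hp11' : (11 : ℝ) ≤ p := by exact_mod_cast hp11
      obtain ⟨h, hh, r, s, hr, hs, e1, e2, e3⟩ := h_Wr p (25 * (p : ℝ) / L) heps0 (by linarith) a b
      have hh0 : 0 < h := by omega
      have hhp : h < p := by omega
      exact key h hh0 hhp r s hr hs e1 e2 e3
  · -- the largest of the three functionals exceeds `12`
    obtain ⟨w1, w2, w3⟩ := hW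
    by_cases c1 : Y - 2 * X ≤ X + Y ∧ X - 2 * Y ≤ X + Y
    · refine p_W_core h_diammap h_W1 Q p a b X Y L hQ ⟨w1, w2, w3⟩ hXY hp hL42 ?_ c1.1 c1.2 hD
      by_contra hlt
      push Not at hlt
      exact hnear ⟨by linarith, by linarith [c1.1], by linarith [c1.2]⟩
    · by_cases c2 : X + Y ≤ Y - 2 * X ∧ X - 2 * Y ≤ Y - 2 * X
      · -- apply the map `(x,y) ↦ (y - x, -x)`
        have hD' := p_W_diam h_diammap Q p a b X Y L (-1) 1 (-1) 0 (Or.inl (by norm_num)) hD
        refine p_W_core h_diammap h_W1 _ p _ _ _ _ L (p_W_conv (-1) 1 (-1) 0 Q hQ)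
          ⟨?_, ?_, ?_⟩ ?_ hp hL42 ?_ ?_ ?_ hD'
        · exact ⟨_, w2, by unfold p_W_g; simp⟩
        · exact ⟨_, w3, by unfold p_W_g; simp⟩
        · exact ⟨_, w1, by unfold p_W_g; simp⟩
        · exact ⟨_, hXY, by unfold p_W_g; simp⟩
        · push_cast
          by_contra hlt
          push Not at hlt
          exact hnear ⟨by linarith [c2.1], by linarith, by linarith [c2.2]⟩
        · push_cast; linarith [c2.1, c2.2]
        · push_cast; linarith [c2.1, c2.2]
      · -- now `X - 2 Y` is the largest; apply the map `(x,y) ↦ (-y, x - y)`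
        have c3 : X + Y ≤ X - 2 * Y ∧ Y - 2 * X ≤ X - 2 * Y := by
          rw [not_and_or] at c1 c2
          constructor
          · by_contra hlt
            push Not at hlt
            rcases c1 with c1 | c1
            · push Not at c1
              rcases c2 with c2 | c2
              · exact c2 c1.le
              · push Not at c2
                linarith
            · exact c1 hlt.le
          · by_contra hlt
            push Not at hlt
            rcases c2 with c2 | c2
            · push Not at c2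
              rcases c1 with c1 | c1
              · exact c1 c2.le
              · push Not at c1
                linarith
            · exact c2 hlt.le
        have hD' := p_W_diam h_diammap Q p a b X Y L 0 (-1) 1 (-1) (Or.inl (by norm_num)) hD
        refine p_W_core h_diammap h_W1 _ p _ _ _ _ L (p_W_conv 0 (-1) 1 (-1) Q hQ)
          ⟨?_, ?_, ?_⟩ ?_ hp hL42 ?_ ?_ ?_ hD'
        · exact ⟨_, w3, by unfold p_W_g; simp⟩
        · exact ⟨_, w1, by unfold p_W_g; simp⟩
        · exact ⟨_, w2, by unfold p_W_g; simp⟩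
        · exact ⟨_, hXY, by unfold p_W_g; simp⟩
        · push_cast
          by_contra hlt
          push Not at hlt
          exact hnear ⟨by linarith [c3.1], by linarith [c3.2], by linarith⟩
        · push_cast; linarith [c3.1, c3.2]
        · push_cast; linarith [c3.1, c3.2]

end Pool.Agent.Lib.MP_0bc52e_nt.LC
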