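import Pool.Agent.Lib.MP_0bc52e_nt.LC.StmA

/-!
# W1: the chord is far from the triangle
-/

namespace Pool.Agent.Lib.MP_0bc52e_nt.LC

private theorem p_W1_seg (Q : Set (ℝ × ℝ)) (hQ : Convex ℝ Q) (hW : W3 Q) (σ : ℝ)
    (h1 : -1 / 2 ≤ σ) (h2 : σ ≤ 1) : ((0 : ℝ), σ) ∈ Q := by
  obtain ⟨hA, hB, hC⟩ := hW
  have h3 : ((0 : ℝ), (-1 / 2 : ℝ)) ∈ Q := by
    have h4 := hQ hA hC (a := 1 / 2) (b := 1 / 2) (by norm_num) (by norm_num) (by norm_num)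
    convert h4 using 1
    ext <;> norm_num
  have h5 := hQ hB h3 (a := (2 * σ + 1) / 3) (b := 1 - (2 * σ + 1) / 3) (by linarith)
    (by linarith) (by ring)
  convert h5 using 1
  ext
  · simp
  · simp
    ring

theorem p_W1 (h_res : S_res) : S_W1 := by
  intro Q p a b X Y L hQ hW hXY hp hL h12 hY0 hYX hD
  have hpR : (7 : ℝ) ≤ (p : ℝ) := by exact_mod_cast hp
  have hL0 : (0 : ℝ) < L := by linarith
  set μ : ℝ := (p : ℝ) / L with hμ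
  have hμ1 : μ ≤ (p : ℝ) / 42 :=
    div_le_div_of_nonneg_left (by linarith) (by norm_num) hL
  have hμ0 : 0 ≤ μ := by positivity
  have hcast : (((p - 1 : ℕ) : ℕ) : ℝ) = (p : ℝ) - 1 := by
    rw [Nat.cast_sub (by omega)]
    norm_num
  set lam : ℝ := (p : ℝ) - 1 - μ with hlam
  have hl1 : 5 * (p : ℝ) / 6 ≤ lam := by
    rw [hlam]
    linarith
  have hl0 : 0 < lam := by linarith
  obtain ⟨r, hr1, hr2, hr3⟩ := h_res p (by omega) (((p - 1 : ℕ) : ℤ) * a) (μ * X)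
  set q₁ : ℝ := ((r : ℝ) - μ * X) / lam with hq₁
  have hq1a : 0 ≤ q₁ := div_nonneg (by linarith) hl0.le
  have hq1b : q₁ ≤ 6 / 5 := by
    rw [hq₁, div_le_iff₀ hl0]
    linarith
  have hX6 : 6 ≤ X := by linarith
  have hX0 : 0 < X := by linarith
  set τ : ℝ := q₁ / X with hτ
  have hτ0 : 0 ≤ τ := div_nonneg hq1a hX0.le
  have hτ1 : τ ≤ 1 / 5 := by
    rw [hτ, div_le_iff₀ hX0]
    linarith
  have hτX : τ * X = q₁ := by
    rw [hτ]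
    field_simp
  obtain ⟨s, hs1, hs2, hs3⟩ := h_res p (by omega) (((p - 1 : ℕ) : ℤ) * b)
    (μ * Y + lam * (-(1 - τ) / 2 + τ * Y))
  set q₂ : ℝ := ((s : ℝ) - μ * Y) / lam with hq₂
  have hq2a : -(1 - τ) / 2 + τ * Y ≤ q₂ := by
    rw [hq₂, le_div_iff₀ hl0]
    linarith
  have hq2b : q₂ ≤ -(1 - τ) / 2 + τ * Y + 6 / 5 := by
    rw [hq₂, div_le_iff₀ hl0]
    nlinarith
  have hτ2 : 0 < 1 - τ := by linarith
  set σ : ℝ := (q₂ - τ * Y) / (1 - τ) with hσ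
  have hσ1 : -1 / 2 ≤ σ := by
    rw [hσ, le_div_iff₀ hτ2]
    linarith
  have hσ2 : σ ≤ 1 := by
    rw [hσ, div_le_iff₀ hτ2]
    linarith
  have hσ3 : (1 - τ) * σ = q₂ - τ * Y := by
    rw [hσ]
    field_simp
  have hmem : ((q₁ : ℝ), (q₂ : ℝ)) ∈ Q := by
    have h1 := hQ (p_W1_seg Q hQ hW σ hσ1 hσ2) hXY (a := 1 - τ) (b := τ) hτ2.le hτ0 (by ring)
    convert h1 using 1
    ext
    · show q₁ = (1 - τ) * 0 + τ * X
      rw [hτX]
      ring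
    · show q₂ = (1 - τ) * σ + τ * Y
      rw [hσ3]
      ring
  refine hD (p - 1) (by omega) (by omega) ?_ (q₁, q₂) hmem r s ?_ ?_ hr1 hs1
  · rw [hcast]
    linarith
  · show (r : ℝ) = μ * X + (((p - 1 : ℕ) : ℝ) - μ) * q₁
    rw [hcast, ← hlam, hq₁]
    field_simp
    ring
  · show (s : ℝ) = μ * Y + (((p - 1 : ℕ) : ℝ) - μ) * q₂
    rw [hcast, ← hlam, hq₂]
    field_simp
    ring

end Pool.Agent.Lib.MP_0bc52e_nt.LC
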