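import Pool.Agent.Lib.MP_0bc52e_nt.LC.StmA

/-!
# MP_0bc52e_nt: piece W2
-/

namespace Pool.Agent.Lib.MP_0bc52e_nt.LC

private theorem p_W2_mem {Q : Set (ℝ × ℝ)} (hQ : Convex ℝ Q) (hW : W3 Q) {u v : ℝ}
    (h1 : u + v ≤ 1) (h2 : v - 2 * u ≤ 1) (h3 : u - 2 * v ≤ 1) : (u, v) ∈ Q := by
  obtain ⟨k1, k2, k3⟩ := hW
  have h := hQ.sum_mem (t := Finset.univ)
    (w := ![(1 - (v - 2 * u)) / 3, (1 - (u - 2 * v)) / 3, (1 - (u + v)) / 3])
    (z := ![((1 : ℝ), (0 : ℝ)), ((0 : ℝ), (1 : ℝ)), ((-1 : ℝ), (-1 : ℝ))])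
    (by
      intro i _
      fin_cases i
      · show (0 : ℝ) ≤ (1 - (v - 2 * u)) / 3
        linarith
      · show (0 : ℝ) ≤ (1 - (u - 2 * v)) / 3
        linarith
      · show (0 : ℝ) ≤ (1 - (u + v)) / 3
        linarith)
    (by
      rw [Fin.sum_univ_three]
      show (1 - (v - 2 * u)) / 3 + (1 - (u - 2 * v)) / 3 + (1 - (u + v)) / 3 = 1
      ring)
    (by
      intro i _
      fin_cases i
      · exact k1
      · exact k2
      · exact k3)
  rw [Fin.sum_univ_three] at h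
  have e : (u, v) = ((1 - (v - 2 * u)) / 3) • ((1 : ℝ), (0 : ℝ)) +
      ((1 - (u - 2 * v)) / 3) • ((0 : ℝ), (1 : ℝ)) +
      ((1 - (u + v)) / 3) • ((-1 : ℝ), (-1 : ℝ)) := by
    refine Prod.ext ?_ ?_
    · simp only [Prod.smul_mk, Prod.mk_add_mk, smul_eq_mul]
      ring
    · simp only [Prod.smul_mk, Prod.mk_add_mk, smul_eq_mul]
      ring
  rw [e]
  exact h

theorem p_W2 : S_W2 := by
  intro Q p a b X Y L hQ hW hL hp hX1 hX2 hX3 hD h hh0 hhp r s hr hs f1 f2 f3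
  have hp' : (0 : ℝ) < p := by exact_mod_cast hp
  obtain ⟨e, he⟩ : ∃ e : ℝ, e = p / L := ⟨_, rfl⟩
  have he0 : 0 < e := by
    rw [he]
    positivity
  have e25 : 25 * (p : ℝ) / L = 25 * e := by
    rw [he]
    ring
  rw [e25] at f1 f2 f3
  have hlam : 0 < (h : ℝ) - e := by linarith
  have hq := p_W2_mem hQ hW (u := ((r : ℝ) - e * X) / (h - e)) (v := ((s : ℝ) - e * Y) / (h - e))
    (by
      rw [← add_div, div_le_one hlam]
      nlinarith)
    (by
      have : ((s : ℝ) - e * Y) / (h - e) - 2 * (((r : ℝ) - e * X) / (h - e)) =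
          (((s : ℝ) - 2 * r) - e * (Y - 2 * X)) / (h - e) := by ring
      rw [this, div_le_one hlam]
      nlinarith)
    (by
      have : ((r : ℝ) - e * X) / (h - e) - 2 * (((s : ℝ) - e * Y) / (h - e)) =
          (((r : ℝ) - 2 * s) - e * (X - 2 * Y)) / (h - e) := by ring
      rw [this, div_le_one hlam]
      nlinarith)
  refine hD h hh0 hhp (by rw [← he]; linarith) _ hq r s ?_ ?_ hr hs
  · rw [← he]
    show (r : ℝ) = e * X + (h - e) * (((r : ℝ) - e * X) / (h - e))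
    rw [mul_div_cancel₀ _ hlam.ne']
    ring
  · rw [← he]
    show (s : ℝ) = e * Y + (h - e) * (((s : ℝ) - e * Y) / (h - e))
    rw [mul_div_cancel₀ _ hlam.ne']
    ring

end Pool.Agent.Lib.MP_0bc52e_nt.LC
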