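import Pool.Agent.Lib.MP_0bc52e_nt.LC.StmA

/-!
The piece `[Wr]`: the triangle `W` and a large modulus.
-/

namespace Pool.Agent.Lib.MP_0bc52e_nt.LC

theorem p_Wr (h_res : S_res) : S_Wr := by
  intro p ε hε hp a b
  have hp9 : (9 : ℝ) ≤ p := by linarith
  have hp9' : 9 ≤ p := by exact_mod_cast hp9
  by_contra hcon
  have h1 : ∀ r s : ℤ, (p : ℤ) ∣ r + a → (p : ℤ) ∣ s + b →
      (r : ℝ) + s ≤ p - 1 - ε → (s : ℝ) - 2 * r ≤ p - 1 - ε → (r : ℝ) - 2 * s ≤ p - 1 - ε → False := by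
    intro r s hr hs k1 k2 k3
    apply hcon
    have hc : ((p - 1 : ℕ) : ℤ) = (p : ℤ) - 1 := by omega
    have hcR : ((p - 1 : ℕ) : ℝ) = (p : ℝ) - 1 := by
      rw [Nat.cast_sub (by omega)]; simp
    refine ⟨p - 1, Or.inl rfl, r, s, ?_, ?_, ?_, ?_, ?_⟩
    · rw [hc]
      have : r - ((p : ℤ) - 1) * a = (r + a) - (p : ℤ) * a := by ring
      rw [this]; exact dvd_sub hr (Dvd.intro _ rfl)
    · rw [hc]
      have : s - ((p : ℤ) - 1) * b = (s + b) - (p : ℤ) * b := by ring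
      rw [this]; exact dvd_sub hs (Dvd.intro _ rfl)
    · rw [hcR]; exact k1
    · rw [hcR]; exact k2
    · rw [hcR]; exact k3
  have h3 : ∀ r s : ℤ, (p : ℤ) ∣ r + 3 * a → (p : ℤ) ∣ s + 3 * b →
      (r : ℝ) + s ≤ p - 3 - ε → (s : ℝ) - 2 * r ≤ p - 3 - ε → (r : ℝ) - 2 * s ≤ p - 3 - ε → False := by
    intro r s hr hs k1 k2 k3
    apply hcon
    have hc : ((p - 3 : ℕ) : ℤ) = (p : ℤ) - 3 := by omega
    have hcR : ((p - 3 : ℕ) : ℝ) = (p : ℝ) - 3 := by
      rw [Nat.cast_sub (by omega)]; simp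
    refine ⟨p - 3, Or.inr rfl, r, s, ?_, ?_, ?_, ?_, ?_⟩
    · rw [hc]
      have : r - ((p : ℤ) - 3) * a = (r + 3 * a) - (p : ℤ) * a := by ring
      rw [this]; exact dvd_sub hr (Dvd.intro _ rfl)
    · rw [hc]
      have : s - ((p : ℤ) - 3) * b = (s + 3 * b) - (p : ℤ) * b := by ring
      rw [this]; exact dvd_sub hs (Dvd.intro _ rfl)
    · rw [hcR]; exact k1
    · rw [hcR]; exact k2
    · rw [hcR]; exact k3
  obtain ⟨A, hA, hA0, hA1⟩ := h_res p (by omega) (-a) 0
  obtain ⟨B, hB, hB0, hB1⟩ := h_res p (by omega) (-b) 0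
  have hA' : (p : ℤ) ∣ A + a := by simpa using hA
  have hB' : (p : ℤ) ∣ B + b := by simpa using hB
  have pp : (p : ℤ) ∣ (p : ℤ) := dvd_rfl
  -- (1)
  have s1 : (p : ℝ) - 1 - ε < A + B := by
    by_contra h
    push Not at h
    exact h1 A B hA' hB' h (by linarith) (by linarith)
  -- (2)
  have s2 : 2 * (A : ℝ) - B < 1 + ε ∨ 2 * (B : ℝ) - A < 1 + ε := by
    by_contra h
    push Not at h
    obtain ⟨h, h'⟩ := h
    refine h1 (A - p) (B - p) ?_ ?_ ?_ ?_ ?_
    · have : A - (p : ℤ) + a = (A + a) - p := by ring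
      rw [this]; exact dvd_sub hA' pp
    · have : B - (p : ℤ) + b = (B + b) - p := by ring
      rw [this]; exact dvd_sub hB' pp
    · push_cast; linarith
    · push_cast; linarith
    · push_cast; linarith
  rcases s2 with s2 | s2
  · -- Case I
    have s3 : (A : ℝ) - 2 * B + 2 * p > p - 1 - ε := by
      by_contra h
      push Not at h
      refine h1 A (B - p) hA' ?_ ?_ ?_ ?_
      · have : B - (p : ℤ) + b = (B + b) - p := by ring
        rw [this]; exact dvd_sub hB' pp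
      · push_cast; linarith
      · push_cast; linarith
      · push_cast; linarith
    refine h3 (3 * A - p) (3 * B - 2 * p) ?_ ?_ ?_ ?_ ?_
    · have : 3 * A - (p : ℤ) + 3 * a = 3 * (A + a) - p := by ring
      rw [this]; exact dvd_sub (Dvd.dvd.mul_left hA' 3) pp
    · have : 3 * B - 2 * (p : ℤ) + 3 * b = 3 * (B + b) - 2 * p := by ring
      rw [this]; exact dvd_sub (Dvd.dvd.mul_left hB' 3) (Dvd.dvd.mul_left pp 2)
    · push_cast; linarith
    · push_cast; linarith
    · push_cast; linarith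
  · -- Case II
    have s3 : (B : ℝ) - 2 * A + 2 * p > p - 1 - ε := by
      by_contra h
      push Not at h
      refine h1 (A - p) B ?_ hB' ?_ ?_ ?_
      · have : A - (p : ℤ) + a = (A + a) - p := by ring
        rw [this]; exact dvd_sub hA' pp
      · push_cast; linarith
      · push_cast; linarith
      · push_cast; linarith
    refine h3 (3 * A - 2 * p) (3 * B - p) ?_ ?_ ?_ ?_ ?_
    · have : 3 * A - 2 * (p : ℤ) + 3 * a = 3 * (A + a) - 2 * p := by ring
      rw [this]; exact dvd_sub (Dvd.dvd.mul_left hA' 3) (Dvd.dvd.mul_left pp 2)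
    · have : 3 * B - (p : ℤ) + 3 * b = 3 * (B + b) - p := by ring
      rw [this]; exact dvd_sub (Dvd.dvd.mul_left hB' 3) pp
    · push_cast; linarith
    · push_cast; linarith
    · push_cast; linarith

end Pool.Agent.Lib.MP_0bc52e_nt.LC
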