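import Pool.Agent.Lib.MP_0bc52e_nt.LC.StmA
import Pool.Agent.Lib.MP_0bc52e_nt.LC.StmB

/-! # Piece caseD: the case of the triangle `(0,0), (2,0), (0,2)` -/

namespace Pool.Agent.Lib.MP_0bc52e_nt.LC

theorem p_caseD_bd (P : Set (ℝ × ℝ × ℝ)) (hD : Dl (proj P)) (x y z : ℤ) (h : ip (x, y, z) ∈ P) :
    0 ≤ x ∧ 0 ≤ y ∧ x + y ≤ 2 := by
  obtain ⟨h1, h2, h3⟩ := hD.2.2.2 ((x : ℝ), (y : ℝ)) ⟨ip (x, y, z), h, rfl⟩
  simp only at h1 h2 h3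
  refine ⟨?_, ?_, ?_⟩
  · exact_mod_cast h1
  · exact_mod_cast h2
  · exact_mod_cast h3

theorem p_caseD_pair (h_pair : S_pair) (P : Set (ℝ × ℝ × ℝ)) (hconv : Convex ℝ P) (hpc : PC3 P)
    (hD : Dl (proj P)) (m n : ℤ) (hm : 0 ≤ m) (hn : 0 ≤ n) (hm1 : m ≤ 1) (hn1 : n ≤ 1)
    (h0 : 1 ≤ m + n) : ∃ e : ℤ, ip (m, n, e) ∈ P ∧ ip (m, n, e + 1) ∈ P := by
  have key : ∀ c : ℤ, ∃ z : ℤ, ip (m, n, z) ∈ P ∧ (2 : ℤ) ∣ z - c := by
    intro c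
    obtain ⟨x, y, z, hP, hx, hy, hz⟩ := hpc m n c
    obtain ⟨h1, h2, h3⟩ := p_caseD_bd P hD x y z hP
    have hxm : x = m := by omega
    have hyn : y = n := by omega
    subst hxm
    subst hyn
    exact ⟨z, hP, hz⟩
  obtain ⟨k₁, hk₁, hd₁⟩ := key 0
  obtain ⟨k₂, hk₂, hd₂⟩ := key 1
  exact h_pair P m n k₁ k₂ hconv hk₁ hk₂ (by omega)

theorem p_caseD_vert (h_face : S_face) (V : Finset (ℤ × ℤ × ℤ)) (P : Set (ℝ × ℝ × ℝ))
    (hV : P = convexHull ℝ (ip '' (V : Set (ℤ × ℤ × ℤ)))) (hD : Dl (proj P)) :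
    (∃ z : ℤ, ip (0, 0, z) ∈ P) ∧ (∃ z : ℤ, ip (2, 0, z) ∈ P) ∧ (∃ z : ℤ, ip (0, 2, z) ∈ P) := by
  have hVP : ∀ w ∈ V, ip w ∈ P := by
    intro w hw
    rw [hV]
    exact subset_convexHull ℝ _ ⟨w, hw, rfl⟩
  have hb : ∀ v ∈ P, 0 ≤ v.1 ∧ 0 ≤ v.2.1 ∧ v.1 + v.2.1 ≤ 2 := fun v hv =>
    hD.2.2.2 (v.1, v.2.1) ⟨v, hv, rfl⟩
  refine ⟨?_, ?_, ?_⟩
  · obtain ⟨v, hv, hv'⟩ := hD.1
    rw [Prod.mk.injEq] at hv'
    obtain ⟨w, hw, hw'⟩ := h_face V P hV 1 1 0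
      (fun v hv => by
        obtain ⟨h1, h2, h3⟩ := hb v hv
        push_cast
        linarith)
      ⟨v, hv, by
        push_cast
        rw [hv'.1, hv'.2]
        ring⟩
    obtain ⟨x, y, z⟩ := w
    obtain ⟨h1, h2, h3⟩ := p_caseD_bd P hD x y z (hVP _ hw)
    simp only at hw'
    have hx : x = 0 := by omega
    have hy : y = 0 := by omega
    subst hx
    subst hy
    exact ⟨z, hVP _ hw⟩
  · obtain ⟨v, hv, hv'⟩ := hD.2.1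
    rw [Prod.mk.injEq] at hv'
    obtain ⟨w, hw, hw'⟩ := h_face V P hV (-1) 0 2
      (fun v hv => by
        obtain ⟨h1, h2, h3⟩ := hb v hv
        push_cast
        linarith)
      ⟨v, hv, by
        push_cast
        rw [hv'.1, hv'.2]
        ring⟩
    obtain ⟨x, y, z⟩ := w
    obtain ⟨h1, h2, h3⟩ := p_caseD_bd P hD x y z (hVP _ hw)
    simp only at hw'
    have hx : x = 2 := by omega
    have hy : y = 0 := by omega
    subst hx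
    subst hy
    exact ⟨z, hVP _ hw⟩
  · obtain ⟨v, hv, hv'⟩ := hD.2.2.1
    rw [Prod.mk.injEq] at hv'
    obtain ⟨w, hw, hw'⟩ := h_face V P hV 0 (-1) 2
      (fun v hv => by
        obtain ⟨h1, h2, h3⟩ := hb v hv
        push_cast
        linarith)
      ⟨v, hv, by
        push_cast
        rw [hv'.1, hv'.2]
        ring⟩
    obtain ⟨x, y, z⟩ := w
    obtain ⟨h1, h2, h3⟩ := p_caseD_bd P hD x y z (hVP _ hw)
    simp only at hw'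
    have hx : x = 0 := by omega
    have hy : y = 2 := by omega
    subst hx
    subst hy
    exact ⟨z, hVP _ hw⟩

theorem p_caseD (h_projlp : S_projlp) (h_face : S_face) (h_diam : S_diam) (h_Dsmall : S_Dsmall)
    (h_Dlarge : S_Dlarge) (h_pair : S_pair) (h_col : S_col) (h_Dvert : S_Dvert) : S_caseD := by
  intro P p L hVD hp hL hD
  obtain ⟨-, -, hconv, hconvQ⟩ := h_projlp P hVD.lp hVD.pc
  obtain ⟨a, b, c, hcrit⟩ := hVD.crit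
  obtain ⟨X, Y, Z, h1, h2⟩ := hVD.chord
  have hdiam := h_diam P p a b c X Y Z L hconv hcrit (by linarith) h1 h2
  have hXY : (X, Y) ∈ proj P := ⟨(X, Y, Z), h1, rfl⟩
  obtain ⟨m, n, hm, hn, hmn, hdm, hdn⟩ : ∃ m n : ℤ, 0 ≤ m ∧ 0 ≤ n ∧ m + n ≤ 2 ∧
      (p : ℤ) ∣ a - m ∧ (p : ℤ) ∣ b - n := by
    by_cases h : 2 * (p : ℝ) ≤ L
    · exact h_Dsmall (proj P) p a b X Y L hconvQ hD hXY hp hL h hdiam
    · exact h_Dlarge (proj P) p a b X Y L hconvQ hD hXY hp hL (not_le.1 h) hdiam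
  by_cases hcase : m ≤ 1 ∧ n ≤ 1 ∧ 1 ≤ m + n
  · obtain ⟨e, he1, he2⟩ := p_caseD_pair h_pair P hconv hVD.pc hD m n hm hn hcase.1 hcase.2.1 hcase.2.2
    exact h_col P p a b c m n e hconv (by omega) hcrit he1 he2 hdm hdn
  · obtain ⟨V, hV⟩ := hVD.lp
    obtain ⟨hv1, hv2, hv3⟩ := p_caseD_vert h_face V P hV hD
    exact h_Dvert P p a b c m n hconv hVD.pc hD hp hcrit hv1 hv2 hv3 (by omega) hdm hdn

end Pool.Agent.Lib.MP_0bc52e_nt.LC
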