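import Pool.Agent.Lib.MP_0bc52e_nt.LC.StmA
import Pool.Agent.Lib.MP_0bc52e_nt.LC.StmB

set_option autoImplicit false

namespace Pool.Agent.Lib.MP_0bc52e_nt.LC

theorem p_caseN (h_N0 : S_N0) (h_vdmap : S_vdmap) (h_projlp : S_projlp) (h_diam : S_diam)
    (h_trapq : S_trapq) (h_N2 : S_N2) (h_N3 : S_N3) (h_N4 : S_N4) (h_N5 : S_N5) (h_N6 : S_N6)
    (h_N7 : S_N7) (h_zeq : S_zeq) : S_caseN := by
  intro P p L hV hp hp7 hL hS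
  have hx : ∀ v ∈ P, 0 ≤ v.1 ∧ v.1 ≤ 1 := fun v hv => hS (v.1, v.2.1) ⟨v, hv, rfl⟩
  obtain ⟨g, hg, m, n, hn, hnm, hT⟩ := h_N0 P hV.lp hV.pc hx
  obtain ⟨hV', hZ, -⟩ := h_vdmap P p L g hg hV
  set P' := lift g '' P with hP'
  obtain ⟨-, -, hc, hcp⟩ := h_projlp P' hV'.lp hV'.pc
  obtain ⟨a, b, c, hC⟩ := hV'.crit
  obtain ⟨X, Y, Z, h1, h2⟩ := hV'.chord
  have hD := h_diam P' p a b c X Y Z L hc hC (by linarith) h1 h2
  have hTQ := h_trapq P' m n hc hn hnm hT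
  obtain ⟨hX0, hX1, hY0, hY1⟩ := hT.1 _ h1
  simp only at hX0 hX1 hY0 hY1
  have hx' : ∀ v ∈ P', 0 ≤ v.1 ∧ v.1 ≤ 1 := fun v hv => ⟨(hT.1 v hv).1, (hT.1 v hv).2.1⟩
  have no5 : ¬ ((p : ℤ) ∣ a ∨ (p : ℤ) ∣ a - 1) := fun h =>
    h_N5 P' p a b c hc hV'.pc hx' hp hp7 hC h
  rcases lt_or_ge 1 n with hn2 | hn1
  · exact absurd (h_N2 _ p a b X Y L m n hn2 hnm hTQ hD hp7 hL hX0 hX1) no5
  · obtain rfl : n = 1 := le_antisymm hn1 hn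
    rcases lt_or_ge 1 m with hm2 | hm1
    · rcases h_N3 _ p a b X Y L m hm2 hTQ hD hp7 hL hX0 hX1 with h | h | ⟨rfl, h⟩
      · exact absurd (Or.inl h) no5
      · exact absurd (Or.inr h) no5
      · have hY : Y ≤ 2 - X := by
          push_cast at hY1
          linarith
        have hb := h_N6 _ p a b X Y L hTQ hD hp7 hL hX0 hX1 hY0 hY h
        obtain ⟨C, s, t, hodd, hdvd, hst, hz⟩ := h_N7 P' p a b c hV'.lp hV'.pc hT hp7 hC h hb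
        exact ⟨C, s, t, hodd, hdvd, hst, h_zeq.2.2 _ _ _ hZ hz⟩
    · obtain rfl : m = 1 := le_antisymm hm1 hnm
      exact (h_N4 P' p a b c hc hV'.pc hT (by omega) hC).elim

end Pool.Agent.Lib.MP_0bc52e_nt.LC
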