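import Pool.Agent.Lib.MP_0bc52e_nt.LC.StmA

/-!
# Piece class2D: classification of integer polygons meeting all classes modulo 2
-/

namespace Pool.Agent.Lib.MP_0bc52e_nt.LC

private lemma p_class2D_swap : IsUM (fun v : ℝ × ℝ => (v.2, v.1)) := by
  refine ⟨0, 1, 1, 0, 0, 0, Or.inr (by norm_num), fun v => ?_⟩
  simp

private lemma p_class2D_hull (Q : Set (ℝ × ℝ)) (hQ : IsLP2 Q) (C : Set (ℝ × ℝ)) (hC : Convex ℝ C)
    (h : ∀ x y : ℤ, ip2 (x, y) ∈ Q → ip2 (x, y) ∈ C) : Q ⊆ C := by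
  obtain ⟨V, rfl⟩ := hQ
  refine convexHull_min ?_ hC
  rintro _ ⟨⟨x, y⟩, hv, rfl⟩
  exact h x y (subset_convexHull ℝ _ ⟨(x, y), hv, rfl⟩)

private lemma p_class2D_half (α β γ : ℝ) : Convex ℝ {v : ℝ × ℝ | 0 ≤ α * v.1 + β * v.2 + γ} := by
  intro v hv w hw s t hs ht hst
  simp only [Set.mem_setOf_eq, Prod.fst_add, Prod.smul_fst, Prod.snd_add, Prod.smul_snd, smul_eq_mul] at *
  have e : α * (s * v.1 + t * w.1) + β * (s * v.2 + t * w.2) + γ =
      s * (α * v.1 + β * v.2 + γ) + t * (α * w.1 + β * w.2 + γ) := by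
    have : γ = (s + t) * γ := by rw [hst, one_mul]
    linear_combination this
  rw [e]
  positivity

private lemma p_class2D_ineq (Q : Set (ℝ × ℝ)) (hQ : IsLP2 Q) (α β γ : ℤ)
    (h : ∀ x y : ℤ, ip2 (x, y) ∈ Q → 0 ≤ α * x + β * y + γ) :
    ∀ v ∈ Q, 0 ≤ (α:ℝ) * v.1 + β * v.2 + γ := by
  have := p_class2D_hull Q hQ _ (p_class2D_half α β γ) (fun x y hxy => by
    have := h x y hxy
    simp only [ip2, Set.mem_setOf_eq]
    exact_mod_cast this)
  exact fun v hv => this hv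

theorem p_class2D (h_um : S_um) (h_umconv : S_umconv) (h_SW : S_SW) (h_S4 : S_S4) (h_D2 : S_D2) :
    S_class2D := by
  intro Q hLP hPC
  have hconv : Convex ℝ Q := by
    obtain ⟨V, rfl⟩ := hLP
    exact convex_convexHull ℝ _
  obtain ⟨hcomp, -, hid⟩ := h_um
  obtain ⟨g₁, hg₁, h1 | h1⟩ := h_SW Q hconv hPC
  · exact ⟨g₁, hg₁, Or.inl h1⟩
  obtain ⟨c1, c2, c3⟩ := h_umconv g₁ hg₁ Q
  have hconv1 := c1 hconv
  have hLP1 := c2 hLP
  rcases h_S4 (g₁ '' Q) hconv1 h1 with ⟨g, hg, hW⟩ | hy | hx | ⟨g, hg, hS, h02, h20⟩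
  · refine ⟨g ∘ g₁, hcomp _ _ hg₁ hg, Or.inl ?_⟩
    rw [Set.image_comp]
    exact hW
  · refine ⟨(fun v : ℝ × ℝ => (v.2, v.1)) ∘ g₁, hcomp _ _ hg₁ p_class2D_swap, Or.inr (Or.inr ?_)⟩
    rw [Set.image_comp]
    rintro _ ⟨v, hv, rfl⟩
    have i1 := p_class2D_ineq _ hLP1 0 1 0 (fun x y h => by have := hy x y h; omega) v hv
    have i2 := p_class2D_ineq _ hLP1 0 (-1) 1 (fun x y h => by have := hy x y h; omega) v hv
    push_cast at i1 i2
    simp only
    constructor <;> linarith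
  · refine ⟨g₁, hg₁, Or.inr (Or.inr ?_)⟩
    intro v hv
    have i1 := p_class2D_ineq _ hLP1 1 0 0 (fun x y h => by have := hx x y h; omega) v hv
    have i2 := p_class2D_ineq _ hLP1 (-1) 0 1 (fun x y h => by have := hx x y h; omega) v hv
    push_cast at i1 i2
    constructor <;> linarith
  · obtain ⟨d1, d2, -⟩ := h_umconv g hg (g₁ '' Q)
    have hconv2 := d1 hconv1
    have hLP2 := d2 hLP1
    by_cases hall : ∀ a b : ℤ, ip2 (a, b) ∈ g '' (g₁ '' Q) → 0 ≤ a ∧ 0 ≤ b ∧ a + b ≤ 2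
    · refine ⟨g ∘ g₁, hcomp _ _ hg₁ hg, Or.inr (Or.inl ?_)⟩
      rw [Set.image_comp]
      refine ⟨hS.1, ?_, ?_, ?_⟩
      · have : ip2 (2, 0) = ((2:ℝ), (0:ℝ)) := by simp [ip2]
        rwa [this] at h20
      · have : ip2 (0, 2) = ((0:ℝ), (2:ℝ)) := by simp [ip2]
        rwa [this] at h02
      · intro v hv
        have i1 := p_class2D_ineq _ hLP2 1 0 0 (fun x y h => by have := hall x y h; omega) v hv
        have i2 := p_class2D_ineq _ hLP2 0 1 0 (fun x y h => by have := hall x y h; omega) v hv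
        have i3 := p_class2D_ineq _ hLP2 (-1) (-1) 2 (fun x y h => by have := hall x y h; omega) v hv
        push_cast at i1 i2 i3
        refine ⟨?_, ?_, ?_⟩ <;> linarith
    · push Not at hall
      obtain ⟨a, b, hab, hne⟩ := hall
      have hcase : a ≤ -1 ∨ b ≤ -1 ∨ 3 ≤ a + b := by
        by_cases ha : 0 ≤ a
        · by_cases hb : 0 ≤ b
          · have := hne ha hb; omega
          · omega
        · omega
      obtain ⟨g', hg', hW⟩ := h_D2 _ hconv2 hS h02 h20 a b hab hcase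
      refine ⟨g' ∘ (g ∘ g₁), hcomp _ _ (hcomp _ _ hg₁ hg) hg', Or.inl ?_⟩
      rw [Set.image_comp, Set.image_comp]
      exact hW

end Pool.Agent.Lib.MP_0bc52e_nt.LC
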