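import Pool.Agent.Lib.MP_0bc52e_nt.LC.StmA
import Pool.Agent.Lib.MP_0bc52e_nt.LC.StmB

namespace Pool.Agent.Lib.MP_0bc52e_nt.LC

theorem p_col (h_res : S_res) : S_col := by
  intro P p a b c E₁ E₂ e hP hp hC h0 h1 ha hb
  obtain ⟨r, hr, hr0, hr1⟩ := h_res p (by omega) (((p - 1 : ℕ) : ℤ) * c - ((p - 1 : ℕ) : ℤ) * e) 0
  have hr0' : 0 ≤ r := by exact_mod_cast hr0
  have hr1' : r < p := by
    have : (r : ℝ) < p := by linarith
    exact_mod_cast this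
  have hp1 : ((p - 1 : ℕ) : ℤ) = (p : ℤ) - 1 := by
    rw [Nat.cast_sub (by omega)]; simp
  have hp1r : ((p - 1 : ℕ) : ℝ) = (p : ℝ) - 1 := by
    rw [Nat.cast_sub (by omega)]; simp
  have hp2 : (2 : ℝ) ≤ p := by exact_mod_cast hp
  have hq : (0 : ℝ) < (p : ℝ) - 1 := by linarith
  have hr2 : (r : ℝ) ≤ (p : ℝ) - 1 := by
    have : r ≤ (p : ℤ) - 1 := by omega
    exact_mod_cast this
  have ht0 : 0 ≤ (r : ℝ) / ((p : ℝ) - 1) := by positivity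
  have ht1 : (r : ℝ) / ((p : ℝ) - 1) ≤ 1 := by rwa [div_le_one hq]
  have hmem : ((E₁ : ℝ), (E₂ : ℝ), (e : ℝ) + (r : ℝ) / ((p : ℝ) - 1)) ∈ P := by
    have h2 := hP h0 h1 (sub_nonneg.2 ht1) ht0 (by ring)
    convert h2 using 1
    simp only [ip, Prod.smul_mk, Prod.mk_add_mk, smul_eq_mul, Int.cast_add, Int.cast_one]
    ext
    · simp only; ring
    · simp only; ring
    · simp only; ring
  refine hC (p - 1) (by omega) (by omega) (((p - 1 : ℕ) : ℤ) * E₁) (((p - 1 : ℕ) : ℤ) * E₂)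
    (((p - 1 : ℕ) : ℤ) * e + r) _ _ _ hmem ?_ ?_ ?_ ?_ ?_ ?_
  · push_cast; ring
  · push_cast; ring
  · push_cast
    rw [hp1r]
    field_simp
  · have : ((p - 1 : ℕ) : ℤ) * E₁ - ((p - 1 : ℕ) : ℤ) * a = -(((p - 1 : ℕ) : ℤ) * (a - E₁)) := by ring
    rw [this]
    exact (Dvd.dvd.mul_left ha _).neg_right
  · have : ((p - 1 : ℕ) : ℤ) * E₂ - ((p - 1 : ℕ) : ℤ) * b = -(((p - 1 : ℕ) : ℤ) * (b - E₂)) := by ring
    rw [this]
    exact (Dvd.dvd.mul_left hb _).neg_right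
  · have : ((p - 1 : ℕ) : ℤ) * e + r - ((p - 1 : ℕ) : ℤ) * c =
      r - (((p - 1 : ℕ) : ℤ) * c - ((p - 1 : ℕ) : ℤ) * e) := by ring
    rw [this]
    exact hr

end Pool.Agent.Lib.MP_0bc52e_nt.LC
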