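import Pool.Agent.Lib.MP_0bc52e_nt.LC.StmA

namespace Pool.Agent.Lib.MP_0bc52e_nt.LC

theorem p_crit2map (_h_um : S_um) : S_crit2map := by
  rintro F p b c g ⟨A, B, C, D, E, G, hdet, hg⟩ hF
  refine ⟨A * b + B * c + E, C * b + D * c + G, ?_⟩
  rintro h hh0 hhp y' z' v' w' ⟨⟨v, w⟩, hvw, hgv⟩ hy hz hyb hzc
  rw [hg] at hgv
  simp only [Prod.mk.injEq] at hgv
  obtain ⟨hv', hw'⟩ := hgv
  set Δ : ℤ := A * D - B * C with hΔ
  have hΔ2 : Δ * Δ = 1 := by rcases hdet with h | h <;> rw [h] <;> norm_num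
  have hΔ2R : (Δ : ℝ) * Δ = 1 := by exact_mod_cast hΔ2
  have hΔR : (Δ : ℝ) = A * D - B * C := by rw [hΔ]; push_cast; ring
  refine hF h hh0 hhp (Δ * (D * (y' - h * E) - B * (z' - h * G))) (Δ * (A * (z' - h * G) - C * (y' - h * E))) v w hvw
    ?_ ?_ ?_ ?_
  · push_cast
    rw [hy, hz, ← hv', ← hw']
    have : (Δ : ℝ) * (D * (h * (A * v + B * w + E) - h * E) - B * (h * (C * v + D * w + G) - h * G)) =
        Δ * (A * D - B * C) * (h * v) := by ring
    rw [this, ← hΔR, hΔ2R, one_mul]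
  · push_cast
    rw [hy, hz, ← hv', ← hw']
    have : (Δ : ℝ) * (A * (h * (C * v + D * w + G) - h * G) - C * (h * (A * v + B * w + E) - h * E)) =
        Δ * (A * D - B * C) * (h * w) := by ring
    rw [this, ← hΔR, hΔ2R, one_mul]
  · have : Δ * (D * (y' - h * E) - B * (z' - h * G)) - h * b =
        Δ * (D * (y' - h * (A * b + B * c + E)) - B * (z' - h * (C * b + D * c + G))) := by
      have e : (h : ℤ) * b = (Δ * Δ) * (h * b) := by rw [hΔ2, one_mul]
      rw [e, hΔ]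
      ring
    rw [this]
    exact (dvd_sub (hyb.mul_left D) (hzc.mul_left B)).mul_left Δ
  · have : Δ * (A * (z' - h * G) - C * (y' - h * E)) - h * c =
        Δ * (A * (z' - h * (C * b + D * c + G)) - C * (y' - h * (A * b + B * c + E))) := by
      have e : (h : ℤ) * c = (Δ * Δ) * (h * c) := by rw [hΔ2, one_mul]
      rw [e, hΔ]
      ring
    rw [this]
    exact (dvd_sub (hzc.mul_left A) (hyb.mul_left C)).mul_left Δ

end Pool.Agent.Lib.MP_0bc52e_nt.LC
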