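import Pool.Agent.Lib.MP_0bc52e_nt.LC.StmA

namespace Pool.Agent.Lib.MP_0bc52e_nt.LC

theorem p_diam (h_res : S_res) : S_diam := by
  intro P p a b c X Y Z L hP hC hL h1 h2
  rintro h hh0 hhp hle q ⟨⟨u, v, w⟩, hw, rfl⟩ r s hr hs hra hsb
  have hp0 : 0 < p := by omega
  have hp : (0 : ℝ) < p := by exact_mod_cast hp0
  have hh : (0 : ℝ) < h := by exact_mod_cast hh0
  simp only at hr hs
  obtain ⟨t, ht, ht1, ht2⟩ := h_res p hp0 (h * c) (p / L * Z + (h - p / L) * w)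
  set ζ : ℝ := p / L * Z + (h - p / L) * w with hζ
  set τ : ℝ := (t - ζ) / p with hτ
  have hτ0 : 0 ≤ τ := div_nonneg (by linarith) hp.le
  have hτ1 : τ ≤ 1 := by rw [hτ, div_le_one hp]; linarith
  have hA : (X, Y, Z + τ * L) ∈ P := by
    have := hP h1 h2 (show 0 ≤ 1 - τ by linarith) hτ0 (by ring)
    have e : (1 - τ) • (X, Y, Z) + τ • (X, Y, Z + L) = (X, Y, Z + τ * L) := by
      simp only [Prod.smul_mk, Prod.mk_add_mk, smul_eq_mul, Prod.mk.injEq]
      refine ⟨?_, ?_, ?_⟩ <;> ring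
    rwa [e] at this
  have hpL : 0 ≤ (p : ℝ) / L := by positivity
  have hB : ((r : ℝ) / h, (s : ℝ) / h, (t : ℝ) / h) ∈ P := by
    have h3 : 0 ≤ (p : ℝ) / L / h := by positivity
    have h4 : 0 ≤ 1 - (p : ℝ) / L / h := by
      rw [sub_nonneg, div_le_one hh]; exact hle
    have := hP hA hw h3 h4 (by ring)
    have e : ((p : ℝ) / L / h) • (X, Y, Z + τ * L) + (1 - (p : ℝ) / L / h) • (u, v, w) =
        ((r : ℝ) / h, (s : ℝ) / h, (t : ℝ) / h) := by
      simp only [Prod.smul_mk, Prod.mk_add_mk, smul_eq_mul, Prod.mk.injEq]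
      refine ⟨?_, ?_, ?_⟩
      · rw [hr]; field_simp
      · rw [hs]; field_simp
      · have e1 : (t : ℝ) = ζ + p * τ := by rw [hτ]; field_simp; ring
        rw [e1, hζ]
        field_simp
        ring
    rwa [e] at this
  exact hC h hh0 hhp r s t _ _ _ hB (by field_simp) (by field_simp) (by field_simp) hra hsb ht

end Pool.Agent.Lib.MP_0bc52e_nt.LC
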