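import Pool.Agent.Lib.MP_0bc52e_nt.LC.StmA

/-! # Piece diammap: `Diam` under integer affine maps -/

namespace Pool.Agent.Lib.MP_0bc52e_nt.LC

theorem p_diammap_real (A B C D Δ α β r s : ℝ) (hΔ : A * D - B * C = Δ) (h2 : Δ * Δ = 1)
    (hr : r = A * α + B * β) (hs : s = C * α + D * β) :
    Δ * (D * r - B * s) = α ∧ Δ * (-C * r + A * s) = β := by
  constructor
  · rw [hr, hs]
    linear_combination α * h2 + Δ * α * hΔ
  · rw [hr, hs]
    linear_combination β * h2 + Δ * β * hΔ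

theorem p_diammap : S_diammap := by
  intro Q p a b X Y L A B C D E F hdet hD h hh hhp hLh q' hq' r' s' hr' hs' hpr hps
  obtain ⟨q, hq, rfl⟩ := hq'
  obtain ⟨Δ, hΔ, h2⟩ : ∃ Δ : ℤ, A * D - B * C = Δ ∧ Δ * Δ = 1 := by
    rcases hdet with h | h
    · exact ⟨1, h, by norm_num⟩
    · exact ⟨-1, h, by norm_num⟩
  have hΔr : (A : ℝ) * D - B * C = Δ := by exact_mod_cast hΔ
  have h2r : (Δ : ℝ) * Δ = 1 := by exact_mod_cast h2
  have key := p_diammap_real A B C D Δ (p / L * X + (h - p / L) * q.1)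
    (p / L * Y + (h - p / L) * q.2) (r' - h * E) (s' - h * F) hΔr h2r
    (by rw [hr']; ring) (by rw [hs']; ring)
  refine hD h hh hhp hLh q hq (Δ * (D * (r' - h * E) - B * (s' - h * F)))
    (Δ * (-C * (r' - h * E) + A * (s' - h * F))) ?_ ?_ ?_ ?_
  · push_cast
    exact key.1
  · push_cast
    exact key.2
  · obtain ⟨u, hu⟩ := hpr
    obtain ⟨v, hv⟩ := hps
    refine ⟨Δ * (D * u - B * v), ?_⟩
    linear_combination Δ * D * hu - Δ * B * hv + Δ * h * a * hΔ + h * a * h2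
  · obtain ⟨u, hu⟩ := hpr
    obtain ⟨v, hv⟩ := hps
    refine ⟨Δ * (-C * u + A * v), ?_⟩
    linear_combination -Δ * C * hu + Δ * A * hv + Δ * h * b * hΔ + h * b * h2

end Pool.Agent.Lib.MP_0bc52e_nt.LC
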