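import Pool.Agent.Lib.MP_0bc52e_nt.LC.StmC

/-! Piece [sail dir]: make a lattice direction vertical. -/

namespace Pool.Agent.Lib.MP_0bc52e_nt.LC

theorem p_dir_bez (a b : ℤ) : ∃ p q r s g : ℤ, p * s - q * r = 1 ∧ p * a + q * b = 0 ∧
    r * a + s * b = g ∧ 0 ≤ g ∧ (g = 0 → a = 0 ∧ b = 0) := by
  by_cases h : a = 0 ∧ b = 0
  · obtain ⟨rfl, rfl⟩ := h
    exact ⟨1, 0, 0, 1, 0, by ring, by ring, by ring, le_rfl, fun _ => ⟨rfl, rfl⟩⟩
  · have hg : (Int.gcd a b : ℤ) ≠ 0 := by
      intro h0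
      apply h
      have h1 : Int.gcd a b = 0 := by exact_mod_cast h0
      exact Int.gcd_eq_zero_iff.1 h1
    obtain ⟨a', ha'⟩ := Int.gcd_dvd_left a b
    obtain ⟨b', hb'⟩ := Int.gcd_dvd_right a b
    have hbez := Int.gcd_eq_gcd_ab a b
    generalize Int.gcdA a b = x at hbez
    generalize Int.gcdB a b = y at hbez
    have hg0 : (0 : ℤ) ≤ Int.gcd a b := Int.natCast_nonneg _
    generalize (Int.gcd a b : ℤ) = g at hg ha' hb' hbez hg0
    have h1 : g * (a' * x + b' * y) = g * 1 := by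
      rw [mul_one]
      conv_rhs => rw [hbez, ha', hb']
      ring
    have h2 := mul_left_cancel₀ hg h1
    refine ⟨b', -a', x, y, g, by linarith, by rw [ha', hb']; ring, by rw [hbez]; ring, hg0,
      fun h0 => absurd h0 hg⟩

theorem p_dir_eqv (A B : Matrix (Fin 3) (Fin 3) ℤ) (h : B * A = 1) (P : Set (Fin 3 → ℝ)) :
    IntegerEquivalent P ((fun x => (A.map (Int.cast : ℤ → ℝ)).mulVec x) '' P) := by
  have hBA : (B.map (Int.cast : ℤ → ℝ)) * (A.map (Int.cast : ℤ → ℝ)) = 1 := by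
    have h1 : (B * A).map (Int.cast : ℤ → ℝ) = (1 : Matrix (Fin 3) (Fin 3) ℤ).map Int.cast := by
      rw [h]
    have h2 : (B * A).map (Int.castRingHom ℝ) = B.map (Int.castRingHom ℝ) *
      A.map (Int.castRingHom ℝ) := Matrix.map_mul
    have h3 : (1 : Matrix (Fin 3) (Fin 3) ℤ).map (Int.castRingHom ℝ) = 1 :=
      Matrix.map_one _ (map_zero _) (map_one _)
    exact h2.symm.trans (h1.trans h3)
  have hint : ∀ (C : Matrix (Fin 3) (Fin 3) ℤ) (x : Fin 3 → ℝ), IsIntVec x →
      IsIntVec ((C.map (Int.cast : ℤ → ℝ)).mulVec x) := by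
    intro C x hx i
    choose n hn using hx
    refine ⟨C.mulVec n i, ?_⟩
    simp only [Matrix.mulVec, dotProduct, Matrix.map_apply, Int.cast_sum, Int.cast_mul, hn]
  have hinv : ∀ x : Fin 3 → ℝ, (B.map (Int.cast : ℤ → ℝ)).mulVec
      ((A.map (Int.cast : ℤ → ℝ)).mulVec x) = x := by
    intro x
    rw [Matrix.mulVec_mulVec, hBA, Matrix.one_mulVec]
  refine ⟨(Matrix.toLin' (A.map (Int.cast : ℤ → ℝ))).toAffineMap, ?_, ?_, ?_⟩
  · intro x y hxy
    have h1 : (A.map (Int.cast : ℤ → ℝ)).mulVec x = (A.map (Int.cast : ℤ → ℝ)).mulVec y := by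
      simpa [Matrix.toLin'_apply] using hxy
    rw [← hinv x, h1, hinv y]
  · intro x
    have h0 : (Matrix.toLin' (A.map (Int.cast : ℤ → ℝ))).toAffineMap x =
      (A.map (Int.cast : ℤ → ℝ)).mulVec x := by simp [Matrix.toLin'_apply]
    rw [h0]
    constructor
    · intro h1
      have := hint B _ h1
      rwa [hinv] at this
    · exact hint A x
  · apply Set.image_congr
    intro x _
    simp [Matrix.toLin'_apply]

theorem p_dir : S_dir := by
  intro P L hL v hv x hx hxv
  obtain ⟨p, q, r, s, g, h1, h2, h3, h4, h5⟩ := p_dir_bez (v 0) (v 1)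
  obtain ⟨p', q', r', s', g', k1, k2, k3, k4, k5⟩ := p_dir_bez g (v 2)
  have hg' : 1 ≤ g' := by
    by_contra hlt
    have h0 : g' = 0 := by omega
    obtain ⟨hg0, hv2⟩ := k5 h0
    obtain ⟨hv0, hv1⟩ := h5 hg0
    apply hv
    funext i
    fin_cases i
    · exact hv0
    · exact hv1
    · exact hv2
  have hAB : (!![s, -q * s', q * q'; -r, p * s', -p * q'; 0, -r', p'] : Matrix (Fin 3) (Fin 3) ℤ) *
      !![p, q, 0; p' * r, p' * s, q'; r' * r, r' * s, s'] = 1 := by
    ext i j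
    fin_cases i <;> fin_cases j <;>
      simp [Matrix.mul_apply, Fin.sum_univ_three] <;>
      first
        | linear_combination h1 + q * r * (-k1)
        | linear_combination (-(q * s)) * k1
        | linear_combination (-(q * s)) * k1
        | linear_combination (p * r) * k1
        | linear_combination h1 + (p * s) * k1
        | linear_combination k1
        | ring
  refine ⟨_, p_dir_eqv !![p, q, 0; p' * r, p' * s, q'; r' * r, r' * s, s'] _ hAB P, ?_⟩
  have key : ∀ y : Fin 3 → ℝ, ((!![p, q, 0; p' * r, p' * s, q'; r' * r, r' * s, s'] :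
      Matrix (Fin 3) (Fin 3) ℤ).map (Int.cast : ℤ → ℝ)).mulVec y =
      ![p * y 0 + q * y 1, p' * r * y 0 + p' * s * y 1 + q' * y 2,
        r' * r * y 0 + r' * s * y 1 + s' * y 2] := by
    intro y
    funext i
    fin_cases i <;> simp [Matrix.mulVec, dotProduct, Fin.sum_univ_three]
  refine ⟨p * x 0 + q * x 1, p' * r * x 0 + p' * s * x 1 + q' * x 2,
    r' * r * x 0 + r' * s * x 1 + s' * x 2, L * g', ?_, ?_, ?_⟩
  · have : (1 : ℝ) ≤ g' := by exact_mod_cast hg'
    nlinarith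
  · exact ⟨x, hx, key x⟩
  · refine ⟨_, hxv, ?_⟩
    show ((!![p, q, 0; p' * r, p' * s, q'; r' * r, r' * s, s'] :
      Matrix (Fin 3) (Fin 3) ℤ).map (Int.cast : ℤ → ℝ)).mulVec _ = _
    rw [key]
    have e2 : (p : ℝ) * v 0 + q * v 1 = 0 := by exact_mod_cast h2
    have e3 : (r : ℝ) * v 0 + s * v 1 = g := by exact_mod_cast h3
    have f2 : (p' : ℝ) * g + q' * v 2 = 0 := by exact_mod_cast k2
    have f3 : (r' : ℝ) * g + s' * v 2 = g' := by exact_mod_cast k3
    funext i
    fin_cases i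
    · simp
      linear_combination L * e2
    · simp
      linear_combination L * p' * e3 + L * f2
    · simp
      linear_combination L * r' * e3 + L * f3

end Pool.Agent.Lib.MP_0bc52e_nt.LC
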