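import Pool.Agent.Lib.MP_0bc52e_nt.LC.StmA
import Pool.Agent.Lib.MP_0bc52e_nt.LC.StmB

namespace Pool.Agent.Lib.MP_0bc52e_nt.LC

theorem p_edge (h_res : S_res) : S_edge := by
  intro P p a b c A₁ A₂ E₁ E₂ e β hP hp3 hC hA hB hE hE' hB'
  obtain ⟨t, ht, ht0, ht1⟩ := h_res p (by omega) (2 * e - β - c) 0
  have ht0' : (0 : ℤ) ≤ t := by exact_mod_cast ht0
  have ht1' : t < (p : ℤ) := by
    rw [zero_add] at ht1
    exact_mod_cast ht1
  by_cases htp : t = (p : ℤ) - 1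
  · obtain ⟨k, hk⟩ := ht
    exact ⟨k - 1, by rw [htp] at hk; linarith⟩
  exfalso
  have ht2 : t ≤ (p : ℤ) - 2 := by omega
  have hp3R : (3 : ℝ) ≤ (p : ℝ) := by exact_mod_cast hp3
  have ht2R : (t : ℝ) ≤ (p : ℝ) - 2 := by exact_mod_cast ht2
  have hq2 : (0 : ℝ) < (p : ℝ) - 2 := by linarith
  have hq1 : (0 : ℝ) < (p : ℝ) - 1 := by linarith
  have hM : ((E₁ : ℝ), (E₂ : ℝ), (e : ℝ) + t / ((p : ℝ) - 2)) ∈ P := by
    have hs : ((p : ℝ) - 2 - t) / ((p : ℝ) - 2) + t / ((p : ℝ) - 2) = 1 := by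
      field_simp; ring
    have := hP hE hE' (div_nonneg (by linarith) hq2.le) (div_nonneg ht0 hq2.le) hs
    convert this using 1
    simp only [ip, Prod.smul_mk, Prod.mk_add_mk, smul_eq_mul, Prod.mk.injEq, Int.cast_add, Int.cast_one]
    refine ⟨?_, ?_, ?_⟩
    · rw [← add_mul, hs, one_mul]
    · rw [← add_mul, hs, one_mul]
    · field_simp; ring
  have hN : (((p : ℝ) * E₁ - A₁) / ((p : ℝ) - 1), ((p : ℝ) * E₂ - A₂) / ((p : ℝ) - 1),
      (((p : ℝ) - 2) * e + t + β) / ((p : ℝ) - 1)) ∈ P := by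
    have hs : ((p : ℝ) - 2) / ((p : ℝ) - 1) + 1 / ((p : ℝ) - 1) = 1 := by
      field_simp; ring
    have := hP hM hB' (div_nonneg hq2.le hq1.le) (div_nonneg zero_le_one hq1.le) hs
    convert this using 1
    simp only [ip, Prod.smul_mk, Prod.mk_add_mk, smul_eq_mul, Prod.mk.injEq]
    push_cast
    refine ⟨?_, ?_, ?_⟩
    · field_simp; ring
    · field_simp; ring
    · field_simp
  have hcast : ((p - 1 : ℕ) : ℝ) = (p : ℝ) - 1 := by
    rw [Nat.cast_sub (by omega)]; simp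
  have hcastZ : ((p - 1 : ℕ) : ℤ) = (p : ℤ) - 1 := by
    rw [Nat.cast_sub (by omega)]; simp
  refine hC (p - 1) (by omega) (by omega) (p * E₁ - A₁) (p * E₂ - A₂) ((p - 2) * e + t + β) _ _ _ hN ?_ ?_ ?_
    ?_ ?_ ?_
  · rw [hcast]; push_cast; field_simp
  · rw [hcast]; push_cast; field_simp
  · rw [hcast]; push_cast; field_simp
  · rw [hcastZ]
    obtain ⟨k, hk⟩ := hA
    exact ⟨E₁ - a + k, by linear_combination hk⟩
  · rw [hcastZ]
    obtain ⟨k, hk⟩ := hB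
    exact ⟨E₂ - b + k, by linear_combination hk⟩
  · rw [hcastZ]
    obtain ⟨k, hk⟩ := ht
    exact ⟨e - c + k, by linear_combination hk⟩

end Pool.Agent.Lib.MP_0bc52e_nt.LC
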