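import Pool.Agent.Lib.MP_0bc52e_nt.LC.StmB

/-! Piece edge2 -/

namespace Pool.Agent.Lib.MP_0bc52e_nt.LC

private lemma p_edge2_three {P : Set (ℝ × ℝ × ℝ)} (hP : Convex ℝ P) {x y z : ℝ × ℝ × ℝ}
    (hx : x ∈ P) (hy : y ∈ P) (hz : z ∈ P) {a b c : ℝ} (ha : 0 ≤ a) (hb : 0 ≤ b) (hc : 0 ≤ c)
    (h : a + b + c = 1) : a • x + b • y + c • z ∈ P := by
  have h1 := hP.sum_mem (t := Finset.univ) (w := ![a, b, c]) (z := ![x, y, z])
    (by intro i _; fin_cases i <;> simp [ha, hb, hc])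
    (by simp [Fin.sum_univ_three, h])
    (by intro i _; fin_cases i <;> simp [hx, hy, hz])
  simpa [Fin.sum_univ_three] using h1

/-- the vertical segment between two points over `E` -/
private lemma p_edge2_seg {P : Set (ℝ × ℝ × ℝ)} (hP : Convex ℝ P) {x y s t r : ℝ}
    (h1 : (x, y, s) ∈ P) (h2 : (x, y, t) ∈ P) (hs : s ≤ r) (ht : r ≤ t) : (x, y, r) ∈ P := by
  rcases eq_or_lt_of_le (hs.trans ht) with h | h
  · have : r = s := le_antisymm (by linarith) hs
    rw [this]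
    exact h1
  · have hd : 0 < t - s := by linarith
    have h3 := hP h1 h2 (a := (t - r) / (t - s)) (b := (r - s) / (t - s))
      (div_nonneg (by linarith) hd.le) (div_nonneg (by linarith) hd.le)
      (by rw [← add_div, div_eq_one_iff_eq hd.ne']; ring)
    convert h3 using 1
    simp only [Prod.smul_mk, Prod.mk_add_mk, smul_eq_mul, Prod.mk.injEq]
    refine ⟨?_, ?_, ?_⟩
    · field_simp; ring
    · field_simp; ring
    · field_simp; ring

/-- the point `A + (p-4) E + 2 B` with height `α + (p-4) k + 2 β` -/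
private lemma p_edge2_crit {P : Set (ℝ × ℝ × ℝ)} {p : ℕ} {a b c A₁ A₂ E₁ E₂ k α β : ℤ}
    (hP : Convex ℝ P) (hp : 5 ≤ p) (hC : Crit3 P p a b c) (h1 : (p : ℤ) ∣ a - A₁)
    (h2 : (p : ℤ) ∣ b - A₂) (hE : ip (E₁, E₂, k) ∈ P) (hA : ip (A₁, A₂, α) ∈ P)
    (hB : ip (2 * E₁ - A₁, 2 * E₂ - A₂, β) ∈ P)
    (h3 : (p : ℤ) ∣ α + (p - 4) * k + 2 * β - (p - 1) * c) : False := by
  have hp' : (5 : ℝ) ≤ p := by exact_mod_cast hp
  have hp1 : (0 : ℝ) < (p : ℝ) - 1 := by linarith
  have hm := p_edge2_three hP hA hE hB (a := 1 / ((p : ℝ) - 1)) (b := ((p : ℝ) - 4) / ((p : ℝ) - 1))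
    (c := 2 / ((p : ℝ) - 1)) (by positivity) (div_nonneg (by linarith) hp1.le) (by positivity)
    (by field_simp; ring)
  have hcast : (((p - 1 : ℕ) : ℕ) : ℝ) = (p : ℝ) - 1 := by
    rw [Nat.cast_sub (by omega)]; norm_num
  have hcastZ : (((p - 1 : ℕ) : ℕ) : ℤ) = (p : ℤ) - 1 := by
    rw [Nat.cast_sub (by omega)]; norm_num
  simp only [ip, Prod.smul_mk, Prod.mk_add_mk, smul_eq_mul] at hm
  refine hC (p - 1) (by omega) (by omega) (p * E₁ - A₁) (p * E₂ - A₂) (α + (p - 4) * k + 2 * β)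
    _ _ _ hm ?_ ?_ ?_ ?_ ?_ ?_
  · rw [hcast]
    push_cast
    field_simp
    ring
  · rw [hcast]
    push_cast
    field_simp
    ring
  · rw [hcast]
    push_cast
    field_simp
  · rw [hcastZ]
    have e : (p : ℤ) * E₁ - A₁ - (p - 1) * a = p * (E₁ - a) + (a - A₁) := by ring
    rw [e]
    exact dvd_add (dvd_mul_right _ _) h1
  · rw [hcastZ]
    have e : (p : ℤ) * E₂ - A₂ - (p - 1) * b = p * (E₂ - b) + (b - A₂) := by ring
    rw [e]
    exact dvd_add (dvd_mul_right _ _) h2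
  · rw [hcastZ]
    exact h3

theorem p_edge2 (h_edge : S_edge) : S_edge2 := by
  intro P p a b c A₁ A₂ E₁ E₂ e α β hP hp hC h1 h2 hE hE' hcol hA hB
  have hedge := h_edge P p a b c A₁ A₂ E₁ E₂ e β hP (by omega) hC h1 h2 hE hE' hB
  by_contra hodd
  obtain ⟨g, hg⟩ : ∃ g : ℤ, α + β = 2 * g + 1 := ⟨(α + β) / 2, by omega⟩
  have hgR : (α : ℝ) + β = 2 * g + 1 := by exact_mod_cast hg
  -- the midpoint
  have hmid : ((E₁ : ℝ), (E₂ : ℝ), (g : ℝ) + 1 / 2) ∈ P := by
    have h3 := hP hA hB (a := 1 / 2) (b := 1 / 2) (by norm_num) (by norm_num) (by norm_num)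
    simp only [ip, Prod.smul_mk, Prod.mk_add_mk, smul_eq_mul] at h3
    convert h3 using 1
    simp only [Prod.mk.injEq]
    refine ⟨?_, ?_, ?_⟩
    · push_cast; ring
    · push_cast; ring
    · linarith
  have hlo : ¬ g ≤ e - 2 := by
    intro h
    have hR : (g : ℝ) ≤ e - 2 := by exact_mod_cast h
    have h3 : ip (E₁, E₂, e - 1) ∈ P := by
      have h4 := p_edge2_seg hP hmid hE (r := (e : ℝ) - 1) (by linarith) (by linarith)
      simpa [ip] using h4
    rcases hcol _ h3 with h5 | h5 <;> omega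
  have hhi : ¬ e + 2 ≤ g := by
    intro h
    have hR : (e : ℝ) + 2 ≤ g := by exact_mod_cast h
    have h3 : ip (E₁, E₂, e + 2) ∈ P := by
      have h4 := p_edge2_seg hP hE hmid (r := (e : ℝ) + 2) (by linarith) (by linarith)
      simpa [ip] using h4
    rcases hcol _ h3 with h5 | h5 <;> omega
  have hcase : g = e ∨ g = e - 1 ∨ g = e + 1 := by omega
  rcases hcase with h | h | h
  · -- `α ≡ c`
    refine hC 1 one_pos (by omega) A₁ A₂ α _ _ _ hA (by simp) (by simp) (by simp) ?_ ?_ ?_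
    · have e1 : A₁ - ((1 : ℕ) : ℤ) * a = -(a - A₁) := by push_cast; ring
      rw [e1]
      exact (dvd_neg).2 h1
    · have e1 : A₂ - ((1 : ℕ) : ℤ) * b = -(b - A₂) := by push_cast; ring
      rw [e1]
      exact (dvd_neg).2 h2
    · have e1 : α - ((1 : ℕ) : ℤ) * c = -(c + β - (2 * e + 1)) := by
        push_cast
        rw [h] at hg
        linarith
      rw [e1]
      exact (dvd_neg).2 hedge
  · refine p_edge2_crit hP hp hC h1 h2 hE hA hB ?_
    have e1 : α + ((p : ℤ) - 4) * e + 2 * β - (p - 1) * c =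
        p * (e - c) + (c + β - (2 * e + 1)) := by
      rw [h] at hg
      have : α = 2 * (e - 1) + 1 - β := by linarith
      rw [this]
      ring
    rw [e1]
    exact dvd_add (dvd_mul_right _ _) hedge
  · refine p_edge2_crit hP hp hC h1 h2 hE' hA hB ?_
    have e1 : α + ((p : ℤ) - 4) * (e + 1) + 2 * β - (p - 1) * c =
        p * (e + 1 - c) + (c + β - (2 * e + 1)) := by
      rw [h] at hg
      have : α = 2 * (e + 1) + 1 - β := by linarith
      rw [this]
      ring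
    rw [e1]
    exact dvd_add (dvd_mul_right _ _) hedge

end Pool.Agent.Lib.MP_0bc52e_nt.LC
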