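import Pool.Agent.Lib.MP_0bc52e_nt.LC.StmC

/-! Piece [sail eqvip]. -/

namespace Pool.Agent.Lib.MP_0bc52e_nt.LC

theorem p_eqvip : S_eqvip := by
  rintro d P P' ⟨g, hg, hI, rfl⟩
  constructor
  · rintro ⟨V, hV, hVI, rfl⟩
    refine ⟨g '' V, hV.image g, ?_, ?_⟩
    · rintro _ ⟨v, hv, rfl⟩
      exact (hI v).2 (hVI v hv)
    · exact g.image_convexHull V
  · intro h
    have hlin : Function.Injective g.linear := g.linear_injective_iff.2 hg
    have hbij : Function.Bijective g :=
      g.linear_bijective_iff.1 ⟨hlin, LinearMap.injective_iff_surjective.1 hlin⟩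
    unfold IsFullDimensional at h ⊢
    rw [← AffineSubspace.map_span, h, eq_top_iff]
    intro x _
    obtain ⟨y, rfl⟩ := hbij.surjective x
    exact AffineSubspace.mem_map_of_mem g (AffineSubspace.mem_top ℝ _ y)

end Pool.Agent.Lib.MP_0bc52e_nt.LC
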