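import Pool.Agent.Lib.MP_0bc52e_nt.LC.StmC

/-! Piece [sail eqvsymm]. -/

namespace Pool.Agent.Lib.MP_0bc52e_nt.LC

theorem p_eqvsymm : S_eqvsymm := by
  constructor
  · rintro d P P' ⟨g, hg, hI, rfl⟩
    have hlin : Function.Injective g.linear := g.linear_injective_iff.2 hg
    have hbij : Function.Bijective g :=
      g.linear_bijective_iff.1 ⟨hlin, LinearMap.injective_iff_surjective.1 hlin⟩
    let e := AffineEquiv.ofBijective hbij
    have he : ∀ x, e x = g x := fun x => rfl
    refine ⟨e.symm.toAffineMap, e.symm.injective, ?_, ?_⟩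
    · intro x
      rw [AffineEquiv.coe_toAffineMap, ← hI, ← he, AffineEquiv.apply_symm_apply]
    · ext x
      simp only [Set.mem_image, AffineEquiv.coe_toAffineMap]
      constructor
      · rintro ⟨_, ⟨y, hy, rfl⟩, rfl⟩
        rw [← he, AffineEquiv.symm_apply_apply]
        exact hy
      · intro hx
        exact ⟨g x, ⟨x, hx, rfl⟩, by rw [← he, AffineEquiv.symm_apply_apply]⟩
  · intro d P
    refine ⟨AffineMap.id ℝ _, fun x y h => h, fun x => Iff.rfl, ?_⟩
    simp

end Pool.Agent.Lib.MP_0bc52e_nt.LC
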