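import Pool.Agent.Lib.MP_0bc52e_nt.LC.StmC

/-! Piece [sail eqvtrans]. -/

namespace Pool.Agent.Lib.MP_0bc52e_nt.LC

theorem p_eqvtrans : S_eqvtrans := by
  rintro d N P P' F ⟨g, hg, hI, rfl⟩ ⟨f, hf, hJ, rfl⟩
  refine ⟨f.comp g, ?_, ?_, ?_⟩
  · rw [AffineMap.coe_comp]
    exact hf.comp hg
  · intro x
    rw [AffineMap.comp_apply, hJ, hI]
  · rw [AffineMap.coe_comp, Set.image_comp]

end Pool.Agent.Lib.MP_0bc52e_nt.LC
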