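import Pool.Agent.Lib.MP_0bc52e_nt.LC.StmA

namespace Pool.Agent.Lib.MP_0bc52e_nt.LC

theorem p_face : S_face := by
  intro V P hP α β γ hnn hex
  by_contra hcon
  push Not at hcon
  obtain ⟨v, hv, hv0⟩ := hex
  have hconv : Convex ℝ {v : ℝ × ℝ × ℝ | 0 < (α : ℝ) * v.1 + β * v.2.1 + γ} := by
    intro x hx y hy a b ha hb hab
    simp only [Set.mem_setOf_eq] at hx hy ⊢
    simp only [Prod.fst_add, Prod.snd_add, Prod.smul_fst, Prod.smul_snd, smul_eq_mul]
    have h1 : (α : ℝ) * (a * x.1 + b * y.1) + β * (a * x.2.1 + b * y.2.1) + γ =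
        a * (α * x.1 + β * x.2.1 + γ) + b * (α * y.1 + β * y.2.1 + γ) := by
      have : (γ : ℝ) = (a + b) * γ := by rw [hab, one_mul]
      linear_combination this
    rw [h1]
    rcases ha.eq_or_lt with h | h
    · have hb1 : b = 1 := by linarith
      rw [← h, hb1]; linarith
    · have := mul_pos h hx
      have := mul_nonneg hb hy.le
      linarith
  have hsub : P ⊆ {v : ℝ × ℝ × ℝ | 0 < (α : ℝ) * v.1 + β * v.2.1 + γ} := by
    rw [hP]
    refine convexHull_min ?_ hconv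
    rintro _ ⟨w, hw, rfl⟩
    have hwP : ip w ∈ P := by
      rw [hP]; exact subset_convexHull ℝ _ ⟨w, hw, rfl⟩
    have h1 := hnn _ hwP
    have h2 := hcon w hw
    have h3 : (α : ℝ) * (ip w).1 + β * (ip w).2.1 + γ = ((α * w.1 + β * w.2.1 + γ : ℤ) : ℝ) := by
      simp [ip]
    simp only [Set.mem_setOf_eq]
    rw [h3] at h1 ⊢
    have h4 : (0 : ℤ) ≤ α * w.1 + β * w.2.1 + γ := by exact_mod_cast h1
    have h5 : (0 : ℤ) < α * w.1 + β * w.2.1 + γ := lt_of_le_of_ne h4 (Ne.symm h2)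
    exact_mod_cast h5
  have := hsub hv
  simp only [Set.mem_setOf_eq] at this
  linarith

end Pool.Agent.Lib.MP_0bc52e_nt.LC
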