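import Pool.Agent.Lib.MP_0bc52e_nt.LC.StmC

open scoped Pointwise

namespace Pool.Agent.Lib.MP_0bc52e_nt.LC

/-- The linear inequalities satisfied by the points of `famS c s t`. -/
private def p_famcrit_S (c M : ℝ) : Set (Fin 3 → ℝ) :=
  {v | 0 ≤ v 0 ∧ v 0 ≤ 1 ∧ 0 ≤ v 1 ∧ v 1 ≤ 2 - v 0 ∧ -(M * v 1) ≤ v 2 ∧ v 2 ≤ v 0 + M * v 1 ∧
    c * (1 - v 0) - M * (2 - v 0 - v 1) ≤ v 2 ∧ v 2 ≤ c * (1 - v 0) + v 0 + M * (2 - v 0 - v 1)}

private lemma p_famcrit_conv (c M : ℝ) : Convex ℝ (p_famcrit_S c M) := by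
  intro x hx y hy a b ha hb hab
  obtain ⟨x1, x2, x3, x4, x5, x6, x7, x8⟩ := hx
  obtain ⟨y1, y2, y3, y4, y5, y6, y7, y8⟩ := hy
  obtain rfl : b = 1 - a := by linarith
  simp only [p_famcrit_S, Set.mem_ofPred_eq, Pi.add_apply, Pi.smul_apply, smul_eq_mul]
  refine ⟨?_, ?_, ?_, ?_, ?_, ?_, ?_, ?_⟩
  · linarith [mul_le_mul_of_nonneg_left x1 ha, mul_le_mul_of_nonneg_left y1 hb]
  · linarith [mul_le_mul_of_nonneg_left x2 ha, mul_le_mul_of_nonneg_left y2 hb]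
  · linarith [mul_le_mul_of_nonneg_left x3 ha, mul_le_mul_of_nonneg_left y3 hb]
  · linarith [mul_le_mul_of_nonneg_left x4 ha, mul_le_mul_of_nonneg_left y4 hb]
  · linarith [mul_le_mul_of_nonneg_left x5 ha, mul_le_mul_of_nonneg_left y5 hb]
  · linarith [mul_le_mul_of_nonneg_left x6 ha, mul_le_mul_of_nonneg_left y6 hb]
  · linarith [mul_le_mul_of_nonneg_left x7 ha, mul_le_mul_of_nonneg_left y7 hb]
  · linarith [mul_le_mul_of_nonneg_left x8 ha, mul_le_mul_of_nonneg_left y8 hb]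

private lemma p_famcrit_sub (c s t : ℤ) :
    famS c s t ⊆ p_famcrit_S (c : ℝ) (((|c| + |s| + |t| + 2 : ℤ)) : ℝ) := by
  refine convexHull_min ?_ (p_famcrit_conv _ _)
  have hc1 : (c : ℝ) ≤ ((|c| : ℤ) : ℝ) := by exact_mod_cast le_abs_self c
  have hc2 : -(c : ℝ) ≤ ((|c| : ℤ) : ℝ) := by exact_mod_cast neg_le_abs c
  have hs1 : (s : ℝ) ≤ ((|s| : ℤ) : ℝ) := by exact_mod_cast le_abs_self s
  have hs2 : -(s : ℝ) ≤ ((|s| : ℤ) : ℝ) := by exact_mod_cast neg_le_abs s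
  have ht1 : (t : ℝ) ≤ ((|t| : ℤ) : ℝ) := by exact_mod_cast le_abs_self t
  have ht2 : -(t : ℝ) ≤ ((|t| : ℤ) : ℝ) := by exact_mod_cast neg_le_abs t
  have hc0 : (0 : ℝ) ≤ ((|c| : ℤ) : ℝ) := by exact_mod_cast abs_nonneg c
  have hs0 : (0 : ℝ) ≤ ((|s| : ℤ) : ℝ) := by exact_mod_cast abs_nonneg s
  have ht0 : (0 : ℝ) ≤ ((|t| : ℤ) : ℝ) := by exact_mod_cast abs_nonneg t
  intro v hv
  simp only [Set.mem_insert_iff, Set.mem_singleton_iff] at hv
  simp only [Int.cast_add, Int.cast_ofNat]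
  generalize ((|c| : ℤ) : ℝ) = C at *
  generalize ((|s| : ℤ) : ℝ) = S at *
  generalize ((|t| : ℤ) : ℝ) = T at *
  rcases hv with rfl | rfl | rfl | rfl | rfl | rfl | rfl | rfl <;>
  · simp only [p_famcrit_S, Set.mem_ofPred_eq, Matrix.cons_val_zero, Matrix.cons_val_one,
      Matrix.cons_val]
    refine ⟨?_, ?_, ?_, ?_, ?_, ?_, ?_, ?_⟩ <;> linarith

theorem p_famcrit : S_famcrit := by
  intro c s t h hc
  refine ⟨![2, 0, 1], ?_⟩
  intro j hj0 hjh x hx hdiv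
  obtain ⟨v, hv, hvx⟩ := hx
  obtain ⟨h1, h2, h3, h4, h5, h6, h7, h8⟩ := p_famcrit_sub c s t hv
  have e0 : (x 0 : ℝ) = j * v 0 := by
    have := congrFun hvx 0
    simpa using this.symm
  have e1 : (x 1 : ℝ) = j * v 1 := by
    have := congrFun hvx 1
    simpa using this.symm
  have e2 : (x 2 : ℝ) = j * v 2 := by
    have := congrFun hvx 2
    simpa using this.symm
  have hj : (0 : ℝ) ≤ (j : ℝ) := by positivity
  set M : ℤ := |c| + |s| + |t| + 2 with hM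
  -- the homogenised inequalities, over the integers
  have i1 : (0 : ℤ) ≤ x 0 := by
    have : (0 : ℝ) ≤ (x 0 : ℝ) := by rw [e0]; exact mul_nonneg hj h1
    exact_mod_cast this
  have i2 : x 0 ≤ (j : ℤ) := by
    have : (x 0 : ℝ) ≤ (j : ℝ) := by rw [e0]; linarith [mul_le_mul_of_nonneg_left h2 hj]
    exact_mod_cast this
  have i3 : (0 : ℤ) ≤ x 1 := by
    have : (0 : ℝ) ≤ (x 1 : ℝ) := by rw [e1]; exact mul_nonneg hj h3
    exact_mod_cast this
  have i4 : x 1 ≤ 2 * (j : ℤ) - x 0 := by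
    have : (x 1 : ℝ) ≤ 2 * (j : ℝ) - (x 0 : ℝ) := by
      rw [e0, e1]; linarith [mul_le_mul_of_nonneg_left h4 hj]
    exact_mod_cast this
  have i5 : -(M * x 1) ≤ x 2 := by
    have : -((M : ℝ) * (x 1 : ℝ)) ≤ (x 2 : ℝ) := by
      rw [e1, e2]; linarith [mul_le_mul_of_nonneg_left h5 hj]
    exact_mod_cast this
  have i6 : x 2 ≤ x 0 + M * x 1 := by
    have : (x 2 : ℝ) ≤ (x 0 : ℝ) + (M : ℝ) * (x 1 : ℝ) := by
      rw [e0, e1, e2]; linarith [mul_le_mul_of_nonneg_left h6 hj]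
    exact_mod_cast this
  have i7 : c * ((j : ℤ) - x 0) - M * (2 * j - x 0 - x 1) ≤ x 2 := by
    have : (c : ℝ) * ((j : ℝ) - x 0) - M * (2 * j - x 0 - x 1) ≤ (x 2 : ℝ) := by
      rw [e0, e1, e2]; linarith [mul_le_mul_of_nonneg_left h7 hj]
    exact_mod_cast this
  have i8 : x 2 ≤ c * ((j : ℤ) - x 0) + x 0 + M * (2 * j - x 0 - x 1) := by
    have : (x 2 : ℝ) ≤ (c : ℝ) * ((j : ℝ) - x 0) + x 0 + M * (2 * j - x 0 - x 1) := by
      rw [e0, e1, e2]; linarith [mul_le_mul_of_nonneg_left h8 hj]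
    exact_mod_cast this
  have d0 := hdiv 0
  have d1 := hdiv 1
  have d2 := hdiv 2
  simp only [Matrix.cons_val_zero, Matrix.cons_val_one, Matrix.cons_val, mul_zero, sub_zero,
    mul_one] at d0 d1 d2
  have hj0' : (0 : ℤ) < (j : ℤ) := by exact_mod_cast hj0
  have hjh' : (j : ℤ) < (h : ℤ) := by exact_mod_cast hjh
  have hh : (0 : ℤ) < (h : ℤ) := by linarith
  obtain ⟨k, hk⟩ := d0
  have hk1 : k < 0 := by
    by_contra hcon
    have := mul_nonneg hh.le (not_lt.1 hcon)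
    linarith
  have hk2 : -2 < k := by
    by_contra hcon
    have := mul_le_mul_of_nonneg_left (not_lt.1 hcon) hh.le
    linarith
  obtain rfl : k = -1 := by omega
  have hx0 : x 0 = 2 * (j : ℤ) - h := by linarith
  obtain ⟨l, hl⟩ := d1
  have hl1 : 0 ≤ l := by
    by_contra hcon
    have : l ≤ -1 := by omega
    have := mul_le_mul_of_nonneg_left this hh.le
    linarith
  have hl2 : l ≤ 1 := by
    by_contra hcon
    have : 2 ≤ l := by omega
    have := mul_le_mul_of_nonneg_left this hh.le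
    linarith
  obtain ⟨m, hm⟩ := d2
  obtain rfl | rfl : l = 0 ∨ l = 1 := by omega
  · rw [mul_zero] at hl
    rw [hl, mul_zero] at i5 i6
    have hm1 : m < 0 := by
      by_contra hcon
      have := mul_nonneg hh.le (not_lt.1 hcon)
      linarith
    have : m ≤ -1 := by omega
    have := mul_le_mul_of_nonneg_left this hh.le
    linarith
  · rw [mul_one] at hl
    obtain ⟨c', rfl⟩ := hc
    have hz : 2 * (j : ℤ) - x 0 - x 1 = 0 := by rw [hx0, hl]; ring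
    rw [hz, mul_zero] at i7 i8
    have hjx : (j : ℤ) - x 0 = h - j := by rw [hx0]; ring
    rw [hjx] at i7 i8
    have hm' : x 2 - (h : ℤ) * c' * (h - j) - j = h * (m - c' * (h - j)) := by
      linear_combination hm
    have hm1 : m - c' * (h - j) < 0 := by
      by_contra hcon
      have := mul_nonneg hh.le (not_lt.1 hcon)
      linarith
    have : m - c' * (h - j) ≤ -1 := by omega
    have := mul_le_mul_of_nonneg_left this hh.le
    linarith

end Pool.Agent.Lib.MP_0bc52e_nt.LC
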