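import Pool.Agent.Lib.MP_0bc52e_nt.LC.StmC

open scoped Pointwise

namespace Pool.Agent.Lib.MP_0bc52e_nt.LC

private theorem p_famint_int (x y z : ℤ) : IsIntVec ![(x : ℝ), (y : ℝ), (z : ℝ)] := by
  intro i
  fin_cases i
  · exact ⟨x, rfl⟩
  · exact ⟨y, rfl⟩
  · exact ⟨z, rfl⟩

theorem p_famint : S_famint := by
  intro c s t
  refine ⟨⟨_, ?_, ?_, rfl⟩, ?_⟩
  · exact Set.toFinite _
  · intro v hv
    simp only [Set.mem_insert_iff, Set.mem_singleton_iff] at hv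
    rcases hv with rfl | rfl | rfl | rfl | rfl | rfl | rfl | rfl
    · simpa using p_famint_int 0 0 0
    · simpa using p_famint_int 0 2 c
    · simpa using p_famint_int 1 0 0
    · simpa using p_famint_int 1 0 1
    · simpa using p_famint_int 1 1 0
    · simpa using p_famint_int 1 1 1
    · simpa using p_famint_int 0 1 s
    · simpa using p_famint_int 0 1 t
  · unfold IsFullDimensional famS
    rw [affineSpan_convexHull]
    set S : Set (Fin 3 → ℝ) := {![0, 0, 0], ![0, 2, (c : ℝ)], ![1, 0, 0], ![1, 0, 1], ![1, 1, 0], ![1, 1, 1],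
      ![0, 1, (s : ℝ)], ![0, 1, (t : ℝ)]} with hS
    have h1 : (![0, 0, 0] : Fin 3 → ℝ) ∈ affineSpan ℝ S := subset_affineSpan ℝ _ (by rw [hS]; simp)
    have h3 : (![1, 0, 0] : Fin 3 → ℝ) ∈ affineSpan ℝ S := subset_affineSpan ℝ _ (by rw [hS]; simp)
    have h4 : (![1, 0, 1] : Fin 3 → ℝ) ∈ affineSpan ℝ S := subset_affineSpan ℝ _ (by rw [hS]; simp)
    have h5 : (![1, 1, 0] : Fin 3 → ℝ) ∈ affineSpan ℝ S := subset_affineSpan ℝ _ (by rw [hS]; simp)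
    rw [eq_top_iff]
    intro x _
    have e1 := AffineSubspace.smul_vsub_vadd_mem (affineSpan ℝ S) (x 0) h3 h1 h1
    have e2 := AffineSubspace.smul_vsub_vadd_mem (affineSpan ℝ S) (x 1) h5 h3 e1
    have e3 := AffineSubspace.smul_vsub_vadd_mem (affineSpan ℝ S) (x 2) h4 h3 e2
    have e : x = x 2 • ((![1, 0, 1] : Fin 3 → ℝ) -ᵥ ![1, 0, 0]) +ᵥ (x 1 • ((![1, 1, 0] : Fin 3 → ℝ) -ᵥ ![1, 0, 0]) +ᵥ
        (x 0 • ((![1, 0, 0] : Fin 3 → ℝ) -ᵥ ![0, 0, 0]) +ᵥ (![0, 0, 0] : Fin 3 → ℝ))) := by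
      funext i
      fin_cases i <;> simp
    rw [e]
    exact e3

end Pool.Agent.Lib.MP_0bc52e_nt.LC
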