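import Pool.Agent.Lib.MP_0bc52e_nt.LC.StmC

/-!
Piece `[fin]`: finitely many classes of integer polytopes of bounded volume.
-/

open MeasureTheory

namespace Pool.Agent.Lib.MP_0bc52e_nt.LC

private def p_fin_c (v : Fin 3 → ℤ) : Fin 3 → ℝ := fun i => (v i : ℝ)

private lemma p_fin_repr {P : Set (Fin 3 → ℝ)} (hP : IsIntegerPolytope P) :
    ∃ V : Finset (Fin 3 → ℤ), P = convexHull ℝ (p_fin_c '' (V : Set (Fin 3 → ℤ))) := by
  classical
  obtain ⟨V0, hfin, hint, rfl⟩ := hP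
  refine ⟨hfin.toFinset.image (fun v i => ⌊v i⌋), ?_⟩
  congr 1
  ext v
  simp only [Finset.coe_image, Set.Finite.coe_toFinset, Set.mem_image, exists_exists_and_eq_and]
  have key : ∀ a ∈ V0, p_fin_c (fun i => ⌊a i⌋) = a := by
    intro a ha
    funext i
    obtain ⟨k, hk⟩ := hint a ha i
    simp [p_fin_c, hk]
  constructor
  · intro hv
    exact ⟨v, hv, key v hv⟩
  · rintro ⟨a, ha, rfl⟩
    rw [key a ha]; exact ha

/-- The type of integers of absolute value at most `K`. -/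
private abbrev p_fin_I (K : ℕ) : Type := {z : ℤ // |z| ≤ K}

private lemma p_fin_finI (K : ℕ) : Finite (p_fin_I K) := by
  have : (Set.Icc (-(K : ℤ)) K).Finite := Set.finite_Icc _ _
  have h2 : Finite (Set.Icc (-(K : ℤ)) K) := this
  refine Finite.of_injective (fun z : p_fin_I K => (⟨z.1, abs_le.mp z.2⟩ : Set.Icc (-(K : ℤ)) K)) ?_
  intro a b hab
  simp only [Subtype.mk.injEq] at hab
  exact Subtype.ext hab

private abbrev p_fin_D (K : ℕ) : Type :=
  p_fin_I K × Set (Fin 3 → p_fin_I K) × Set (Fin 3 → p_fin_I K)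

private def p_fin_Q (K : ℕ) (d : p_fin_D K) (P : Set (Fin 3 → ℝ)) : Prop :=
  ∃ (V : Finset (Fin 3 → ℤ)) (v₀ : Fin 3 → ℤ) (W : Matrix (Fin 3) (Fin 3) ℤ),
    P = convexHull ℝ (p_fin_c '' (V : Set (Fin 3 → ℤ))) ∧ W.det ≠ 0 ∧ W.det = d.1 ∧
    (∀ m : Fin 3 → p_fin_I K, m ∈ d.2.1 ↔ ∀ i, W.det ∣ W.mulVec (fun j => (m j : ℤ)) i) ∧
    (∀ n : Fin 3 → p_fin_I K, n ∈ d.2.2 ↔
      ∃ x ∈ V, ∀ i, W.det * (x i - v₀ i) = W.mulVec (fun j => (n j : ℤ)) i) ∧
    ∀ x ∈ V, ∃ n : Fin 3 → ℤ, (∀ i, |n i| ≤ |W.det|) ∧ ∀ i, W.det * (x i - v₀ i) = W.mulVec n i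

private lemma p_fin_emod (W : Matrix (Fin 3) (Fin 3) ℤ) (D : ℤ) (n : Fin 3 → ℤ) :
    (∀ i, D ∣ W.mulVec n i) ↔ ∀ i, D ∣ W.mulVec (fun j => n j % D) i := by
  have h : n = (fun j => n j % D) + D • (fun j => n j / D) := by
    funext j
    simp only [Pi.add_apply, Pi.smul_apply, smul_eq_mul]
    exact (Int.emod_add_mul_ediv (n j) D).symm
  have h2 : ∀ i, W.mulVec n i = W.mulVec (fun j => n j % D) i + D * W.mulVec (fun j => n j / D) i := by
    intro i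
    conv_lhs => rw [h]
    rw [Matrix.mulVec_add, Matrix.mulVec_smul]
    simp
  constructor
  · intro H i
    have := H i
    rw [h2] at this
    exact (Int.dvd_add_left (Dvd.intro _ rfl)).mp this
  · intro H i
    rw [h2]
    exact (Int.dvd_add_left (Dvd.intro _ rfl)).mpr (H i)

private lemma p_fin_equiv (h_F2 : S_F2) (K : ℕ) (d : p_fin_D K) (P P' : Set (Fin 3 → ℝ))
    (hP : p_fin_Q K d P) (hP' : p_fin_Q K d P') : IntegerEquivalent P P' := by
  obtain ⟨V, v₀, W, rfl, hW0, hWd, hR, hN, hV⟩ := hP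
  obtain ⟨V', v₀', W', rfl, hW0', hWd', hR', hN', hV'⟩ := hP'
  have hdet : W'.det = W.det := by rw [hWd, hWd']
  have hK : |W.det| ≤ K := by rw [hWd]; exact d.1.2
  refine h_F2 V V' v₀ v₀' W W' hW0 hdet ?_ hV hV' ?_
  · intro n
    rw [p_fin_emod W, p_fin_emod W']
    have hm : ∀ j, |n j % W.det| ≤ K := by
      intro j
      have h1 : 0 ≤ n j % W.det := Int.emod_nonneg _ hW0
      have h2 : n j % W.det < |W.det| := Int.emod_lt_abs _ hW0
      rw [abs_of_nonneg h1]; omega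
    have e1 := hR (fun j => ⟨n j % W.det, hm j⟩)
    have e2 := hR' (fun j => ⟨n j % W.det, hm j⟩)
    rw [hdet] at e2
    exact e1.symm.trans e2
  · intro n hn
    have hm : ∀ j, |n j| ≤ K := fun j => (hn j).trans hK
    have e1 := hN (fun j => ⟨n j, hm j⟩)
    have e2 := hN' (fun j => ⟨n j, hm j⟩)
    exact e1.symm.trans e2

private lemma p_fin_data (h_F1 : S_F1) (h_F1vol : S_F1vol) (B : ℝ) (K : ℕ) (hK : 27 * B ≤ K)
    (P : Set (Fin 3 → ℝ)) (hP : IsIntegerPolytope P) (hfull : IsFullDimensional P)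
    (hvol : volume P ≤ ENNReal.ofReal B) : ∃ d : p_fin_D K, p_fin_Q K d P := by
  classical
  obtain ⟨V, rfl⟩ := p_fin_repr hP
  have hspan : affineSpan ℝ ((fun v : Fin 3 → ℤ => (fun i => (v i : ℝ))) '' (V : Set (Fin 3 → ℤ)))
      = ⊤ := by
    have := hfull
    unfold IsFullDimensional at this
    rw [affineSpan_convexHull] at this
    exact this
  obtain ⟨v₀, hv₀, W, hW0, hWV, hV⟩ := h_F1 V hspan
  have hsub := subset_convexHull ℝ (p_fin_c '' (V : Set (Fin 3 → ℤ)))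
  have hle := h_F1vol (convexHull ℝ (p_fin_c '' (V : Set (Fin 3 → ℤ)))) v₀ W
    (convex_convexHull _ _) (hsub ⟨v₀, hv₀, rfl⟩) (fun j => hsub ⟨_, hWV j, rfl⟩)
  have hle2 : ENNReal.ofReal (|W.det| : ℤ) ≤ ENNReal.ofReal K := by
    refine hle.trans ?_
    have h27 : (27 : ENNReal) = ENNReal.ofReal 27 := by simp
    calc 27 * volume (convexHull ℝ (p_fin_c '' (V : Set (Fin 3 → ℤ))))
        ≤ 27 * ENNReal.ofReal B := by gcongr
      _ = ENNReal.ofReal (27 * B) := by rw [ENNReal.ofReal_mul (by norm_num), h27]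
      _ ≤ ENNReal.ofReal K := ENNReal.ofReal_le_ofReal hK
  rw [ENNReal.ofReal_le_ofReal_iff (by positivity)] at hle2
  have hle3 : |W.det| ≤ K := by exact_mod_cast hle2
  refine ⟨(⟨W.det, hle3⟩, {m | ∀ i, W.det ∣ W.mulVec (fun j => (m j : ℤ)) i},
    {n | ∃ x ∈ V, ∀ i, W.det * (x i - v₀ i) = W.mulVec (fun j => (n j : ℤ)) i}),
    V, v₀, W, rfl, hW0, rfl, fun m => Iff.rfl, fun n => Iff.rfl, hV⟩

theorem p_fin (h_F1 : S_F1) (h_F1vol : S_F1vol) (h_F2 : S_F2) : S_fin := by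
  classical
  intro B
  obtain ⟨K, hK⟩ := exists_nat_ge (27 * B)
  have hI := p_fin_finI K
  have hD : Finite (p_fin_D K) := inferInstance
  let C : Set (Fin 3 → ℝ) → Prop := fun P =>
    IsIntegerPolytope P ∧ IsFullDimensional P ∧ volume P ≤ ENNReal.ofReal B
  let f : p_fin_D K → Set (Fin 3 → ℝ) := fun d =>
    if h : ∃ P, C P ∧ p_fin_Q K d P then h.choose else ∅
  refine ⟨{P | C P ∧ ∃ d, p_fin_Q K d P ∧ f d = P}, ?_, ?_, ?_⟩
  · refine (Set.finite_range f).subset ?_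
    rintro P ⟨-, d, -, rfl⟩
    exact ⟨d, rfl⟩
  · rintro P ⟨h, -⟩
    exact h
  · intro P h1 h2 h3
    obtain ⟨d, hd⟩ := p_fin_data h_F1 h_F1vol B K hK P h1 h2 h3
    have hex : ∃ P, C P ∧ p_fin_Q K d P := ⟨P, ⟨h1, h2, h3⟩, hd⟩
    have hf : f d = hex.choose := dif_pos hex
    refine ⟨f d, ⟨?_, d, ?_, rfl⟩, ?_⟩
    · rw [hf]; exact hex.choose_spec.1
    · rw [hf]; exact hex.choose_spec.2
    · rw [hf]; exact p_fin_equiv h_F2 K d P _ hd hex.choose_spec.2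

end Pool.Agent.Lib.MP_0bc52e_nt.LC
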