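import Pool.Agent.Lib.MP_0bc52e_nt.LC.StmA

/-!
# Piece `fourth`: the triangle `(0,0), (1,0), (0,1)` plus a point of the fourth class
-/

set_option autoImplicit false

namespace Pool.Agent.Lib.MP_0bc52e_nt.LC

private def p_fourth_T (Q : Set (ℝ × ℝ)) (a b : ℤ) : Prop :=
  Convex ℝ Q ∧ ((0 : ℝ), (0 : ℝ)) ∈ Q ∧ ((1 : ℝ), (0 : ℝ)) ∈ Q ∧ ((0 : ℝ), (1 : ℝ)) ∈ Q ∧
    ((a : ℝ), (b : ℝ)) ∈ Q

private def p_fourth_R (Q : Set (ℝ × ℝ)) : Prop :=
  ∃ g : ℝ × ℝ → ℝ × ℝ, IsUM g ∧ (W3 (g '' Q) ∨ S4 (g '' Q))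

private lemma p_fourth_map (h_um : S_um) {Q : Set (ℝ × ℝ)} {g : ℝ × ℝ → ℝ × ℝ} (hg : IsUM g)
    (h : p_fourth_R (g '' Q)) : p_fourth_R Q := by
  obtain ⟨g', hg', h'⟩ := h
  refine ⟨g' ∘ g, h_um.1 g g' hg hg', ?_⟩
  rwa [Set.image_comp]

private lemma p_fourth_c3 {Q : Set (ℝ × ℝ)} (hQ : Convex ℝ Q) {u₁ u₂ v₁ v₂ w₁ w₂ α β γ : ℝ}
    (hu : (u₁, u₂) ∈ Q) (hv : (v₁, v₂) ∈ Q) (hw : (w₁, w₂) ∈ Q) (hα : 0 ≤ α) (hβ : 0 ≤ β)
    (hγ : 0 ≤ γ) (h1 : α + β + γ = 1) {x y : ℝ} (hx : x = α * u₁ + β * v₁ + γ * w₁)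
    (hy : y = α * u₂ + β * v₂ + γ * w₂) : (x, y) ∈ Q := by
  have h := hQ.sum_mem (t := (Finset.univ : Finset (Fin 3))) (w := ![α, β, γ])
    (z := ![(u₁, u₂), (v₁, v₂), (w₁, w₂)])
    (by intro i _; fin_cases i <;> simpa) (by simp [Fin.sum_univ_three, h1])
    (by intro i _; fin_cases i <;> simpa)
  rw [Fin.sum_univ_three] at h
  have e : (x, y) = α • (u₁, u₂) + β • (v₁, v₂) + γ • (w₁, w₂) := by
    ext
    · simp [hx]
    · simp [hy]
  rw [e]
  simpa using h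

private def p_fourth_sw (v : ℝ × ℝ) : ℝ × ℝ := (v.2, v.1)

private lemma p_fourth_sw_um : IsUM p_fourth_sw := by
  refine ⟨0, 1, 1, 0, 0, 0, Or.inr (by norm_num), fun v => ?_⟩
  unfold p_fourth_sw
  ext <;> simp

private def p_fourth_g1 (v : ℝ × ℝ) : ℝ × ℝ := (v.1 + 1 - v.2, v.2)

private lemma p_fourth_g1_um : IsUM p_fourth_g1 := by
  refine ⟨1, -1, 0, 1, 1, 0, Or.inl (by norm_num), fun v => ?_⟩
  unfold p_fourth_g1
  ext
  · simp
    ring
  · simp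

private def p_fourth_g2 (v : ℝ × ℝ) : ℝ × ℝ := (v.1, 1 - v.1 - v.2)

private lemma p_fourth_g2_um : IsUM p_fourth_g2 := by
  refine ⟨1, 0, -1, -1, 0, 1, Or.inr (by norm_num), fun v => ?_⟩
  unfold p_fourth_g2
  ext
  · simp
  · simp
    ring

private def p_fourth_g3 (v : ℝ × ℝ) : ℝ × ℝ := (1 - v.1 - v.2, v.2)

private lemma p_fourth_g3_um : IsUM p_fourth_g3 := by
  refine ⟨-1, -1, 0, 1, 1, 0, Or.inr (by norm_num), fun v => ?_⟩
  unfold p_fourth_g3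
  ext
  · simp
    ring
  · simp

private lemma p_fourth_sw_T (h_umconv : S_umconv) {Q : Set (ℝ × ℝ)} {a b : ℤ}
    (h : p_fourth_T Q a b) : p_fourth_T (p_fourth_sw '' Q) b a := by
  obtain ⟨h0, h1, h2, h3, h4⟩ := h
  exact ⟨(h_umconv _ p_fourth_sw_um Q).1 h0, ⟨_, h1, rfl⟩, ⟨_, h3, rfl⟩, ⟨_, h2, rfl⟩,
    ⟨_, h4, rfl⟩⟩

/-- both coordinates positive -/
private lemma p_fourth_pos (h_um : S_um) {Q : Set (ℝ × ℝ)} {a b : ℤ} (h : p_fourth_T Q a b)
    (ha : 1 ≤ a) (hb : 1 ≤ b) : p_fourth_R Q := by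
  obtain ⟨h0, h1, h2, h3, h4⟩ := h
  refine ⟨id, h_um.2.2, Or.inr ?_⟩
  rw [Set.image_id]
  have ha' : (1 : ℝ) ≤ a := by exact_mod_cast ha
  have hb' : (1 : ℝ) ≤ b := by exact_mod_cast hb
  have hs : (0 : ℝ) < a + b - 1 := by linarith
  have hs' : (a : ℝ) + b - 1 ≠ 0 := hs.ne'
  refine ⟨h1, h2, h3, ?_⟩
  refine p_fourth_c3 h0 h2 h3 h4 (α := ((b : ℝ) - 1) / (a + b - 1))
    (β := ((a : ℝ) - 1) / (a + b - 1)) (γ := 1 / ((a : ℝ) + b - 1))
    (div_nonneg (by linarith) hs.le) (div_nonneg (by linarith) hs.le) (by positivity) ?_ ?_ ?_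
  · field_simp
    ring
  · field_simp
    ring
  · field_simp
    ring

/-- both coordinates negative -/
private lemma p_fourth_neg (h_um : S_um) (h_umconv : S_umconv) : ∀ n : ℕ, ∀ (Q : Set (ℝ × ℝ))
    (a b : ℤ), p_fourth_T Q a b → Odd a → Odd b → a ≤ -1 → b ≤ -1 → a.natAbs + b.natAbs ≤ n →
    p_fourth_R Q := by
  intro n
  induction n with
  | zero =>
    intro Q a b _ _ _ h1 h2 h3
    omega
  | succ n ih =>
    have step : ∀ (Q : Set (ℝ × ℝ)) (a b : ℤ), p_fourth_T Q a b → Odd a → Odd b → a < b →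
        b ≤ -1 → a.natAbs + b.natAbs ≤ n + 1 → p_fourth_R Q := by
      intro Q a b hT hoa hob hab hb hn
      have hab2 : a ≤ b - 2 := by
        obtain ⟨k, hk⟩ := hoa
        obtain ⟨l, hl⟩ := hob
        omega
      obtain ⟨h0, h1, h2, h3, h4⟩ := hT
      have ha' : (a : ℝ) < 0 := by
        have : a < 0 := by omega
        exact_mod_cast this
      have hb' : (b : ℝ) < 0 := by
        have : b < 0 := by omega
        exact_mod_cast this
      have hab' : (a : ℝ) ≤ b - 2 := by exact_mod_cast hab2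
      have ha0' : (a : ℝ) ≠ 0 := ha'.ne
      have hm : ((-1 : ℝ), (0 : ℝ)) ∈ Q := by
        refine p_fourth_c3 h0 h3 h4 h1 (α := (b : ℝ) / a) (β := -1 / (a : ℝ))
          (γ := 1 - (b : ℝ) / a - (-1) / (a : ℝ)) ?_ ?_ ?_ ?_ ?_ ?_
        · exact div_nonneg_of_nonpos hb'.le ha'.le
        · exact div_nonneg_of_nonpos (by norm_num) ha'.le
        · have e : 1 - (b : ℝ) / a - (-1) / (a : ℝ) = (a - b + 1) / a := by
            field_simp
            ring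
          rw [e]
          exact div_nonneg_of_nonpos (by linarith) ha'.le
        · ring
        · field_simp
          ring
        · field_simp
          ring
      refine p_fourth_map h_um p_fourth_g1_um (ih (p_fourth_g1 '' Q) (a + 1 - b) b ?_ ?_ hob ?_ hb
        ?_)
      · refine ⟨(h_umconv _ p_fourth_g1_um Q).1 h0, ⟨_, hm, ?_⟩, ⟨_, h1, ?_⟩, ⟨_, h3, ?_⟩,
          ⟨_, h4, ?_⟩⟩
        · simp [p_fourth_g1]
        · simp [p_fourth_g1]
        · simp [p_fourth_g1]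
        · simp [p_fourth_g1]
      · obtain ⟨k, hk⟩ := hoa
        obtain ⟨l, hl⟩ := hob
        exact ⟨k - l, by omega⟩
      · omega
      · omega
    intro Q a b hT hoa hob ha hb hn
    rcases lt_trichotomy a b with h | h | h
    · exact step Q a b hT hoa hob h hb hn
    · subst h
      obtain ⟨h0, h1, h2, h3, h4⟩ := hT
      refine ⟨id, h_um.2.2, Or.inl ?_⟩
      rw [Set.image_id]
      have ha' : (a : ℝ) ≤ -1 := by exact_mod_cast ha
      have ha0 : (a : ℝ) < 0 := by linarith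
      have ha0' : (a : ℝ) ≠ 0 := ha0.ne
      refine ⟨h2, h3, ?_⟩
      refine p_fourth_c3 h0 h4 h1 h1 (α := -1 / (a : ℝ)) (β := 1 - (-1) / (a : ℝ)) (γ := 0)
        ?_ ?_ le_rfl ?_ ?_ ?_
      · exact div_nonneg_of_nonpos (by norm_num) ha0.le
      · have e : 1 - (-1) / (a : ℝ) = (a + 1) / a := by
          field_simp
          ring
        rw [e]
        exact div_nonneg_of_nonpos (by linarith) ha0.le
      · ring
      · field_simp
        ring
      · field_simp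
        ring
    · exact p_fourth_map h_um p_fourth_sw_um (step _ b a (p_fourth_sw_T h_umconv hT) hob hoa h ha
        (by omega))

/-- mixed signs -/
private lemma p_fourth_mix (h_um : S_um) (h_umconv : S_umconv) {Q : Set (ℝ × ℝ)} {a b : ℤ}
    (hT : p_fourth_T Q a b) (hoa : Odd a) (hob : Odd b) (ha : 1 ≤ a) (hb : b ≤ -1) :
    p_fourth_R Q := by
  have hc : Odd (1 - a - b) := by
    obtain ⟨k, hk⟩ := hoa
    obtain ⟨l, hl⟩ := hob
    exact ⟨-k - l - 1, by omega⟩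
  obtain ⟨h0, h1, h2, h3, h4⟩ := hT
  by_cases h : 1 ≤ 1 - a - b
  · refine p_fourth_map h_um p_fourth_g2_um (p_fourth_pos h_um (a := a) (b := 1 - a - b) ?_ ha h)
    refine ⟨(h_umconv _ p_fourth_g2_um Q).1 h0, ⟨_, h3, ?_⟩, ⟨_, h2, ?_⟩, ⟨_, h1, ?_⟩,
      ⟨_, h4, ?_⟩⟩
    · simp [p_fourth_g2]
    · simp [p_fourth_g2]
    · simp [p_fourth_g2]
    · simp [p_fourth_g2]
  · have hc' : 1 - a - b ≤ -1 := by
      obtain ⟨k, hk⟩ := hc
      omega
    refine p_fourth_map h_um p_fourth_g3_um (p_fourth_neg h_um h_umconv _ _ (1 - a - b) b ?_ hc hob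
      hc' hb le_rfl)
    refine ⟨(h_umconv _ p_fourth_g3_um Q).1 h0, ⟨_, h2, ?_⟩, ⟨_, h1, ?_⟩, ⟨_, h3, ?_⟩,
      ⟨_, h4, ?_⟩⟩
    · simp [p_fourth_g3]
    · simp [p_fourth_g3]
    · simp [p_fourth_g3]
    · simp [p_fourth_g3]

theorem p_fourth (h_um : S_um) (h_umconv : S_umconv) : S_fourth := by
  intro Q hQ q0 q1 q2 a b hoa hob hab
  have hT : p_fourth_T Q a b := by
    refine ⟨hQ, ?_, ?_, ?_, hab⟩
    · simpa [ip2] using q0
    · simpa [ip2] using q1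
    · simpa [ip2] using q2
  have hoa' := hoa
  have hob' := hob
  obtain ⟨k, hk⟩ := hoa'
  obtain ⟨l, hl⟩ := hob'
  rcases lt_or_ge a 0 with ha | ha
  · rcases lt_or_ge b 0 with hb | hb
    · exact p_fourth_neg h_um h_umconv _ Q a b hT hoa hob (by omega) (by omega) le_rfl
    · exact p_fourth_map h_um p_fourth_sw_um
        (p_fourth_mix h_um h_umconv (p_fourth_sw_T h_umconv hT) hob hoa (by omega) (by omega))
  · rcases lt_or_ge b 0 with hb | hb
    · exact p_fourth_mix h_um h_umconv hT hoa hob (by omega) (by omega)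
    · exact p_fourth_pos h_um hT (by omega) (by omega)

end Pool.Agent.Lib.MP_0bc52e_nt.LC
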