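import Pool.Agent.Lib.MP_0bc52e_nt.LC.StmB
import Pool.Agent.Lib.MP_0bc52e_nt.LC.StmC

open scoped Pointwise

namespace Pool.Agent.Lib.MP_0bc52e_nt.LC

theorem p_long (h_five : S_five) (h_eqvtrans : S_eqvtrans) (h_eqvsymm : S_eqvsymm)
    (h_eqvip : S_eqvip) (h_occ : S_occ) (h_famcrit : S_famcrit) (h_famint : S_famint)
    (h_dir : S_dir) (h_T3lp : S_T3lp) (h_T3pc : S_T3pc) (h_T3crit : S_T3crit) (h_V : S_V)
    (h_T3zeq : S_T3zeq) : S_long := by
  intro P hP hfull hlong
  constructor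
  · rintro ⟨h, hh, hocc⟩
    by_contra hcon
    push Not at hcon
    obtain ⟨n2, n3, n5, nF⟩ := hcon
    have hcr := hocc.weak.criterion hfull
    obtain ⟨p, hp, hph⟩ := Nat.exists_prime_and_dvd (show h ≠ 1 by omega)
    obtain ⟨k, rfl⟩ := hph
    have hk : 0 < k := Nat.pos_of_ne_zero (by rintro rfl; simp at hh)
    have hcp : Criterion P p := hcr.of_mul hk
    have hp2 : p ≠ 2 := by
      rintro rfl
      exact n2 (criterion_two_iff.1 hcp)
    have hp3 : p ≠ 3 := by
      rintro rfl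
      exact n3 (criterion_three_iff.1 hcp)
    have hp5 : p ≠ 5 := by
      rintro rfl
      exact n5 ((h_five P).1 hcp)
    have hp7 : 7 ≤ p := by
      by_contra hlt
      push Not at hlt
      interval_cases p <;> first | omega | exact absurd hp (by decide)
    obtain ⟨v, hv, x, hx, hx'⟩ := hlong
    obtain ⟨P', hPP', X, Y, Z, L', hL', c1, c2⟩ := h_dir P 1000 (by norm_num) v hv x hx hx'
    have hP'P := h_eqvsymm.1 3 _ _ hPP'
    have i1 := (h_eqvip 3 P P' hPP').1 hP
    have i2 := (h_eqvip 3 P P' hPP').2 hfull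
    have hoccP : OccursAt P p := hcp.occursAt hp.pos hP hfull
    have hoccP' : OccursAt P' p := h_occ 3 P' P p hP'P hoccP
    have hcp' : Criterion P' p := hoccP'.weak.criterion i2
    have nm : ¬ Miss2 P' := by
      intro hm
      have e1 : Criterion P' 2 := criterion_two_iff.2 hm
      have e2 : OccursAt P' 2 := e1.occursAt (by norm_num) i1 i2
      have e3 : OccursAt P 2 := h_occ 3 P P' 2 hPP' e2
      exact n2 (criterion_two_iff.1 (e3.weak.criterion hfull))
    have hVD : VD (T3 P') p L' :=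
      { lp := h_T3lp P' i1
        pc := h_T3pc P' nm
        crit := h_T3crit P' p hcp'
        chord := ⟨X, Y, Z, c1, c2⟩ }
    obtain ⟨C, s, t, r1, r2, r3, r4⟩ := h_V _ p L' hVD hp hp7 hL'
    apply nF
    refine ⟨C, s, t, r1, ?_, r3, ?_⟩
    · have hC0 : C ≠ 0 := by
        rintro rfl
        simp at r1
      have h1 : (p : ℤ) ≤ |C| := by
        have := Int.le_of_dvd (abs_pos.2 hC0) ((dvd_abs _ _).2 r2)
        exact this
      have h2 : (7 : ℤ) ≤ p := by exact_mod_cast hp7
      linarith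
    · exact h_eqvtrans 3 3 P P' _ hPP' (h_T3zeq P' C s t r4)
  · rintro (h2 | h3 | h5 | hF)
    · exact ⟨2, by norm_num, (criterion_two_iff.2 h2).occursAt (by norm_num) hP hfull⟩
    · exact ⟨3, by norm_num, (criterion_three_iff.2 h3).occursAt (by norm_num) hP hfull⟩
    · exact ⟨5, by norm_num, ((h_five P).2 h5).occursAt (by norm_num) hP hfull⟩
    · obtain ⟨c, s, t, _, hc3, _, heq⟩ := hF
      have hn : 3 ≤ c.natAbs := by
        have : (3 : ℤ) ≤ (c.natAbs : ℤ) := by rwa [Int.natCast_natAbs]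
        exact_mod_cast this
      refine ⟨c.natAbs, by omega, ?_⟩
      obtain ⟨f1, f2⟩ := h_famint c s t
      exact h_occ 3 P _ _ heq ((h_famcrit c s t c.natAbs (Int.natAbs_dvd.2 dvd_rfl)).occursAt
        (by omega) f1 f2)

end Pool.Agent.Lib.MP_0bc52e_nt.LC
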