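import Pool.Agent.Lib.MP_0bc52e_nt.LC.StmC

open scoped Pointwise
open MeasureTheory

namespace Pool.Agent.Lib.MP_0bc52e_nt.LC

/-- The first four alternatives imply occurrence. -/
private lemma p_main_back (h_occ : S_occ) (h_five : S_five) (h_famcrit : S_famcrit)
    (h_famint : S_famint) {P : Set (Fin 3 → ℝ)} (hP : IsIntegerPolytope P)
    (hf : IsFullDimensional P) (H : Miss2 P ∨ Miss3 P ∨ Miss5 P ∨ InFam P) :
    ∃ h : ℕ, 1 < h ∧ OccursAt P h := by
  rcases H with H | H | H | H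
  · exact ⟨2, by norm_num, Criterion.occursAt (by norm_num) hP hf (criterion_two_iff.2 H)⟩
  · exact ⟨3, by norm_num, Criterion.occursAt (by norm_num) hP hf (criterion_three_iff.2 H)⟩
  · exact ⟨5, by norm_num, Criterion.occursAt (by norm_num) hP hf ((h_five P).2 H)⟩
  · obtain ⟨c, s, t, -, hc3, -, heq⟩ := H
    have habs : ((c.natAbs : ℕ) : ℤ) = |c| := Int.natCast_natAbs c
    have hpos : 1 < c.natAbs := by omega
    refine ⟨c.natAbs, hpos, h_occ 3 P (famS c s t) c.natAbs heq ?_⟩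
    have hdvd : ((c.natAbs : ℕ) : ℤ) ∣ c := Int.natAbs_dvd.2 dvd_rfl
    exact Criterion.occursAt (by omega) (h_famint c s t).1 (h_famint c s t).2
      (h_famcrit c s t c.natAbs hdvd)

theorem p_main (h_fin : S_fin) (h_mink : S_mink) (h_long : S_long) (h_occ : S_occ)
    (h_eqvsymm : S_eqvsymm) (h_five : S_five) (h_famcrit : S_famcrit) (h_famint : S_famint) :
    S_main := by
  obtain ⟨F₀, hF₀, hmem, hall⟩ := h_fin (8 * 10 ^ 9)
  refine ⟨{P ∈ F₀ | ∃ h : ℕ, 1 < h ∧ OccursAt P h}, hF₀.subset (fun P hP => hP.1),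
    fun P hP => hmem P hP.1, ?_⟩
  intro P hP hf
  constructor
  · rintro ⟨h, hh, hocc⟩
    by_cases hvol : volume P ≤ ENNReal.ofReal (8 * 10 ^ 9)
    · obtain ⟨P', hP'F, heq⟩ := hall P hP hf hvol
      refine Or.inr (Or.inr (Or.inr (Or.inr ⟨P', ⟨hP'F, h, hh, ?_⟩, heq⟩)))
      exact h_occ 3 P' P h (h_eqvsymm.1 3 P P' heq) hocc
    · have hL : Long P := h_mink P hP (not_le.1 hvol)
      rcases (h_long P hP hf hL).1 ⟨h, hh, hocc⟩ with H | H | H | H
      · exact Or.inl H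
      · exact Or.inr (Or.inl H)
      · exact Or.inr (Or.inr (Or.inl H))
      · exact Or.inr (Or.inr (Or.inr (Or.inl H)))
  · rintro (H | H | H | H | ⟨P', ⟨-, h, hh, hocc⟩, heq⟩)
    · exact p_main_back h_occ h_five h_famcrit h_famint hP hf (Or.inl H)
    · exact p_main_back h_occ h_five h_famcrit h_famint hP hf (Or.inr (Or.inl H))
    · exact p_main_back h_occ h_five h_famcrit h_famint hP hf (Or.inr (Or.inr (Or.inl H)))
    · exact p_main_back h_occ h_five h_famcrit h_famint hP hf (Or.inr (Or.inr (Or.inr H)))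
    · exact ⟨h, hh, h_occ 3 P P' h heq hocc⟩

end Pool.Agent.Lib.MP_0bc52e_nt.LC
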