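import Pool.Agent.Lib.MP_0bc52e_nt.LC.StmC

/-!
# MP_0bc52e_nt: piece mink
-/

open scoped Pointwise
open MeasureTheory

namespace Pool.Agent.Lib.MP_0bc52e_nt.LC

theorem p_mink : S_mink := by
  intro P hP hvol
  obtain ⟨z, hz⟩ : P.Nonempty := by
    rw [Set.nonempty_iff_ne_empty]
    intro h
    rw [h, measure_empty] at hvol
    exact absurd hvol (not_lt.2 (zero_le))
  have hconv : Convex ℝ P := by
    obtain ⟨V, -, -, rfl⟩ := hP
    exact convex_convexHull ℝ _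
  obtain ⟨K, hK⟩ : ∃ K : Set (Fin 3 → ℝ), K = (1 / 1000 : ℝ) • (P - P) := ⟨_, rfl⟩
  have hKconv : Convex ℝ K := by
    rw [hK]
    exact (hconv.sub hconv).smul _
  have hKsymm : ∀ x ∈ K, -x ∈ K := by
    intro x hx
    rw [hK] at hx ⊢
    obtain ⟨_, ⟨a, ha, b, hb, rfl⟩, rfl⟩ := hx
    refine ⟨b - a, ⟨b, hb, a, ha, rfl⟩, ?_⟩
    simp only
    rw [← smul_neg, neg_sub]
  have hKvol : ENNReal.ofReal ((1 / 1000) ^ 3) * volume P ≤ volume K := by
    have h1 : (1 / 1000 : ℝ) • ((-z) +ᵥ P) ⊆ K := by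
      rw [hK]
      refine Set.smul_set_mono ?_
      rintro _ ⟨a, ha, rfl⟩
      refine ⟨a, ha, z, hz, ?_⟩
      simp only [vadd_eq_add]
      abel
    have h2 : volume ((1 / 1000 : ℝ) • ((-z) +ᵥ P)) = ENNReal.ofReal ((1 / 1000) ^ 3) * volume P := by
      rw [Measure.addHaar_smul, measure_vadd, Module.finrank_fin_fun, abs_of_pos (by norm_num)]
    rw [← h2]
    exact measure_mono h1
  have hfund := ZSpan.isAddFundamentalDomain' (Pi.basisFun ℝ (Fin 3)) volume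
  have hF : volume (ZSpan.fundamentalDomain (Pi.basisFun ℝ (Fin 3))) = 1 := by
    rw [ZSpan.volume_fundamentalDomain]
    have : (Matrix.of (Pi.basisFun ℝ (Fin 3))) = 1 := by
      ext i j
      simp [Matrix.one_apply, Pi.single_apply, eq_comm]
    rw [this, Matrix.det_one]
    simp
  have hlt : volume (ZSpan.fundamentalDomain (Pi.basisFun ℝ (Fin 3))) *
      2 ^ Module.finrank ℝ (Fin 3 → ℝ) < volume K := by
    refine lt_of_lt_of_le ?_ hKvol
    rw [hF, one_mul, Module.finrank_fin_fun]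
    have h1 : (2 : ENNReal) ^ 3 = ENNReal.ofReal ((1 / 1000) ^ 3) * ENNReal.ofReal (8 * 10 ^ 9) := by
      rw [← ENNReal.ofReal_mul (by norm_num)]
      have e : ((1 / 1000 : ℝ) ^ 3 * (8 * 10 ^ 9)) = (2 : ℝ) ^ 3 := by norm_num
      rw [e, ENNReal.ofReal_pow (by norm_num)]
      norm_num
    rw [h1]
    refine (ENNReal.mul_lt_mul_iff_right ?_ ENNReal.ofReal_ne_top).2 hvol
    rw [Ne, ENNReal.ofReal_eq_zero, not_le]
    norm_num
  have hcount : Countable (Submodule.span ℤ (Set.range (Pi.basisFun ℝ (Fin 3)))).toAddSubgroup :=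
    inferInstanceAs (Countable (Submodule.span ℤ (Set.range (Pi.basisFun ℝ (Fin 3)))))
  obtain ⟨x, hx0, hxK⟩ := exists_ne_zero_mem_lattice_of_measure_mul_two_pow_lt_measure hfund
    hKsymm hKconv hlt
  have hx := x.2
  have hint : ∀ i, ∃ n : ℤ, (n : ℝ) = (x : Fin 3 → ℝ) i := by
    intro i
    have h1 := (Module.Basis.mem_span_iff_repr_mem ℤ (Pi.basisFun ℝ (Fin 3)) (x : Fin 3 → ℝ)).1 hx i
    obtain ⟨n, hn⟩ := h1
    exact ⟨n, by simpa using hn⟩
  choose v hv using hint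
  have hvx : (fun i => (v i : ℝ)) = (x : Fin 3 → ℝ) := funext hv
  refine ⟨v, ?_, ?_⟩
  · rintro rfl
    apply hx0
    apply Subtype.ext
    rw [← hvx]
    funext i
    simp
  · rw [hK] at hxK
    obtain ⟨_, ⟨a, ha, b, hb, rfl⟩, hab⟩ := hxK
    refine ⟨b, hb, ?_⟩
    have h1 : b + (1000 : ℝ) • (fun i => (v i : ℝ)) = a := by
      rw [hvx, ← hab]
      simp only
      rw [smul_smul]
      norm_num
    rw [h1]
    exact ha

end Pool.Agent.Lib.MP_0bc52e_nt.LC
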