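import Pool.Agent.Lib.MP_0bc52e_nt.LC.StmC

/-! Piece [sail occ]. -/

namespace Pool.Agent.Lib.MP_0bc52e_nt.LC

theorem p_occ (h_eqvtrans : S_eqvtrans) : S_occ := by
  rintro d P P' h hPP ⟨n, hn, a, ε, F, ha, hε, hF, hE, hD⟩
  exact ⟨n, hn, a, ε, F, ha, hε, hF, h_eqvtrans d (n + 1) P P' F hPP hE, hD⟩

end Pool.Agent.Lib.MP_0bc52e_nt.LC
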