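import Pool.Agent.Lib.MP_0bc52e_nt.LC.StmB

/-!
# MP_0bc52e_nt, piece only
-/

set_option autoImplicit false

namespace Pool.Agent.Lib.MP_0bc52e_nt.LC

private lemma p_only_col (P : Set (ℝ × ℝ × ℝ)) (hP : Convex ℝ P) (X Y k m l : ℤ) (hkm : k ≤ m)
    (hml : m ≤ l) (hk : ip (X, Y, k) ∈ P) (hl : ip (X, Y, l) ∈ P) : ip (X, Y, m) ∈ P := by
  rcases eq_or_lt_of_le (hkm.trans hml) with h | h
  · have : m = k := by omega
    rw [this]
    exact hk
  · have hkl : (0 : ℝ) < (l : ℝ) - k := by
      have : (k : ℝ) < l := by exact_mod_cast h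
      linarith
    have h1 : (k : ℝ) ≤ m := by exact_mod_cast hkm
    have h2 : (m : ℝ) ≤ l := by exact_mod_cast hml
    have h3 := hP hk hl (a := ((l : ℝ) - m) / (l - k)) (b := ((m : ℝ) - k) / (l - k))
      (div_nonneg (by linarith) hkl.le) (div_nonneg (by linarith) hkl.le) (by
        field_simp
        ring)
    have hne : (l : ℝ) - k ≠ 0 := hkl.ne'
    convert h3 using 1
    simp only [ip, Prod.smul_mk, Prod.mk_add_mk, smul_eq_mul, Prod.mk.injEq]
    refine ⟨?_, ?_, ?_⟩
    · field_simp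
      ring
    · field_simp
      ring
    · field_simp
      ring

theorem p_only (h_edge : S_edge) : S_only := by
  intro P p a b c A₁ A₂ E₁ E₂ e β hP hp hcr ha hb he he1 hβ
  have hbase := h_edge P p a b c A₁ A₂ E₁ E₂ e β hP hp hcr ha hb he he1 hβ
  have hno2 : ¬ (p : ℤ) ∣ 2 := by
    intro h
    have := Int.le_of_dvd (by norm_num) h
    omega
  have hno1 : ¬ (p : ℤ) ∣ 1 := by
    intro h
    have := Int.le_of_dvd (by norm_num) h
    omega
  constructor
  · intro k hk
    by_contra hne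
    push Not at hne
    rcases lt_or_ge k e with hlt | hge
    · have h1 : ip (E₁, E₂, e - 1) ∈ P :=
        p_only_col P hP E₁ E₂ k (e - 1) e (by omega) (by omega) hk he
      have h2 := h_edge P p a b c A₁ A₂ E₁ E₂ (e - 1) β hP hp hcr ha hb h1
        (by rw [sub_add_cancel]; exact he) hβ
      apply hno2
      have h3 := dvd_sub h2 hbase
      have h4 : c + β - (2 * (e - 1) + 1) - (c + β - (2 * e + 1)) = 2 := by ring
      rwa [h4] at h3
    · have h1 : ip (E₁, E₂, e + 1 + 1) ∈ P :=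
        p_only_col P hP E₁ E₂ (e + 1) (e + 1 + 1) k (by omega) (by omega) he1 hk
      have h2 := h_edge P p a b c A₁ A₂ E₁ E₂ (e + 1) β hP hp hcr ha hb he1 h1 hβ
      apply hno2
      have h3 := dvd_sub hbase h2
      have h4 : c + β - (2 * e + 1) - (c + β - (2 * (e + 1) + 1)) = 2 := by ring
      rwa [h4] at h3
  · intro k hk
    by_contra hne
    rcases lt_or_gt_of_ne hne with hlt | hgt
    · have h1 : ip (2 * E₁ - A₁, 2 * E₂ - A₂, β - 1) ∈ P :=
        p_only_col P hP _ _ k (β - 1) β (by omega) (by omega) hk hβ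
      have h2 := h_edge P p a b c A₁ A₂ E₁ E₂ e (β - 1) hP hp hcr ha hb he he1 h1
      apply hno1
      have h3 := dvd_sub hbase h2
      have h4 : c + β - (2 * e + 1) - (c + (β - 1) - (2 * e + 1)) = 1 := by ring
      rwa [h4] at h3
    · have h1 : ip (2 * E₁ - A₁, 2 * E₂ - A₂, β + 1) ∈ P :=
        p_only_col P hP _ _ β (β + 1) k (by omega) (by omega) hβ hk
      have h2 := h_edge P p a b c A₁ A₂ E₁ E₂ e (β + 1) hP hp hcr ha hb he he1 h1
      apply hno1
      have h3 := dvd_sub h2 hbase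
      have h4 : c + (β + 1) - (2 * e + 1) - (c + β - (2 * e + 1)) = 1 := by ring
      rwa [h4] at h3

end Pool.Agent.Lib.MP_0bc52e_nt.LC
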