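import Pool.Agent.Lib.MP_0bc52e_nt.LC.StmB

/-! # Piece pair: consecutive points in a column -/

namespace Pool.Agent.Lib.MP_0bc52e_nt.LC

theorem p_pair_lt (P : Set (ℝ × ℝ × ℝ)) (E₁ E₂ k₁ k₂ : ℤ) (hP : Convex ℝ P)
    (h1 : ip (E₁, E₂, k₁) ∈ P) (h2 : ip (E₁, E₂, k₂) ∈ P) (h : k₁ < k₂) :
    ip (E₁, E₂, k₁ + 1) ∈ P := by
  have hd : (1 : ℝ) ≤ (k₂ : ℝ) - k₁ := by
    have : k₁ + 1 ≤ k₂ := h
    have h' : ((k₁ + 1 : ℤ) : ℝ) ≤ k₂ := by exact_mod_cast this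
    push_cast at h'
    linarith
  have hd0 : (0 : ℝ) < (k₂ : ℝ) - k₁ := by linarith
  have hw : 1 / ((k₂ : ℝ) - k₁) ≤ 1 := by
    rw [div_le_one hd0]
    exact hd
  have := hP h1 h2 (sub_nonneg.2 hw) (by positivity : (0 : ℝ) ≤ 1 / ((k₂ : ℝ) - k₁)) (by ring)
  have e : (1 - 1 / ((k₂ : ℝ) - k₁)) • ip (E₁, E₂, k₁) + (1 / ((k₂ : ℝ) - k₁)) • ip (E₁, E₂, k₂) =
      ip (E₁, E₂, k₁ + 1) := by
    have hd' : (k₂ : ℝ) - k₁ ≠ 0 := hd0.ne'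
    simp only [ip, Prod.smul_mk, Prod.mk_add_mk, smul_eq_mul, Prod.mk.injEq]
    refine ⟨?_, ?_, ?_⟩
    · ring
    · ring
    · push_cast
      field_simp
      ring
  rwa [e] at this

theorem p_pair : S_pair := by
  intro P E₁ E₂ k₁ k₂ hP h1 h2 hk
  rcases lt_trichotomy k₁ k₂ with h | h | h
  · exact ⟨k₁, h1, p_pair_lt P E₁ E₂ k₁ k₂ hP h1 h2 h⟩
  · exact absurd (by rw [h, sub_self]; exact dvd_zero _) hk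
  · exact ⟨k₂, h2, p_pair_lt P E₁ E₂ k₂ k₁ hP h2 h1 h⟩

end Pool.Agent.Lib.MP_0bc52e_nt.LC
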