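import Pool.Agent.Lib.MP_0bc52e_nt.LC.StmA

/-! # Piece pairs: three named points with an integer centroid -/

namespace Pool.Agent.Lib.MP_0bc52e_nt.LC

/-- three points of `Q` that a given integer map sends to the vertices of the triangle -/
theorem p_pairs_aux (Q : Set (ℝ × ℝ)) (a b c d e f : ℤ)
    (hdet : a * d - b * c = 1 ∨ a * d - b * c = -1) (u v w : ℝ × ℝ) (hu : u ∈ Q) (hv : v ∈ Q)
    (hw : w ∈ Q) (eu : ((a * u.1 + b * u.2 + e, c * u.1 + d * u.2 + f) : ℝ × ℝ) = (1, 0))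
    (ev : ((a * v.1 + b * v.2 + e, c * v.1 + d * v.2 + f) : ℝ × ℝ) = (0, 1))
    (ew : ((a * w.1 + b * w.2 + e, c * w.1 + d * w.2 + f) : ℝ × ℝ) = (-1, -1)) :
    ∃ g : ℝ × ℝ → ℝ × ℝ, IsUM g ∧ W3 (g '' Q) :=
  ⟨fun v => (a * v.1 + b * v.2 + e, c * v.1 + d * v.2 + f),
    ⟨a, b, c, d, e, f, hdet, fun _ => rfl⟩, ⟨u, hu, eu⟩, ⟨v, hv, ev⟩, ⟨w, hw, ew⟩⟩

theorem p_pairs : S_pairs := by
  intro Q ⟨_, h10, _, h11⟩ h02 h
  rcases h with h | h | h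
  · refine p_pairs_aux Q 0 1 1 1 (-1) (-2) (Or.inr (by norm_num)) _ _ _ h02 h h10 ?_ ?_ ?_ <;>
      (simp only [ip2, Prod.mk.injEq]; constructor <;> norm_num)
  · refine p_pairs_aux Q 0 1 1 0 (-1) 0 (Or.inr (by norm_num)) _ _ _ h02 h11 h ?_ ?_ ?_ <;>
      (simp only [ip2, Prod.mk.injEq]; constructor <;> norm_num)
  · refine p_pairs_aux Q 0 1 (-1) 0 (-1) 0 (Or.inl (by norm_num)) _ _ _ h02 h h10 ?_ ?_ ?_ <;>
      (simp only [ip2, Prod.mk.injEq]; constructor <;> norm_num)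

end Pool.Agent.Lib.MP_0bc52e_nt.LC
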