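import Pool.Agent.Lib.MP_0bc52e_nt.LC.StmA

/-!
# Piece plane: the plane fact
-/

namespace Pool.Agent.Lib.MP_0bc52e_nt.LC

private lemma p_plane_comb3 (G : Set (ℝ × ℝ)) (hG : Convex ℝ G) (A B C : ℝ × ℝ) (hA : A ∈ G) (hB : B ∈ G)
    (hC : C ∈ G) (a b c : ℝ) (ha : 0 ≤ a) (hb : 0 ≤ b) (hc : 0 ≤ c) (habc : a + b + c = 1) :
    a • A + b • B + c • C ∈ G := by
  by_cases h0 : a + b = 0
  · have ha0 : a = 0 := by linarith
    have hb0 : b = 0 := by linarith
    have hc1 : c = 1 := by linarith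
    rw [ha0, hb0, hc1]
    simpa using hC
  · have hpos : 0 < a + b := lt_of_le_of_ne (by linarith) (Ne.symm h0)
    have h1 : (a / (a + b)) • A + (b / (a + b)) • B ∈ G :=
      hG hA hB (by positivity) (by positivity) (by rw [← add_div, div_self h0])
    have h2 := hG h1 hC hpos.le hc habc
    have e : (a + b) • ((a / (a + b)) • A + (b / (a + b)) • B) + c • C = a • A + b • B + c • C := by
      rw [smul_add, smul_smul, smul_smul, mul_div_cancel₀ _ h0, mul_div_cancel₀ _ h0]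
    rwa [e] at h2

private lemma p_plane_sq (G : Set (ℝ × ℝ)) (hG : Convex ℝ G) (h4 : S4 G) (s t : ℝ) (hs : 0 ≤ s) (hs1 : s ≤ 1)
    (ht : 0 ≤ t) (ht1 : t ≤ 1) : (s, t) ∈ G := by
  obtain ⟨h00, h10, h01, h11⟩ := h4
  have e1 : (s, (0:ℝ)) ∈ G := by
    have := hG h00 h10 (by linarith : 0 ≤ 1 - s) hs (by ring)
    simpa using this
  have e2 : (s, (1:ℝ)) ∈ G := by
    have := hG h01 h11 (by linarith : 0 ≤ 1 - s) hs (by ring)
    simpa using this
  have := hG e1 e2 (by linarith : 0 ≤ 1 - t) ht (by ring)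
  have e : (1 - t) • (s, (0:ℝ)) + t • (s, (1:ℝ)) = (s, t) := by
    ext
    · simp; ring
    · simp
  rwa [e] at this

private lemma p_plane_tri (G : Set (ℝ × ℝ)) (hG : Convex ℝ G) (h3 : W3 G) (x y : ℝ) (h1 : x + y ≤ 1)
    (h2 : y - 2 * x ≤ 1) (h4 : x - 2 * y ≤ 1) : (x, y) ∈ G := by
  obtain ⟨hA, hB, hC⟩ := h3
  have := p_plane_comb3 G hG _ _ _ hA hB hC ((1 - (y - 2 * x)) / 3) ((1 - (x - 2 * y)) / 3)
    ((1 - (x + y)) / 3) (by linarith) (by linarith) (by linarith) (by ring)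
  have e : ((1 - (y - 2 * x)) / 3) • ((1:ℝ), (0:ℝ)) + ((1 - (x - 2 * y)) / 3) • ((0:ℝ), (1:ℝ)) +
    ((1 - (x + y)) / 3) • ((-1:ℝ), (-1:ℝ)) = (x, y) := by
    ext
    · simp; ring
    · simp; ring
  rwa [e] at this

theorem p_plane (h_res : S_res) (h_SW : S_SW) (h_umconv : S_umconv) (h_crit2map : S_crit2map)
    (h_W7 : S_W7) (h_Wr : S_Wr) : S_plane := by
  intro F p b c hF hPC hp hp7 hcrit
  obtain ⟨g, hg, hWS⟩ := h_SW F hF hPC
  have hconv := (h_umconv g hg F).1 hF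
  obtain ⟨b', c', hcr⟩ := h_crit2map F p b c g hg hcrit
  have key : ∀ h : ℕ, 0 < h → h < p → ∀ r s : ℤ, (p : ℤ) ∣ r - h * b' → (p : ℤ) ∣ s - h * c' →
      ((r : ℝ) / h, (s : ℝ) / h) ∈ g '' F → False := by
    intro h h0 hlt r s h1 h2 hmem
    have hne : (h : ℝ) ≠ 0 := by exact_mod_cast h0.ne'
    exact hcr h h0 hlt r s ((r:ℝ)/h) ((s:ℝ)/h) hmem (by field_simp) (by field_simp) h1 h2
  rcases hWS with hW | hS
  · have fin : ∀ h : ℕ, 0 < h → h < p → ∀ r s : ℤ, (p : ℤ) ∣ r - h * b' → (p : ℤ) ∣ s - h * c' →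
        (r : ℝ) + s ≤ h → (s : ℝ) - 2 * r ≤ h → (r : ℝ) - 2 * s ≤ h → False := by
      intro h h0 hlt r s h1 h2 i1 i2 i3
      have hpos : (0:ℝ) < h := by exact_mod_cast h0
      refine key h h0 hlt r s h1 h2 (p_plane_tri _ hconv hW _ _ ?_ ?_ ?_)
      · rw [← add_div, div_le_one hpos]; exact i1
      · have : (s:ℝ)/h - 2 * ((r:ℝ)/h) = ((s:ℝ) - 2 * r)/h := by ring
        rw [this, div_le_one hpos]; exact i2
      · have : (r:ℝ)/h - 2 * ((s:ℝ)/h) = ((r:ℝ) - 2 * s)/h := by ring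
        rw [this, div_le_one hpos]; exact i3
    by_cases hp7' : p = 7
    · obtain ⟨h, h0, h7, r, s, d1, d2, i1, i2, i3⟩ := h_W7 b' c'
      have j1 : (r : ℝ) + s ≤ h := by
        have : r + s ≤ h := by omega
        exact_mod_cast this
      have j2 : (s : ℝ) - 2 * r ≤ h := by
        have : s - 2 * r ≤ h := by omega
        exact_mod_cast this
      have j3 : (r : ℝ) - 2 * s ≤ h := by
        have : r - 2 * s ≤ h := by omega
        exact_mod_cast this
      subst hp7'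
      exact fin h h0 h7 r s (by exact_mod_cast d1) (by exact_mod_cast d2) j1 j2 j3
    · have hp11 : 9 ≤ p := by
        rcases Nat.lt_or_ge p 9 with h | h
        · exfalso
          have : p = 8 := by omega
          rw [this] at hp
          revert hp
          decide
        · exact h
      obtain ⟨h, hh, r, s, d1, d2, i1, i2, i3⟩ := h_Wr p 0 le_rfl (by
        have : (9:ℝ) ≤ p := by exact_mod_cast hp11
        linarith) b' c'
      exact fin h (by rcases hh with h | h <;> omega) (by rcases hh with h | h <;> omega) r s d1 d2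
        (by linarith) (by linarith) (by linarith)
  · have hp0 : 0 < p := by omega
    obtain ⟨r, hr1, hr2, hr3⟩ := h_res p hp0 (((p - 1 : ℕ) : ℤ) * b') 0
    obtain ⟨s, hs1, hs2, hs3⟩ := h_res p hp0 (((p - 1 : ℕ) : ℤ) * c') 0
    rw [zero_add] at hr3 hs3
    have hr2' : 0 ≤ r := by exact_mod_cast hr2
    have hs2' : 0 ≤ s := by exact_mod_cast hs2
    have hr3' : r < p := by exact_mod_cast hr3
    have hs3' : s < p := by exact_mod_cast hs3
    have hr4 : r ≤ ((p - 1 : ℕ) : ℤ) := by omega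
    have hs4 : s ≤ ((p - 1 : ℕ) : ℤ) := by omega
    have hr5 : (r:ℝ) ≤ ((p - 1 : ℕ) : ℝ) := by exact_mod_cast hr4
    have hs5 : (s:ℝ) ≤ ((p - 1 : ℕ) : ℝ) := by exact_mod_cast hs4
    have hpos : (0:ℝ) < ((p - 1 : ℕ) : ℝ) := by
      have : 0 < p - 1 := by omega
      exact_mod_cast this
    refine key (p - 1) (by omega) (by omega) r s hr1 hs1 (p_plane_sq _ hconv hS _ _ ?_ ?_ ?_ ?_)
    · exact div_nonneg hr2 hpos.le
    · rw [div_le_one hpos]; exact hr5
    · exact div_nonneg hs2 hpos.le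
    · rw [div_le_one hpos]; exact hs5

end Pool.Agent.Lib.MP_0bc52e_nt.LC
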