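import Pool.Agent.Lib.MP_0bc52e_nt.LC.StmA

/-!
# MP_0bc52e_nt, piece projlp
-/

set_option autoImplicit false

namespace Pool.Agent.Lib.MP_0bc52e_nt.LC

/-- the projection as a linear map -/
private noncomputable def p_projlp_L : (ℝ × ℝ × ℝ) →ₗ[ℝ] (ℝ × ℝ) where
  toFun v := (v.1, v.2.1)
  map_add' _ _ := rfl
  map_smul' _ _ := rfl

theorem p_projlp : S_projlp := by
  classical
  intro P hP hpc
  obtain ⟨V, rfl⟩ := hP
  have hproj : proj (convexHull ℝ (ip '' (V : Set (ℤ × ℤ × ℤ)))) =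
      convexHull ℝ (ip2 '' ((V.image fun v => (v.1, v.2.1) : Finset (ℤ × ℤ)) : Set (ℤ × ℤ))) := by
    have h1 : proj (convexHull ℝ (ip '' (V : Set (ℤ × ℤ × ℤ)))) =
        p_projlp_L '' (convexHull ℝ (ip '' (V : Set (ℤ × ℤ × ℤ)))) := rfl
    rw [h1, LinearMap.image_convexHull, Finset.coe_image, Set.image_image, Set.image_image]
    rfl
  refine ⟨⟨_, hproj⟩, ?_, convex_convexHull ℝ _, ?_⟩
  · intro a b
    obtain ⟨x, y, z, h, hx, hy, -⟩ := hpc a b 0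
    exact ⟨x, y, ⟨_, h, rfl⟩, hx, hy⟩
  · rw [hproj]
    exact convex_convexHull ℝ _

end Pool.Agent.Lib.MP_0bc52e_nt.LC
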