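import Pool.Agent.Lib.MP_0bc52e_nt.LC.StmA

namespace Pool.Agent.Lib.MP_0bc52e_nt.LC

theorem p_row : S_row := by
  intro Q hQ hS a b hb hab
  by_cases hb2 : b = 2
  · exact ⟨a, hb2 ▸ hab⟩
  have hb3 : 3 ≤ b := by omega
  have hpos : 0 < b - 1 := by omega
  set q : ℤ := (a + b - 2) / (b - 1) with hq
  set r : ℤ := (a + b - 2) % (b - 1) with hr
  have hqr : (b - 1) * q + r = a + b - 2 := Int.mul_ediv_add_emod _ _
  have hr0 : 0 ≤ r := Int.emod_nonneg _ hpos.ne'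
  have hr1 : r < b - 1 := Int.emod_lt_of_pos _ hpos
  refine ⟨q, ?_⟩
  have hbR : (3 : ℝ) ≤ (b : ℝ) := by exact_mod_cast hb3
  have hqrR : ((b : ℝ) - 1) * q + r = a + b - 2 := by exact_mod_cast hqr
  have hr0R : (0 : ℝ) ≤ (r : ℝ) := by exact_mod_cast hr0
  have hr1R : (r : ℝ) ≤ (b : ℝ) - 2 := by
    have h : r ≤ b - 2 := by omega
    exact_mod_cast h
  have hb1 : (0 : ℝ) < (b : ℝ) - 1 := by linarith
  have hb2' : (0 : ℝ) < (b : ℝ) - 2 := by linarith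
  obtain ⟨_, _, h01, h11⟩ := hS
  -- the point `(x, 1)` with `x = 1 - r / (b - 2)`
  have hx0 : (0 : ℝ) ≤ (r : ℝ) / ((b : ℝ) - 2) := div_nonneg hr0R hb2'.le
  have hx1 : (r : ℝ) / ((b : ℝ) - 2) ≤ 1 := (div_le_one hb2').2 hr1R
  have hx := hQ h01 h11 hx0 (sub_nonneg.2 hx1) (by ring)
  have hs0 : (0 : ℝ) ≤ 1 / ((b : ℝ) - 1) := by positivity
  have hs1 : 1 / ((b : ℝ) - 1) ≤ 1 := by
    rw [div_le_one hb1]
    linarith
  have hy := hQ hx hab (sub_nonneg.2 hs1) hs0 (by ring)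
  convert hy using 1
  ext
  · change ((q : ℤ) : ℝ) = _
    simp only [Prod.fst_add, Prod.smul_fst, smul_eq_mul, ip2]
    have h : (b : ℝ) - 1 ≠ 0 := hb1.ne'
    have h' : (b : ℝ) - 2 ≠ 0 := hb2'.ne'
    field_simp
    linear_combination ((b : ℝ) - 2) * hqrR
  · change (((2 : ℤ) : ℤ) : ℝ) = _
    simp only [Prod.snd_add, Prod.smul_snd, smul_eq_mul, ip2]
    have h : (b : ℝ) - 1 ≠ 0 := hb1.ne'
    have h' : (b : ℝ) - 2 ≠ 0 := hb2'.ne'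
    field_simp
    push_cast
    ring

end Pool.Agent.Lib.MP_0bc52e_nt.LC
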