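import Pool.Agent.Lib.MP_0bc52e_nt.LC.StmA

/-!
# MP_0bc52e_nt, piece row2
-/

set_option autoImplicit false

namespace Pool.Agent.Lib.MP_0bc52e_nt.LC

private lemma p_row2_pos (Q : Set (ℝ × ℝ)) (hQ : Convex ℝ Q) (hS : S4 Q) (a : ℤ)
    (ha : ip2 (a, 2) ∈ Q) (ha2 : 2 ≤ a) : ∃ g : ℝ × ℝ → ℝ × ℝ, IsUM g ∧ W3 (g '' Q) := by
  obtain ⟨h00, h10, h01, h11⟩ := hS
  obtain ⟨m, k, hm, hk, hmk⟩ : ∃ m k : ℤ, 1 ≤ m ∧ (k = 0 ∨ k = 1) ∧ k = 2 * m + 1 - a :=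
    ⟨a / 2, 2 * (a / 2) + 1 - a, by omega, by omega, rfl⟩
  have hk0 : ip2 (k, 0) ∈ Q := by
    rcases hk with rfl | rfl
    · simpa [ip2] using h00
    · simpa [ip2] using h10
  have ha' : ((a : ℝ), (2 : ℝ)) ∈ Q := by simpa [ip2] using ha
  -- the midpoint
  have hmid : (((1 + (a : ℝ)) / 2), (1 : ℝ)) ∈ Q := by
    have := hQ h10 ha' (a := 1 / 2) (b := 1 / 2) (by norm_num) (by norm_num) (by norm_num)
    convert this using 1
    ext
    · simp; ring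
    · simp
  have hm1 : ip2 (m - 1, 1) ∈ Q := by
    have hap : (0 : ℝ) < 1 + (a : ℝ) := by
      have : (2 : ℝ) ≤ a := by exact_mod_cast ha2
      linarith
    have hmr : (1 : ℝ) ≤ m := by exact_mod_cast hm
    have hm2 : 2 * (m : ℝ) ≤ a := by
      have : 2 * m ≤ a := by omega
      exact_mod_cast this
    have hs0 : 0 ≤ 2 * ((m : ℝ) - 1) / (1 + a) := by
      apply div_nonneg _ hap.le
      linarith
    have hs1 : 2 * ((m : ℝ) - 1) / (1 + a) ≤ 1 := by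
      rw [div_le_one hap]
      linarith
    have := hQ h01 hmid (a := 1 - 2 * ((m : ℝ) - 1) / (1 + a)) (b := 2 * ((m : ℝ) - 1) / (1 + a))
      (by linarith) hs0 (by ring)
    convert this using 1
    ext
    · simp [ip2]
      field_simp
    · simp [ip2]
  refine ⟨fun v => (v.2 - 1, -(v.1 - m) + ((a : ℝ) - m) * (v.2 - 1)),
    ⟨0, 1, -1, a - m, -1, 2 * m - a, by left; ring, ?_⟩, ?_, ?_, ?_⟩
  · intro v
    ext
    · push_cast; ring
    · push_cast; ring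
  · refine ⟨_, ha, ?_⟩
    ext
    · simp [ip2]; norm_num
    · simp [ip2]; ring
  · refine ⟨_, hm1, ?_⟩
    ext
    · simp [ip2]
    · simp [ip2]
  · refine ⟨_, hk0, ?_⟩
    ext
    · simp [ip2]
    · simp only [ip2]
      rw [hmk]
      push_cast
      ring

theorem p_row2 (h_um : S_um) (h_umconv : S_umconv) : S_row2 := by
  intro Q hQ hS a ha h0 h1
  by_cases ha2 : 2 ≤ a
  · exact p_row2_pos Q hQ hS a ha ha2
  · have hρ : IsUM (fun v : ℝ × ℝ => (1 - v.1, v.2)) := by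
      refine ⟨-1, 0, 0, 1, 1, 0, by right; ring, ?_⟩
      intro v
      ext
      · push_cast; ring
      · push_cast; ring
    obtain ⟨g, hg, hW⟩ := p_row2_pos ((fun v : ℝ × ℝ => (1 - v.1, v.2)) '' Q)
      ((h_umconv _ hρ Q).1 hQ) (by
        obtain ⟨h00, h10, h01, h11⟩ := hS
        refine ⟨⟨_, h10, ?_⟩, ⟨_, h00, ?_⟩, ⟨_, h11, ?_⟩, ⟨_, h01, ?_⟩⟩ <;> simp) (1 - a)
      ⟨_, ha, by simp [ip2]⟩ (by omega)
    refine ⟨g ∘ (fun v : ℝ × ℝ => (1 - v.1, v.2)), h_um.1 _ _ hρ hg, ?_⟩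
    rw [Set.image_comp]
    exact hW

end Pool.Agent.Lib.MP_0bc52e_nt.LC
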