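import Pool.Agent.Lib.MP_0bc52e_nt.LC.StmB

namespace Pool.Agent.Lib.MP_0bc52e_nt.LC

private theorem p_trapq_proj {P : Set (ℝ × ℝ × ℝ)} (hP : Convex ℝ P) : Convex ℝ (proj P) := by
  have h := hP.linear_image ((LinearMap.fst ℝ ℝ (ℝ × ℝ)).prod ((LinearMap.fst ℝ ℝ ℝ).comp (LinearMap.snd ℝ ℝ (ℝ × ℝ))))
  exact h

theorem p_trapq : S_trapq := by
  rintro P m n hP hn hnm ⟨-, ⟨z1, h1⟩, ⟨z2, h2⟩, ⟨z3, h3⟩, ⟨z4, h4⟩⟩ x y hx0 hx1 hy0 hy1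
  have hQ := p_trapq_proj hP
  have hn' : (1 : ℝ) ≤ n := by exact_mod_cast hn
  have hnm' : (n : ℝ) ≤ m := by exact_mod_cast hnm
  have c1 : ((0 : ℝ), (0 : ℝ)) ∈ proj P := ⟨_, h1, by simp [ip]⟩
  have c2 : ((0 : ℝ), (m : ℝ)) ∈ proj P := ⟨_, h2, by simp [ip]⟩
  have c3 : ((1 : ℝ), (0 : ℝ)) ∈ proj P := ⟨_, h3, by simp [ip]⟩
  have c4 : ((1 : ℝ), (n : ℝ)) ∈ proj P := ⟨_, h4, by simp [ip]⟩
  have hD : 0 < m - (m - n) * x := by nlinarith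
  set θ : ℝ := y / (m - (m - n) * x) with hθ
  have hθ0 : 0 ≤ θ := div_nonneg hy0 hD.le
  have hθ1 : θ ≤ 1 := by rw [hθ, div_le_one hD]; exact hy1
  have hθD : θ * (m - (m - n) * x) = y := div_mul_cancel₀ _ hD.ne'
  have d1 : ((0 : ℝ), m * θ) ∈ proj P := by
    have := hQ c1 c2 (show 0 ≤ 1 - θ by linarith) hθ0 (by ring)
    have e : (1 - θ) • ((0 : ℝ), (0 : ℝ)) + θ • ((0 : ℝ), (m : ℝ)) = ((0 : ℝ), m * θ) := by
      simp only [Prod.smul_mk, Prod.mk_add_mk, smul_eq_mul, Prod.mk.injEq]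
      constructor <;> ring
    rwa [e] at this
  have d2 : ((1 : ℝ), n * θ) ∈ proj P := by
    have := hQ c3 c4 (show 0 ≤ 1 - θ by linarith) hθ0 (by ring)
    have e : (1 - θ) • ((1 : ℝ), (0 : ℝ)) + θ • ((1 : ℝ), (n : ℝ)) = ((1 : ℝ), n * θ) := by
      simp only [Prod.smul_mk, Prod.mk_add_mk, smul_eq_mul, Prod.mk.injEq]
      constructor <;> ring
    rwa [e] at this
  have := hQ d1 d2 (show 0 ≤ 1 - x by linarith) hx0 (by ring)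
  have e : (1 - x) • ((0 : ℝ), m * θ) + x • ((1 : ℝ), n * θ) = (x, y) := by
    simp only [Prod.smul_mk, Prod.mk_add_mk, smul_eq_mul, Prod.mk.injEq]
    constructor
    · ring
    · rw [← hθD]; ring
  rwa [e] at this

end Pool.Agent.Lib.MP_0bc52e_nt.LC
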