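import Pool.Agent.Lib.MP_0bc52e_nt.LC.StmA

/-! # Piece tri: a convex set with all four classes contains a unimodular triangle -/

namespace Pool.Agent.Lib.MP_0bc52e_nt.LC

theorem p_tri_three (Q : Set (ℝ × ℝ)) (hQ : Convex ℝ Q) (A B C : ℝ × ℝ) (hA : A ∈ Q) (hB : B ∈ Q)
    (hC : C ∈ Q) (α β γ : ℝ) (hα : 0 ≤ α) (hβ : 0 ≤ β) (hγ : 0 ≤ γ) (h : α + β + γ = 1) :
    α • A + β • B + γ • C ∈ Q := by
  have h1 := hQ.sum_mem (t := Finset.univ) (w := ![α, β, γ]) (z := ![A, B, C])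
    (by intro i _; fin_cases i <;> simpa) (by simpa [Fin.sum_univ_three] using h)
    (by intro i _; fin_cases i <;> simpa)
  simpa [Fin.sum_univ_three] using h1

theorem p_tri_vec (u₁ u₂ w₁ w₂ D : ℤ) (hD : 2 ≤ D) (h : u₁ * w₂ - u₂ * w₁ = D) :
    ∃ y₁ y₂ : ℤ, ¬ (D ∣ y₁ * w₂ - y₂ * w₁ ∧ D ∣ u₁ * y₂ - u₂ * y₁) := by
  by_contra hcon
  push Not at hcon
  have h1 := hcon 1 0
  have h2 := hcon 0 1
  simp only [one_mul, zero_mul, sub_zero, mul_zero, mul_one, zero_sub, dvd_neg] at h1 h2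
  obtain ⟨⟨a, ha⟩, ⟨b, hb⟩⟩ := h1
  obtain ⟨⟨c, hc⟩, ⟨d, hd⟩⟩ := h2
  rw [ha, hb, hc, hd] at h
  have h3 : D * (D * (d * a - b * c) - 1) = 0 := by linear_combination h
  rcases mul_eq_zero.mp h3 with h4 | h4
  · omega
  · have h5 : D ∣ 1 := ⟨d * a - b * c, by linarith⟩
    have := Int.le_of_dvd one_pos h5
    omega

theorem p_tri_key (u₁ u₂ w₁ w₂ D : ℤ) (hD : 2 ≤ D) (h : u₁ * w₂ - u₂ * w₁ = D) :
    ∃ x₁ x₂ S T : ℤ, 0 ≤ S ∧ 0 ≤ T ∧ S + T ≤ D ∧ S < D ∧ T < D ∧ (S ≠ 0 ∨ T ≠ 0) ∧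
      x₁ * w₂ - x₂ * w₁ = S ∧ u₁ * x₂ - u₂ * x₁ = T ∧ D * x₁ = S * u₁ + T * w₁ ∧
      D * x₂ = S * u₂ + T * w₂ := by
  obtain ⟨y₁, y₂, hy⟩ := p_tri_vec u₁ u₂ w₁ w₂ D hD h
  set S₀ := y₁ * w₂ - y₂ * w₁ with hS₀
  set T₀ := u₁ * y₂ - u₂ * y₁ with hT₀
  have hDp : 0 < D := by omega
  have s1 := Int.emod_nonneg S₀ hDp.ne'
  have s2 := Int.emod_lt_of_pos S₀ hDp
  have t1 := Int.emod_nonneg T₀ hDp.ne'
  have t2 := Int.emod_lt_of_pos T₀ hDp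
  have s3 := Int.mul_ediv_add_emod S₀ D
  have t3 := Int.mul_ediv_add_emod T₀ D
  have hne : S₀ % D ≠ 0 ∨ T₀ % D ≠ 0 := by
    by_contra hcon
    push Not at hcon
    exact hy ⟨Int.dvd_of_emod_eq_zero hcon.1, Int.dvd_of_emod_eq_zero hcon.2⟩
  set S := S₀ % D
  set T := T₀ % D
  set a := S₀ / D
  set b := T₀ / D
  have e1 : (y₁ - a * u₁ - b * w₁) * w₂ - (y₂ - a * u₂ - b * w₂) * w₁ = S := by
    have : (y₁ - a * u₁ - b * w₁) * w₂ - (y₂ - a * u₂ - b * w₂) * w₁ =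
      S₀ - a * (u₁ * w₂ - u₂ * w₁) := by rw [hS₀]; ring
    rw [this, h]
    linarith
  have e2 : u₁ * (y₂ - a * u₂ - b * w₂) - u₂ * (y₁ - a * u₁ - b * w₁) = T := by
    have : u₁ * (y₂ - a * u₂ - b * w₂) - u₂ * (y₁ - a * u₁ - b * w₁) =
      T₀ - b * (u₁ * w₂ - u₂ * w₁) := by rw [hT₀]; ring
    rw [this, h]
    linarith
  set x₁ := y₁ - a * u₁ - b * w₁
  set x₂ := y₂ - a * u₂ - b * w₂
  by_cases hle : S + T ≤ D
  · refine ⟨x₁, x₂, S, T, s1, t1, hle, s2, t2, hne, e1, e2, ?_, ?_⟩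
    · rw [← e1, ← e2, ← h]; ring
    · rw [← e1, ← e2, ← h]; ring
  · refine ⟨u₁ + w₁ - x₁, u₂ + w₂ - x₂, D - S, D - T, by omega, by omega, by omega, by omega,
      by omega, by omega, ?_, ?_, ?_, ?_⟩
    · rw [← e1, ← h]; ring
    · rw [← e2, ← h]; ring
    · rw [← e1, ← e2, ← h]; ring
    · rw [← e1, ← e2, ← h]; ring

theorem p_tri_ind (Q : Set (ℝ × ℝ)) (hQ : Convex ℝ Q) (n : ℕ) :
    ∀ a₁ a₂ b₁ b₂ c₁ c₂ : ℤ, ip2 (a₁, a₂) ∈ Q → ip2 (b₁, b₂) ∈ Q → ip2 (c₁, c₂) ∈ Q →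
      (b₁ - a₁) * (c₂ - a₂) - (b₂ - a₂) * (c₁ - a₁) = n → 0 < n →
      ∃ a₁ a₂ b₁ b₂ c₁ c₂ : ℤ, ip2 (a₁, a₂) ∈ Q ∧ ip2 (b₁, b₂) ∈ Q ∧ ip2 (c₁, c₂) ∈ Q ∧
        (b₁ - a₁) * (c₂ - a₂) - (b₂ - a₂) * (c₁ - a₁) = 1 := by
  induction n using Nat.strong_induction_on with
  | _ n ih =>
    intro a₁ a₂ b₁ b₂ c₁ c₂ hA hB hC hdet hn
    by_cases h1 : n = 1
    · exact ⟨a₁, a₂, b₁, b₂, c₁, c₂, hA, hB, hC, by rw [hdet, h1]; rfl⟩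
    obtain ⟨x₁, x₂, S, T, hS, hT, hST, hSD, hTD, hne, e1, e2, e3, e4⟩ :=
      p_tri_key (b₁ - a₁) (b₂ - a₂) (c₁ - a₁) (c₂ - a₂) n (by omega) hdet
    have hn' : (0 : ℝ) < n := by exact_mod_cast hn
    have hX : ip2 (a₁ + x₁, a₂ + x₂) ∈ Q := by
      have hS' : (0 : ℝ) ≤ S := by exact_mod_cast hS
      have hT' : (0 : ℝ) ≤ T := by exact_mod_cast hT
      have hST' : (S : ℝ) + T ≤ n := by exact_mod_cast hST
      have e3' : (n : ℝ) * x₁ = S * (b₁ - a₁) + T * (c₁ - a₁) := by exact_mod_cast e3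
      have e4' : (n : ℝ) * x₂ = S * (b₂ - a₂) + T * (c₂ - a₂) := by exact_mod_cast e4
      have h2 := p_tri_three Q hQ _ _ _ hA hB hC ((n - S - T) / n) (S / n) (T / n)
        (div_nonneg (by linarith) hn'.le) (div_nonneg hS' hn'.le) (div_nonneg hT' hn'.le)
        (by field_simp; ring)
      have h3 : ip2 (a₁ + x₁, a₂ + x₂) = (((n : ℝ) - S - T) / n) • ip2 (a₁, a₂) +
          ((S : ℝ) / n) • ip2 (b₁, b₂) + ((T : ℝ) / n) • ip2 (c₁, c₂) := by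
        unfold ip2
        refine Prod.ext ?_ ?_
        · simp only [Prod.smul_mk, Prod.mk_add_mk, smul_eq_mul]
          push_cast
          field_simp
          linear_combination e3'
        · simp only [Prod.smul_mk, Prod.mk_add_mk, smul_eq_mul]
          push_cast
          field_simp
          linear_combination e4'
      rw [h3]
      exact h2
    rcases hne with hne | hne
    · refine ih S.toNat (by omega) a₁ a₂ (a₁ + x₁) (a₂ + x₂) c₁ c₂ hA hX hC ?_ (by omega)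
      rw [Int.toNat_of_nonneg hS, ← e1]
      ring
    · refine ih T.toNat (by omega) a₁ a₂ b₁ b₂ (a₁ + x₁) (a₂ + x₂) hA hB hX ?_ (by omega)
      rw [Int.toNat_of_nonneg hT, ← e2]
      ring

theorem p_tri : S_tri := by
  intro Q hQ hP
  obtain ⟨a₁, a₂, hA, ha₁, ha₂⟩ := hP 0 0
  obtain ⟨b₁, b₂, hB, hb₁, hb₂⟩ := hP 1 0
  obtain ⟨c₁, c₂, hC, hc₁, hc₂⟩ := hP 0 1
  have hodd : (b₁ - a₁) * (c₂ - a₂) - (b₂ - a₂) * (c₁ - a₁) ≠ 0 := by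
    obtain ⟨p₁, hp₁⟩ := ha₁
    obtain ⟨p₂, hp₂⟩ := ha₂
    obtain ⟨q₁, hq₁⟩ := hb₁
    obtain ⟨q₂, hq₂⟩ := hb₂
    obtain ⟨r₁, hr₁⟩ := hc₁
    obtain ⟨r₂, hr₂⟩ := hc₂
    have k1 : a₁ = 2 * p₁ := by linarith
    have k2 : a₂ = 2 * p₂ := by linarith
    have k3 : b₁ = 2 * q₁ + 1 := by linarith
    have k4 : b₂ = 2 * q₂ := by linarith
    have k5 : c₁ = 2 * r₁ := by linarith
    have k6 : c₂ = 2 * r₂ + 1 := by linarith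
    intro h0
    have h1 : (b₁ - a₁) * (c₂ - a₂) - (b₂ - a₂) * (c₁ - a₁) =
        2 * (2 * (q₁ - p₁) * (r₂ - p₂) + (q₁ - p₁) + (r₂ - p₂) -
          2 * (q₂ - p₂) * (r₁ - p₁)) + 1 := by
      rw [k1, k2, k3, k4, k5, k6]; ring
    omega
  rcases lt_or_gt_of_ne hodd with hneg | hpos
  · refine p_tri_ind Q hQ (-((b₁ - a₁) * (c₂ - a₂) - (b₂ - a₂) * (c₁ - a₁))).toNat
      a₁ a₂ c₁ c₂ b₁ b₂ hA hC hB ?_ (by omega)
    rw [Int.toNat_of_nonneg (by omega)]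
    ring
  · refine p_tri_ind Q hQ ((b₁ - a₁) * (c₂ - a₂) - (b₂ - a₂) * (c₁ - a₁)).toNat
      a₁ a₂ b₁ b₂ c₁ c₂ hA hB hC ?_ (by omega)
    rw [Int.toNat_of_nonneg (by omega)]

end Pool.Agent.Lib.MP_0bc52e_nt.LC
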