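import Pool.Agent.Lib.MP_0bc52e_nt.LC.StmA

namespace Pool.Agent.Lib.MP_0bc52e_nt.LC

theorem p_um : S_um := by
  refine ⟨?_, ?_, ?_⟩
  · rintro g₁ g₂ ⟨a, b, c, d, e, f, h, hg⟩ ⟨a', b', c', d', e', f', h', hg'⟩
    refine ⟨a' * a + b' * c, a' * b + b' * d, c' * a + d' * c, c' * b + d' * d,
      a' * e + b' * f + e', c' * e + d' * f + f', ?_, ?_⟩
    · have key : (a' * a + b' * c) * (c' * b + d' * d) - (a' * b + b' * d) * (c' * a + d' * c)
          = (a * d - b * c) * (a' * d' - b' * c') := by ring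
      rw [key]
      rcases h with h | h <;> rcases h' with h' | h' <;> rw [h, h'] <;> norm_num
    · intro v
      rw [Function.comp_apply, hg, hg']
      ext
      · push_cast; ring
      · push_cast; ring
  · rintro g ⟨a, b, c, d, e, f, h, hg⟩
    obtain ⟨D, hD, hD1, hDD⟩ : ∃ D : ℤ, D = a * d - b * c ∧ (D = 1 ∨ D = -1) ∧ D * D = 1 := by
      refine ⟨_, rfl, h, ?_⟩
      rcases h with h | h <;> rw [h] <;> norm_num
    have hD' : (D : ℝ) = a * d - b * c := by rw [hD]; push_cast; ring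
    have hDD' : (D : ℝ) * D = 1 := by exact_mod_cast hDD
    refine ⟨fun v => ((D * d : ℤ) * v.1 + (-(D * b) : ℤ) * v.2 + (-(D * d * e - D * b * f) : ℤ),
      (-(D * c) : ℤ) * v.1 + (D * a : ℤ) * v.2 + (-(-(D * c * e) + D * a * f) : ℤ)), ?_, ?_, ?_⟩
    · refine ⟨D * d, -(D * b), -(D * c), D * a, _, _, ?_, fun v => rfl⟩
      have key : D * d * (D * a) - -(D * b) * -(D * c) = (D * D) * (a * d - b * c) := by ring
      rw [key, hDD, one_mul]
      exact h
    · intro v
      rw [hg]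
      ext
      · push_cast
        linear_combination (v.1) * hDD' - (D : ℝ) * v.1 * hD'
      · push_cast
        linear_combination (v.2) * hDD' - (D : ℝ) * v.2 * hD'
    · intro v
      rw [hg]
      ext
      · push_cast
        linear_combination (v.1) * hDD' - (D : ℝ) * v.1 * hD' - (e : ℝ) * hDD' + (e : ℝ) * D * hD'
      · push_cast
        linear_combination (v.2) * hDD' - (D : ℝ) * v.2 * hD' - (f : ℝ) * hDD' + (f : ℝ) * D * hD'
  · refine ⟨1, 0, 0, 1, 0, 0, Or.inl (by norm_num), fun v => ?_⟩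
    ext <;> simp

end Pool.Agent.Lib.MP_0bc52e_nt.LC
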