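import Pool.Agent.Lib.MP_0bc52e_nt.LC.StmA

namespace Pool.Agent.Lib.MP_0bc52e_nt.LC

private noncomputable def p_umconv_aff (a b c d e f : ℤ) : (ℝ × ℝ) →ᵃ[ℝ] (ℝ × ℝ) :=
  ((((a : ℝ) • LinearMap.fst ℝ ℝ ℝ + (b : ℝ) • LinearMap.snd ℝ ℝ ℝ).prod
    ((c : ℝ) • LinearMap.fst ℝ ℝ ℝ + (d : ℝ) • LinearMap.snd ℝ ℝ ℝ)).toAffineMap) +
    AffineMap.const ℝ (ℝ × ℝ) (((e : ℝ), (f : ℝ)) : ℝ × ℝ)

private theorem p_umconv_aff_apply (a b c d e f : ℤ) (v : ℝ × ℝ) :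
    p_umconv_aff a b c d e f v = (a * v.1 + b * v.2 + e, c * v.1 + d * v.2 + f) := by
  simp [p_umconv_aff]

theorem p_umconv (h_um : S_um) : S_umconv := by
  intro g hg Q
  obtain ⟨g', hg', -, hgg'⟩ := h_um.2.1 g hg
  obtain ⟨a, b, c, d, e, f, -, hgv⟩ := hg
  have hG : g = p_umconv_aff a b c d e f := by
    funext v
    rw [hgv, p_umconv_aff_apply]
  refine ⟨fun hQ => ?_, ?_, ?_⟩
  · rw [hG]
    exact hQ.affine_image _
  · rintro ⟨V, rfl⟩
    refine ⟨V.image (fun w : ℤ × ℤ => (a * w.1 + b * w.2 + e, c * w.1 + d * w.2 + f)), ?_⟩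
    rw [hG, AffineMap.image_convexHull, Finset.coe_image, Set.image_image, Set.image_image]
    congr 1
    refine Set.image_congr fun w _ => ?_
    rw [p_umconv_aff_apply]
    simp [ip2]
  · intro hQ a' b'
    obtain ⟨a₁, b₁, c₁, d₁, e₁, f₁, -, hg'v⟩ := hg'
    obtain ⟨x, y, hxy, hx, hy⟩ := hQ (a₁ * a' + b₁ * b' + e₁) (c₁ * a' + d₁ * b' + f₁)
    have key := hgg' (ip2 (a', b'))
    rw [hg'v, hgv] at key
    simp only [ip2, Prod.mk.injEq] at key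
    obtain ⟨k1, k2⟩ := key
    have k1' : a * (a₁ * a' + b₁ * b' + e₁) + b * (c₁ * a' + d₁ * b' + f₁) + e = a' := by exact_mod_cast k1
    have k2' : c * (a₁ * a' + b₁ * b' + e₁) + d * (c₁ * a' + d₁ * b' + f₁) + f = b' := by exact_mod_cast k2
    refine ⟨a * x + b * y + e, c * x + d * y + f, ⟨ip2 (x, y), hxy, ?_⟩, ?_, ?_⟩
    · rw [hgv]
      simp [ip2]
    · have : a * x + b * y + e - a' = a * (x - (a₁ * a' + b₁ * b' + e₁)) + b * (y - (c₁ * a' + d₁ * b' + f₁)) := by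
        linear_combination k1'
      rw [this]
      exact dvd_add (hx.mul_left a) (hy.mul_left b)
    · have : c * x + d * y + f - b' = c * (x - (a₁ * a' + b₁ * b' + e₁)) + d * (y - (c₁ * a' + d₁ * b' + f₁)) := by
        linear_combination k2'
      rw [this]
      exact dvd_add (hx.mul_left c) (hy.mul_left d)

end Pool.Agent.Lib.MP_0bc52e_nt.LC
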