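import Pool.Agent.Lib.MP_0bc52e_nt.LC.StmA

namespace Pool.Agent.Lib.MP_0bc52e_nt.LC

/-- Both directions of the integer points, image form. -/
theorem p_vdmap_isI {g : ℝ × ℝ → ℝ × ℝ} (hg : IsUM g) (v : ℝ × ℝ × ℝ) (hv : IsI v) :
    IsI (lift g v) := by
  obtain ⟨a, b, c, d, e, f, _, hgv⟩ := hg
  obtain ⟨⟨x, y, z⟩, rfl⟩ := hv
  refine ⟨(a * x + b * y + e, c * x + d * y + f, z), ?_⟩
  simp only [lift, ip, hgv]
  push_cast
  rfl

/-- `lift g` is affine. -/
theorem p_vdmap_affine {g : ℝ × ℝ → ℝ × ℝ} (hg : IsUM g) :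
    ∃ G : (ℝ × ℝ × ℝ) →ᵃ[ℝ] (ℝ × ℝ × ℝ), ∀ v, G v = lift g v := by
  obtain ⟨a, b, c, d, e, f, _, hgv⟩ := hg
  let l : (ℝ × ℝ × ℝ) →ₗ[ℝ] (ℝ × ℝ × ℝ) :=
    { toFun := fun v => ((a : ℝ) * v.1 + b * v.2.1, (c : ℝ) * v.1 + d * v.2.1, v.2.2)
      map_add' := by
        intro v w
        ext <;> simp <;> ring
      map_smul' := by
        intro t v
        ext <;> simp <;> ring }
  refine ⟨l.toAffineMap + AffineMap.const ℝ _ ((e : ℝ), (f : ℝ), (0 : ℝ)), ?_⟩
  intro v
  simp only [lift, hgv, l]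
  ext <;> simp

theorem p_vdmap_lift_comp {g g' : ℝ × ℝ → ℝ × ℝ} (h : ∀ v, g' (g v) = v) (v : ℝ × ℝ × ℝ) :
    lift g' (lift g v) = v := by
  have := h (v.1, v.2.1)
  simp only [lift]
  rw [show (((g (v.1, v.2.1)).1, (g (v.1, v.2.1)).2) : ℝ × ℝ) = g (v.1, v.2.1) from rfl, this]

theorem p_vdmap (h_um : S_um) : S_vdmap := by
  intro P p L g hg hP
  obtain ⟨g', hg', h1, h2⟩ := h_um.2.1 g hg
  obtain ⟨G, hG⟩ := p_vdmap_affine hg
  have hGimg : lift g '' P = G '' P := by
    ext v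
    simp only [Set.mem_image, hG]
  obtain ⟨hlp, hpc, hcrit, hch⟩ := hP
  obtain ⟨a, b, c, d, e, f, hdet, hgv⟩ := hg
  have hsq : (a * d - b * c) * (a * d - b * c) = 1 := by
    rcases hdet with h | h <;> rw [h] <;> norm_num
  -- the integer points
  have hIp : ∀ x y z : ℤ, lift g (ip (x, y, z)) = ip (a * x + b * y + e, c * x + d * y + f, z) := by
    intro x y z
    simp only [lift, ip, hgv]
    push_cast
    rfl
  refine ⟨⟨?_, ?_, ?_, ?_⟩, ?_, ?_⟩
  · -- lp
    obtain ⟨V, hV⟩ := hlp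
    classical
    refine ⟨V.image (fun v => (a * v.1 + b * v.2.1 + e, c * v.1 + d * v.2.1 + f, v.2.2)), ?_⟩
    rw [hGimg, hV, AffineMap.image_convexHull]
    congr 1
    rw [Finset.coe_image, Set.image_image, Set.image_image]
    apply Set.image_congr
    rintro ⟨x, y, z⟩ _
    rw [hG, hIp]
  · -- pc
    intro a' b' c'
    set D : ℤ := a * d - b * c with hD
    -- the class whose image is (a', b')
    obtain ⟨x, y, z, hm, hx, hy, hz⟩ := hpc (D * (d * (a' - e) - b * (b' - f)))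
      (D * (-c * (a' - e) + a * (b' - f))) c'
    refine ⟨a * x + b * y + e, c * x + d * y + f, z, ?_, ?_, ?_, hz⟩
    · rw [← hIp]
      exact Set.mem_image_of_mem _ hm
    · obtain ⟨k, hk⟩ := hx
      obtain ⟨l, hl⟩ := hy
      refine ⟨a * k + b * l, ?_⟩
      have : x = 2 * k + D * (d * (a' - e) - b * (b' - f)) := by linarith
      have h' : y = 2 * l + D * (-c * (a' - e) + a * (b' - f)) := by linarith
      rw [this, h']
      have : D * (a * d - b * c) = 1 := by rw [← hD]; exact hsq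
      linear_combination (a' - e) * this
    · obtain ⟨k, hk⟩ := hx
      obtain ⟨l, hl⟩ := hy
      refine ⟨c * k + d * l, ?_⟩
      have : x = 2 * k + D * (d * (a' - e) - b * (b' - f)) := by linarith
      have h' : y = 2 * l + D * (-c * (a' - e) + a * (b' - f)) := by linarith
      rw [this, h']
      have : D * (a * d - b * c) = 1 := by rw [← hD]; exact hsq
      linear_combination (b' - f) * this
  · -- crit
    obtain ⟨o₁, o₂, o₃, ho⟩ := hcrit
    refine ⟨a * o₁ + b * o₂ + e, c * o₁ + d * o₂ + f, o₃, ?_⟩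
    intro h h0 hp x' y' z u' v' w' hmem hx hy hz dx dy dz
    obtain ⟨⟨u, v, w⟩, huv, hl⟩ := hmem
    simp only [lift, hgv, Prod.mk.injEq] at hl
    obtain ⟨hu, hv, hw⟩ := hl
    set D : ℤ := a * d - b * c with hD
    have hDR : (D : ℝ) * (a * d - b * c) = 1 := by
      have : ((D * (a * d - b * c) : ℤ) : ℝ) = ((1 : ℤ) : ℝ) := by rw [hD, hsq]
      push_cast at this
      exact this
    -- preimage
    refine ho h h0 hp (D * (d * (x' - h * e) - b * (y' - h * f)))
      (D * (-c * (x' - h * e) + a * (y' - h * f))) z u v w huv ?_ ?_ ?_ ?_ ?_ dz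
    · push_cast
      rw [hx, hy, ← hu, ← hv]
      linear_combination (h * u : ℝ) * hDR
    · push_cast
      rw [hx, hy, ← hu, ← hv]
      linear_combination (h * v : ℝ) * hDR
    · rw [hz, ← hw]
    · obtain ⟨k, hk⟩ := dx
      obtain ⟨l, hl⟩ := dy
      refine ⟨D * (d * k - b * l), ?_⟩
      have h1 : x' = p * k + h * (a * o₁ + b * o₂ + e) := by linarith
      have h2 : y' = p * l + h * (c * o₁ + d * o₂ + f) := by linarith
      rw [h1, h2]
      have : D * (a * d - b * c) = 1 := by rw [← hD]; exact hsq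
      linear_combination (h * o₁ : ℤ) * this
    · obtain ⟨k, hk⟩ := dx
      obtain ⟨l, hl⟩ := dy
      refine ⟨D * (-c * k + a * l), ?_⟩
      have h1 : x' = p * k + h * (a * o₁ + b * o₂ + e) := by linarith
      have h2 : y' = p * l + h * (c * o₁ + d * o₂ + f) := by linarith
      rw [h1, h2]
      have : D * (a * d - b * c) = 1 := by rw [← hD]; exact hsq
      linear_combination (h * o₂ : ℤ) * this
  · -- chord
    obtain ⟨X, Y, Z, hA, hB⟩ := hch
    exact ⟨(g (X, Y)).1, (g (X, Y)).2, Z, ⟨_, hA, rfl⟩, ⟨_, hB, rfl⟩⟩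
  · -- ZEq
    have hbij : Function.Bijective G := by
      constructor
      · intro v w hvw
        rw [hG, hG] at hvw
        rw [← p_vdmap_lift_comp h1 v, hvw, p_vdmap_lift_comp h1]
      · intro w
        exact ⟨lift g' w, by rw [hG, p_vdmap_lift_comp h2]⟩
    refine ⟨AffineEquiv.ofBijective hbij, ?_, ?_⟩
    · intro v
      rw [AffineEquiv.ofBijective_apply, hG]
      constructor
      · intro hv
        have := p_vdmap_isI hg' _ hv
        rwa [p_vdmap_lift_comp h1] at this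
      · intro hv
        exact p_vdmap_isI ⟨a, b, c, d, e, f, hdet, hgv⟩ v hv
    · ext v
      simp only [Set.mem_image, AffineEquiv.ofBijective_apply, hG]
  · -- proj
    ext v
    simp only [proj, Set.mem_image]
    constructor
    · rintro ⟨w, ⟨u, hu, rfl⟩, rfl⟩
      exact ⟨(u.1, u.2.1), ⟨u, hu, rfl⟩, rfl⟩
    · rintro ⟨w, ⟨u, hu, rfl⟩, rfl⟩
      exact ⟨lift g u, ⟨u, hu, rfl⟩, rfl⟩

end Pool.Agent.Lib.MP_0bc52e_nt.LC
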