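import Pool.Agent.Lib.MP_0bc52e_nt.LC.StmB

/-!
# Piece `zeq`: integer equivalence is an equivalence relation
-/

set_option autoImplicit false

namespace Pool.Agent.Lib.MP_0bc52e_nt.LC

theorem p_zeq : S_zeq := by
  refine ⟨fun P => ⟨AffineEquiv.refl ℝ _, fun v => Iff.rfl, ?_⟩, ?_, ?_⟩
  · ext x
    simp
  · rintro P P' ⟨g, hg, hP⟩
    refine ⟨g.symm, fun v => ?_, ?_⟩
    · rw [← hg (g.symm v), AffineEquiv.apply_symm_apply]
    · rw [← hP, Set.image_image]
      simp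
  · rintro P P' P'' ⟨g, hg, hP⟩ ⟨g', hg', hP'⟩
    refine ⟨g.trans g', fun v => ?_, ?_⟩
    · rw [AffineEquiv.trans_apply, hg', hg]
    · rw [← hP', ← hP, Set.image_image]
      rfl

end Pool.Agent.Lib.MP_0bc52e_nt.LC
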