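import Pool.Agent.Lib.MP_0bc52e_nt.LC.StmA
import Pool.Agent.Lib.MP_0bc52e_nt.LC.StmB

namespace Pool.Agent.Lib.MP_0bc52e_nt.LC

/-- points of the triangle -/
private theorem p_Dsmall_tri (Q : Set (ℝ × ℝ)) (hQ : Convex ℝ Q) (hD : Dl Q) (u v : ℝ)
    (hu : 0 ≤ u) (hv : 0 ≤ v) (huv : u + v ≤ 2) : (u, v) ∈ Q := by
  obtain ⟨h0, h1, h2, _⟩ := hD
  rcases (add_nonneg hu hv).eq_or_lt with h | h
  · have hu0 : u = 0 := by linarith
    have hv0 : v = 0 := by linarith
    rw [hu0, hv0]; exact h0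
  · have h3 : (u / (u + v)) • ((2 : ℝ), (0 : ℝ)) + (v / (u + v)) • ((0 : ℝ), (2 : ℝ)) ∈ Q :=
      hQ h1 h2 (by positivity) (by positivity) (by field_simp)
    have h4 : (1 - (u + v) / 2) • ((0 : ℝ), (0 : ℝ)) + ((u + v) / 2) •
        ((u / (u + v)) • ((2 : ℝ), (0 : ℝ)) + (v / (u + v)) • ((0 : ℝ), (2 : ℝ))) ∈ Q :=
      hQ h0 h3 (by linarith) (by linarith) (by ring)
    have h5 : (1 - (u + v) / 2) • ((0 : ℝ), (0 : ℝ)) + ((u + v) / 2) •
        ((u / (u + v)) • ((2 : ℝ), (0 : ℝ)) + (v / (u + v)) • ((0 : ℝ), (2 : ℝ))) = (u, v) := by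
      ext
      · simp
        field_simp
      · simp
        field_simp
    rw [h5] at h4
    exact h4

theorem p_Dsmall (h_res : S_res) : S_Dsmall := by
  intro Q p a b X Y L hQ hD hXY hp hL hpL hdiam
  have hpR : (7 : ℝ) ≤ p := by exact_mod_cast hp
  have hL0 : 0 < L := by linarith
  obtain ⟨hX0, hY0, hXY2⟩ := hD.2.2.2 _ hXY
  change 0 ≤ X at hX0
  change 0 ≤ Y at hY0
  change X + Y ≤ 2 at hXY2
  obtain ⟨A, hA1, hA2, hA3⟩ := h_res p (by omega) (-a) 1
  obtain ⟨B, hB1, hB2, hB3⟩ := h_res p (by omega) (-b) 1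
  have hA4 : A < 1 + p := by
    have : (A : ℝ) < ((1 + p : ℤ) : ℝ) := by push_cast; exact hA3
    exact_mod_cast this
  have hB4 : B < 1 + p := by
    have : (B : ℝ) < ((1 + p : ℤ) : ℝ) := by push_cast; exact hB3
    exact_mod_cast this
  set t : ℝ := p / L with ht
  have ht0 : 0 < t := by positivity
  have ht1 : t ≤ 1 / 2 := by
    rw [ht, div_le_iff₀ hL0]; linarith
  by_cases hAB : A + B ≤ 2 * p - 3
  · exfalso
    have hABR : (A : ℝ) + B ≤ 2 * p - 3 := by exact_mod_cast hAB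
    have hh : ((p - 1 : ℕ) : ℝ) = p - 1 := by
      rw [Nat.cast_sub (by omega)]; simp
    have hhZ : ((p - 1 : ℕ) : ℤ) = p - 1 := by
      rw [Nat.cast_sub (by omega)]; simp
    have hlam : 0 < (p : ℝ) - 1 - t := by linarith
    have hq : (((A : ℝ) - t * X) / (p - 1 - t), ((B : ℝ) - t * Y) / (p - 1 - t)) ∈ Q := by
      apply p_Dsmall_tri Q hQ hD
      · apply div_nonneg _ hlam.le
        nlinarith
      · apply div_nonneg _ hlam.le
        nlinarith
      · rw [← add_div, div_le_iff₀ hlam]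
        have : 0 ≤ t * (X + Y) := by positivity
        nlinarith
    refine hdiam (p - 1) (by omega) (by omega) (by rw [hh]; linarith) _ hq A B ?_ ?_ ?_ ?_
    · rw [hh]
      change (A : ℝ) = t * X + (p - 1 - t) * (((A : ℝ) - t * X) / (p - 1 - t))
      field_simp
      ring
    · rw [hh]
      change (B : ℝ) = t * Y + (p - 1 - t) * (((B : ℝ) - t * Y) / (p - 1 - t))
      field_simp
      ring
    · rw [hhZ]
      obtain ⟨c, hc⟩ := hA1
      exact ⟨c - a, by linear_combination hc⟩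
    · rw [hhZ]
      obtain ⟨c, hc⟩ := hB1
      exact ⟨c - b, by linear_combination hc⟩
  · refine ⟨p - A, p - B, by omega, by omega, by omega, ?_, ?_⟩
    · obtain ⟨c, hc⟩ := hA1
      exact ⟨c - 1, by linear_combination hc⟩
    · obtain ⟨c, hc⟩ := hB1
      exact ⟨c - 1, by linear_combination hc⟩

end Pool.Agent.Lib.MP_0bc52e_nt.LC
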