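import Pool.Agent.Lib.MP_0bc52e_nt.LC.StmC

set_option autoImplicit false

open scoped Pointwise
open MeasureTheory

namespace Pool.Agent.Lib.MP_0bc52e_nt.LC

theorem p_F1vol : S_F1vol := by
  intro P v₀ W hP hv hW
  set A : Matrix (Fin 3) (Fin 3) ℝ := W.map (fun x : ℤ => (x : ℝ)) with hA
  set c : Fin 3 → ℝ := fun i => (v₀ i : ℝ) with hc
  set S : Set (Fin 3 → ℝ) := Set.Icc 0 (fun _ => 1 / 3) with hS
  have hdet : A.det = (W.det : ℝ) := by
    rw [hA]
    have := (Int.castRingHom ℝ).map_det W
    simpa using this.symm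
  have hsub : (fun x => c + x) '' (Matrix.toLin' A '' S) ⊆ P := by
    rintro _ ⟨_, ⟨t, ht, rfl⟩, rfl⟩
    have ht0 : ∀ i, 0 ≤ t i := fun i => ht.1 i
    have ht1 : ∀ i, t i ≤ 1 / 3 := fun i => ht.2 i
    have key := hP.sum_mem (t := (Finset.univ : Finset (Fin 4)))
      (w := ![1 - t 0 - t 1 - t 2, t 0, t 1, t 2])
      (z := ![c, fun i => ((v₀ i + W i 0 : ℤ) : ℝ), fun i => ((v₀ i + W i 1 : ℤ) : ℝ),
        fun i => ((v₀ i + W i 2 : ℤ) : ℝ)])
      (by
        intro i _
        fin_cases i
        · simp only [Fin.zero_eta, Matrix.cons_val_zero]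
          linarith [ht1 0, ht1 1, ht1 2]
        · exact ht0 0
        · exact ht0 1
        · exact ht0 2)
      (by
        simp only [Fin.sum_univ_four, Matrix.cons_val_zero, Matrix.cons_val_one, Matrix.cons_val]
        ring)
      (by
        intro i _
        fin_cases i
        · exact hv
        · exact hW 0
        · exact hW 1
        · exact hW 2)
    convert key using 1
    rw [Fin.sum_univ_four]
    ext i
    simp only [Matrix.toLin'_apply, Pi.add_apply, Matrix.mulVec, dotProduct, Fin.sum_univ_three, hA, hc,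
      Matrix.map_apply, Matrix.cons_val_zero, Matrix.cons_val_one, Matrix.cons_val, Pi.smul_apply,
      smul_eq_mul, Int.cast_add]
    ring
  have hvol : volume ((fun x => c + x) '' (Matrix.toLin' A '' S)) =
      ENNReal.ofReal |A.det| * ENNReal.ofReal (1 / 3) ^ 3 := by
    rw [Set.image_add_left, measure_preimage_add, Measure.addHaar_image_linearMap,
      LinearMap.det_toLin', hS, Real.volume_Icc_pi]
    simp
  have h1 : ENNReal.ofReal |A.det| * ENNReal.ofReal (1 / 3) ^ 3 ≤ volume P := by
    rw [← hvol]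
    exact measure_mono hsub
  have h2 : ENNReal.ofReal ((|W.det| : ℤ) : ℝ) =
      27 * (ENNReal.ofReal |A.det| * ENNReal.ofReal (1 / 3) ^ 3) := by
    rw [← ENNReal.ofReal_pow (by norm_num), ← ENNReal.ofReal_mul (abs_nonneg _)]
    have h27 : (27 : ENNReal) = ENNReal.ofReal 27 := by
      simp
    rw [h27, ← ENNReal.ofReal_mul (by norm_num), hdet]
    congr 1
    push_cast
    ring
  rw [h2]
  exact mul_le_mul_right h1 27

end Pool.Agent.Lib.MP_0bc52e_nt.LC
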