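import Pool.Agent.Lib.MP_0bc52e_nt.LC.StmA
import Pool.Agent.Lib.MP_0bc52e_nt.LC.StmB

/-! # Piece N5: the criterion point is not over a vertical face -/

namespace Pool.Agent.Lib.MP_0bc52e_nt.LC

theorem p_N5_aux (h_plane : S_plane) (P : Set (ℝ × ℝ × ℝ)) (p : ℕ) (a b c : ℤ) (hP : Convex ℝ P)
    (hpc : PC3 P) (hs : ∀ v ∈ P, 0 ≤ v.1 ∧ v.1 ≤ 1) (hp : p.Prime) (hp7 : 7 ≤ p)
    (hcr : Crit3 P p a b c) (e : ℤ) (he : e = 0 ∨ e = 1) (hae : (p : ℤ) ∣ a - e) : False := by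
  refine h_plane {q : ℝ × ℝ | ((e : ℝ), q.1, q.2) ∈ P} p b c ?_ ?_ hp hp7 ?_
  · intro x hx y hy s t hs0 ht0 hst
    have h1 := hP hx hy hs0 ht0 hst
    have h2 : s • ((e : ℝ), x.1, x.2) + t • ((e : ℝ), y.1, y.2) =
        ((e : ℝ), (s • x + t • y).1, (s • x + t • y).2) := by
      have h3 : s * (e : ℝ) + t * e = e := by rw [← add_mul, hst, one_mul]
      refine Prod.ext ?_ rfl
      exact h3
    rw [h2] at h1
    exact h1
  · intro b' c'
    obtain ⟨x, y, z, hxyz, hx, hy, hz⟩ := hpc e b' c'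
    have h1 := hs _ hxyz
    have h2 : 0 ≤ x := by
      have : (0 : ℝ) ≤ (x : ℝ) := h1.1
      exact_mod_cast this
    have h3 : x ≤ 1 := by
      have : (x : ℝ) ≤ 1 := h1.2
      exact_mod_cast this
    have h4 : x = e := by omega
    subst h4
    exact ⟨y, z, hxyz, hy, hz⟩
  · intro h h0 hhp y z v w hvw hy hz hyb hzc
    refine hcr h h0 hhp (h * e) y z e v w hvw (by push_cast; ring) hy hz ?_ hyb hzc
    have h1 : (h : ℤ) * e - h * a = -(h * (a - e)) := by ring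
    rw [h1]
    exact (hae.mul_left _).neg_right

theorem p_N5 (h_plane : S_plane) : S_N5 := by
  intro P p a b c hP hpc hs hp hp7 hcr ha
  rcases ha with ha | ha
  · exact p_N5_aux h_plane P p a b c hP hpc hs hp hp7 hcr 0 (Or.inl rfl) (by simpa using ha)
  · exact p_N5_aux h_plane P p a b c hP hpc hs hp hp7 hcr 1 (Or.inr rfl) ha

end Pool.Agent.Lib.MP_0bc52e_nt.LC
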