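import Pool.Agent.Lib.MP_0bc52e_nt.LC.StmA

/-!
# MP_0bc52e_nt, piece S4
-/

set_option autoImplicit false

namespace Pool.Agent.Lib.MP_0bc52e_nt.LC

/-- some image contains the triangle `W` -/
def p_S4_K (Q : Set (ℝ × ℝ)) : Prop := ∃ g : ℝ × ℝ → ℝ × ℝ, IsUM g ∧ W3 (g '' Q)

/-- some image contains the square and `(0,2)`, `(2,0)` -/
def p_S4_L (Q : Set (ℝ × ℝ)) : Prop :=
  ∃ g : ℝ × ℝ → ℝ × ℝ, IsUM g ∧ S4 (g '' Q) ∧ ip2 (0, 2) ∈ g '' Q ∧ ip2 (2, 0) ∈ g '' Q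

theorem p_S4_Kof (h_um : S_um) (Q : Set (ℝ × ℝ)) (g : ℝ × ℝ → ℝ × ℝ) (hg : IsUM g)
    (h : p_S4_K (g '' Q)) : p_S4_K Q := by
  obtain ⟨g', hg', hw⟩ := h
  refine ⟨g' ∘ g, h_um.1 g g' hg hg', ?_⟩
  rwa [Set.image_comp]

theorem p_S4_Lof (h_um : S_um) (Q : Set (ℝ × ℝ)) (g : ℝ × ℝ → ℝ × ℝ) (hg : IsUM g)
    (h : p_S4_L (g '' Q)) : p_S4_L Q := by
  obtain ⟨g', hg', hw⟩ := h
  refine ⟨g' ∘ g, h_um.1 g g' hg hg', ?_⟩
  rwa [Set.image_comp]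

/-- reflection in `x` -/
noncomputable def p_S4_rx (v : ℝ × ℝ) : ℝ × ℝ := (1 - v.1, v.2)

/-- reflection in `y` -/
noncomputable def p_S4_ry (v : ℝ × ℝ) : ℝ × ℝ := (v.1, 1 - v.2)

/-- swap -/
def p_S4_sw (v : ℝ × ℝ) : ℝ × ℝ := (v.2, v.1)

theorem p_S4_rxUM : IsUM p_S4_rx := by
  refine ⟨-1, 0, 0, 1, 1, 0, Or.inr (by norm_num), fun v => ?_⟩
  unfold p_S4_rx
  ext <;> push_cast <;> ring

theorem p_S4_ryUM : IsUM p_S4_ry := by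
  refine ⟨1, 0, 0, -1, 0, 1, Or.inr (by norm_num), fun v => ?_⟩
  unfold p_S4_ry
  ext <;> push_cast <;> ring

theorem p_S4_swUM : IsUM p_S4_sw := by
  refine ⟨0, 1, 1, 0, 0, 0, Or.inr (by norm_num), fun v => ?_⟩
  unfold p_S4_sw
  ext <;> push_cast <;> ring

theorem p_S4_rxmem (Q : Set (ℝ × ℝ)) (x y : ℝ) : (x, y) ∈ p_S4_rx '' Q ↔ (1 - x, y) ∈ Q := by
  constructor
  · rintro ⟨⟨u, v⟩, h, he⟩
    simp only [p_S4_rx, Prod.mk.injEq] at he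
    obtain ⟨rfl, rfl⟩ := he
    simpa using h
  · intro h
    exact ⟨_, h, by simp [p_S4_rx]⟩

theorem p_S4_rymem (Q : Set (ℝ × ℝ)) (x y : ℝ) : (x, y) ∈ p_S4_ry '' Q ↔ (x, 1 - y) ∈ Q := by
  constructor
  · rintro ⟨⟨u, v⟩, h, he⟩
    simp only [p_S4_ry, Prod.mk.injEq] at he
    obtain ⟨rfl, rfl⟩ := he
    simpa using h
  · intro h
    exact ⟨_, h, by simp [p_S4_ry]⟩

theorem p_S4_swmem (Q : Set (ℝ × ℝ)) (x y : ℝ) : (x, y) ∈ p_S4_sw '' Q ↔ (y, x) ∈ Q := by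
  constructor
  · rintro ⟨⟨u, v⟩, h, he⟩
    simp only [p_S4_sw, Prod.mk.injEq] at he
    obtain ⟨rfl, rfl⟩ := he
    exact h
  · intro h
    exact ⟨_, h, rfl⟩

theorem p_S4_rxip (Q : Set (ℝ × ℝ)) (a b : ℤ) :
    ip2 (a, b) ∈ p_S4_rx '' Q ↔ ip2 (1 - a, b) ∈ Q := by
  unfold ip2
  rw [p_S4_rxmem]
  push_cast
  rfl

theorem p_S4_ryip (Q : Set (ℝ × ℝ)) (a b : ℤ) :
    ip2 (a, b) ∈ p_S4_ry '' Q ↔ ip2 (a, 1 - b) ∈ Q := by
  unfold ip2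
  rw [p_S4_rymem]
  push_cast
  rfl

theorem p_S4_swip (Q : Set (ℝ × ℝ)) (a b : ℤ) :
    ip2 (a, b) ∈ p_S4_sw '' Q ↔ ip2 (b, a) ∈ Q := by
  unfold ip2
  rw [p_S4_swmem]

theorem p_S4_rxS4 (Q : Set (ℝ × ℝ)) (h : S4 Q) : S4 (p_S4_rx '' Q) := by
  obtain ⟨h1, h2, h3, h4⟩ := h
  unfold S4
  simp only [p_S4_rxmem]
  norm_num
  exact ⟨h2, h1, h4, h3⟩

theorem p_S4_ryS4 (Q : Set (ℝ × ℝ)) (h : S4 Q) : S4 (p_S4_ry '' Q) := by
  obtain ⟨h1, h2, h3, h4⟩ := h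
  unfold S4
  simp only [p_S4_rymem]
  norm_num
  exact ⟨h3, h4, h1, h2⟩

theorem p_S4_swS4 (Q : Set (ℝ × ℝ)) (h : S4 Q) : S4 (p_S4_sw '' Q) := by
  obtain ⟨h1, h2, h3, h4⟩ := h
  unfold S4
  simp only [p_S4_swmem]
  exact ⟨h1, h3, h2, h4⟩

/-- one good point in the second row -/
theorem p_S4_A (h_um : S_um) (h_umconv : S_umconv) (h_row : S_row) (h_row2 : S_row2)
    (h_pairs : S_pairs) (Q : Set (ℝ × ℝ)) (hQ : Convex ℝ Q) (hS : S4 Q)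
    (h02 : ip2 (0, 2) ∈ Q) (a b : ℤ) (hab : ip2 (a, b) ∈ Q) (ha : a ≤ -1 ∨ 2 ≤ a) :
    p_S4_K Q ∨ ip2 (2, 0) ∈ Q := by
  rcases ha with ha | ha
  · left
    have hx := (h_umconv _ p_S4_rxUM Q).1 hQ
    have hxS := p_S4_rxS4 Q hS
    have hs := (h_umconv _ p_S4_swUM _).1 hx
    have hsS := p_S4_swS4 _ hxS
    have hm : ip2 (b, 1 - a) ∈ p_S4_sw '' (p_S4_rx '' Q) := by
      rw [p_S4_swip, p_S4_rxip]
      simpa using hab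
    obtain ⟨b', hb'⟩ := h_row _ hs hsS b (1 - a) (by omega) hm
    have hb2 : ip2 (-1, b') ∈ Q := by
      rw [p_S4_swip, p_S4_rxip] at hb'
      simpa using hb'
    by_cases h0 : b' = 0
    · subst h0
      exact h_pairs Q hS h02 (Or.inr (Or.inl hb2))
    by_cases h1 : b' = 1
    · subst h1
      exact h_pairs Q hS h02 (Or.inr (Or.inr hb2))
    · exact p_S4_Kof h_um Q _ p_S4_rxUM (p_S4_Kof h_um _ _ p_S4_swUM
        (h_row2 _ hs hsS b' hb' h0 h1))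
  · have hs := (h_umconv _ p_S4_swUM Q).1 hQ
    have hsS := p_S4_swS4 Q hS
    have hm : ip2 (b, a) ∈ p_S4_sw '' Q := by
      rw [p_S4_swip]
      exact hab
    obtain ⟨b', hb'⟩ := h_row _ hs hsS b a ha hm
    have hb2 : ip2 (2, b') ∈ Q := by
      rw [p_S4_swip] at hb'
      exact hb'
    by_cases h0 : b' = 0
    · subst h0
      exact Or.inr hb2
    by_cases h1 : b' = 1
    · subst h1
      exact Or.inl (h_pairs Q hS h02 (Or.inl hb2))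
    · exact Or.inl (p_S4_Kof h_um _ _ p_S4_swUM (h_row2 _ hs hsS b' hb' h0 h1))

theorem p_S4_B (h_um : S_um) (h_umconv : S_umconv) (h_row : S_row) (h_row2 : S_row2)
    (h_pairs : S_pairs) (Q : Set (ℝ × ℝ)) (hQ : Convex ℝ Q) (hS : S4 Q)
    (a₁ b₁ : ℤ) (h1 : ip2 (a₁, b₁) ∈ Q) (hb₁ : 2 ≤ b₁)
    (a b : ℤ) (hab : ip2 (a, b) ∈ Q) (ha : a ≤ -1 ∨ 2 ≤ a) :
    p_S4_K Q ∨ p_S4_L Q := by
  obtain ⟨a', ha'⟩ := h_row Q hQ hS a₁ b₁ hb₁ h1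
  by_cases e0 : a' = 0
  · subst e0
    rcases p_S4_A h_um h_umconv h_row h_row2 h_pairs Q hQ hS ha' a b hab ha with h | h
    · exact Or.inl h
    · exact Or.inr ⟨id, h_um.2.2, by simpa using hS, by simpa using ha', by simpa using h⟩
  by_cases e1 : a' = 1
  · subst e1
    have hx := (h_umconv _ p_S4_rxUM Q).1 hQ
    have hxS := p_S4_rxS4 Q hS
    have hx2 : ip2 (0, 2) ∈ p_S4_rx '' Q := by
      rw [p_S4_rxip]
      simpa using ha'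
    have hxa : ip2 (1 - a, b) ∈ p_S4_rx '' Q := by
      rw [p_S4_rxip]
      simpa using hab
    rcases p_S4_A h_um h_umconv h_row h_row2 h_pairs _ hx hxS hx2 (1 - a) b hxa (by omega) with
      h | h
    · exact Or.inl (p_S4_Kof h_um Q _ p_S4_rxUM h)
    · exact Or.inr ⟨p_S4_rx, p_S4_rxUM, hxS, hx2, h⟩
  · exact Or.inl (h_row2 Q hQ hS a' ha' e0 e1)

theorem p_S4 (h_um : S_um) (h_umconv : S_umconv) (h_row : S_row) (h_row2 : S_row2)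
    (h_pairs : S_pairs) : S_S4 := by
  intro Q hQ hS
  by_cases hy : ∀ x y : ℤ, ip2 (x, y) ∈ Q → 0 ≤ y ∧ y ≤ 1
  · exact Or.inr (Or.inl hy)
  by_cases hx : ∀ x y : ℤ, ip2 (x, y) ∈ Q → 0 ≤ x ∧ x ≤ 1
  · exact Or.inr (Or.inr (Or.inl hx))
  simp only [not_forall] at hx hy
  obtain ⟨a₁, b₁, h1, hb₁⟩ := hy
  obtain ⟨a, b, hab, ha⟩ := hx
  have ha' : a ≤ -1 ∨ 2 ≤ a := by omega
  have key : p_S4_K Q ∨ p_S4_L Q := by
    by_cases hb : 2 ≤ b₁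
    · exact p_S4_B h_um h_umconv h_row h_row2 h_pairs Q hQ hS a₁ b₁ h1 hb a b hab ha'
    · have hy := (h_umconv _ p_S4_ryUM Q).1 hQ
      have hyS := p_S4_ryS4 Q hS
      have h1' : ip2 (a₁, 1 - b₁) ∈ p_S4_ry '' Q := by
        rw [p_S4_ryip]
        simpa using h1
      have h2' : ip2 (a, 1 - b) ∈ p_S4_ry '' Q := by
        rw [p_S4_ryip]
        simpa using hab
      rcases p_S4_B h_um h_umconv h_row h_row2 h_pairs _ hy hyS a₁ (1 - b₁) h1' (by omega)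
        a (1 - b) h2' ha' with h | h
      · exact Or.inl (p_S4_Kof h_um Q _ p_S4_ryUM h)
      · exact Or.inr (p_S4_Lof h_um Q _ p_S4_ryUM h)
  rcases key with h | h
  · exact Or.inl h
  · exact Or.inr (Or.inr (Or.inr h))

end Pool.Agent.Lib.MP_0bc52e_nt.LC
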