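import Pool.Agent.Lib.MP_0bc52e_nt.LC.StmA

/-! # Piece W7: the case `p = 7` -/

namespace Pool.Agent.Lib.MP_0bc52e_nt.LC

theorem p_W7_fin : ∀ a b : Fin 7, ∃ h : Fin 7, ∃ i j : Fin 3, (0 : ℕ) < h ∧
    (((h * a : ℕ) % 7 : ℕ) - 7 * (i : ℕ) : ℤ) + (((h * b : ℕ) % 7 : ℕ) - 7 * (j : ℕ) : ℤ) ≤ (h : ℕ) - 1 ∧
    (((h * b : ℕ) % 7 : ℕ) - 7 * (j : ℕ) : ℤ) - 2 * (((h * a : ℕ) % 7 : ℕ) - 7 * (i : ℕ) : ℤ) ≤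
      (h : ℕ) - 1 ∧
    (((h * a : ℕ) % 7 : ℕ) - 7 * (i : ℕ) : ℤ) - 2 * (((h * b : ℕ) % 7 : ℕ) - 7 * (j : ℕ) : ℤ) ≤
      (h : ℕ) - 1 := by
  decide +kernel

theorem p_W7_mod (h : ℕ) (a : ℤ) (a' : ℕ) (i : ℕ) (ha : (a' : ℤ) = a % 7) :
    (7 : ℤ) ∣ (((h * a' : ℕ) % 7 : ℕ) - 7 * (i : ℕ) : ℤ) - h * a := by
  have h1 : (((h * a' : ℕ) % 7 : ℕ) : ℤ) = ((h : ℤ) * a') % 7 := by push_cast; rfl
  have h2 : (7 : ℤ) ∣ ((h : ℤ) * a') % 7 - (h : ℤ) * a' := by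
    have := Int.emod_add_mul_ediv ((h : ℤ) * a') 7
    exact ⟨-((h : ℤ) * a' / 7), by linarith⟩
  have h3 : (7 : ℤ) ∣ (a' : ℤ) - a := by
    have := Int.emod_add_mul_ediv a 7
    exact ⟨-(a / 7), by rw [ha]; linarith⟩
  rw [h1]
  obtain ⟨x, hx⟩ := h2
  obtain ⟨y, hy⟩ := h3
  exact ⟨x + h * y - i, by linear_combination hx + h * hy⟩

theorem p_W7 : S_W7 := by
  intro a b
  have ha : 0 ≤ a % 7 ∧ a % 7 < 7 := by omega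
  have hb : 0 ≤ b % 7 ∧ b % 7 < 7 := by omega
  obtain ⟨h, i, j, h0, h1, h2, h3⟩ :=
    p_W7_fin ⟨(a % 7).toNat, by omega⟩ ⟨(b % 7).toNat, by omega⟩
  refine ⟨h, h0, h.2, _, _, p_W7_mod h a (a % 7).toNat i (by omega),
    p_W7_mod h b (b % 7).toNat j (by omega), h1, h2, h3⟩

end Pool.Agent.Lib.MP_0bc52e_nt.LC
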