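import Pool.Agent.Lib.MP_0bc52e_nt.LC.StmC

open scoped Pointwise

namespace Pool.Agent.Lib.MP_0bc52e_nt.LC

theorem p_five_mul {P : Set (Fin 3 → ℝ)} {x : Fin 3 → ℤ} {j k : ℝ} {m : ℤ} (h : (m : ℝ) * j = k)
    (hx : (fun i => (x i : ℝ)) ∈ j • P) : (fun i => ((m * x i : ℤ) : ℝ)) ∈ k • P := by
  obtain ⟨y, hy, e⟩ := hx
  refine ⟨y, hy, ?_⟩
  funext i
  have e' := congrFun e i
  simp only [Pi.smul_apply, smul_eq_mul] at e' ⊢
  push_cast
  rw [← e', ← h]
  ring

theorem p_five : S_five := by
  intro P
  constructor
  · rintro ⟨o, ho⟩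
    refine ⟨o, fun x => ⟨fun hx hd => ?_, fun hx hd => ?_⟩⟩
    · refine ho 3 (by norm_num) (by norm_num) x (by simpa using hx) fun i => ?_
      have := hd i
      push_cast
      omega
    · refine ho 4 (by norm_num) (by norm_num) x (by simpa using hx) fun i => ?_
      have := hd i
      push_cast
      omega
  · rintro ⟨o, ho⟩
    refine ⟨o, fun j hj0 hj5 x hx hd => ?_⟩
    have hj : j = 1 ∨ j = 2 ∨ j = 3 ∨ j = 4 := by omega
    rcases hj with rfl | rfl | rfl | rfl
    · refine (ho (fun i => 4 * x i)).2 ?_ fun i => ?_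
      · exact p_five_mul (m := 4) (by norm_num) hx
      · have := hd i
        push_cast at this
        omega
    · refine (ho (fun i => 2 * x i)).2 ?_ fun i => ?_
      · exact p_five_mul (m := 2) (by norm_num) hx
      · have := hd i
        push_cast at this
        omega
    · refine (ho x).1 (by simpa using hx) fun i => ?_
      have := hd i
      push_cast at this
      omega
    · refine (ho x).2 (by simpa using hx) fun i => ?_
      have := hd i
      push_cast at this
      omega

end Pool.Agent.Lib.MP_0bc52e_nt.LC
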