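import Pool.Agent.Lib.MP_0bc52e_nt.LC.StmA

namespace Pool.Agent.Lib.MP_0bc52e_nt.LC

theorem p_res : S_res := by
  intro p hp t α
  have hp' : (0 : ℤ) < p := by exact_mod_cast hp
  refine ⟨⌈α⌉ + (t - ⌈α⌉) % p, ?_, ?_, ?_⟩
  · have h := Int.emod_add_mul_ediv (t - ⌈α⌉) p
    refine ⟨-((t - ⌈α⌉) / p), ?_⟩
    linarith
  · have h1 : (0 : ℤ) ≤ (t - ⌈α⌉) % p := Int.emod_nonneg _ hp'.ne'
    have h1' : (0 : ℝ) ≤ (((t - ⌈α⌉) % p : ℤ) : ℝ) := by exact_mod_cast h1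
    have h2 := Int.le_ceil α
    rw [Int.cast_add]
    linarith
  · have h1 : (t - ⌈α⌉) % p ≤ p - 1 := by
      have := Int.emod_lt_of_pos (t - ⌈α⌉) hp'
      omega
    have h1' : (((t - ⌈α⌉) % p : ℤ) : ℝ) ≤ (p : ℝ) - 1 := by exact_mod_cast h1
    have h2 := Int.ceil_lt_add_one α
    rw [Int.cast_add]
    linarith

end Pool.Agent.Lib.MP_0bc52e_nt.LC
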